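import Pool.Agent.R398.DS.Basic

namespace R398.DS

open Real MeasureTheory

/-- The number of finite sets `T` of numbers of the form `p^a q^b` (`a, b ≥ 0`) with sum `n`. -/
noncomputable def sumCount (p q n : ℕ) : ℕ :=
  Set.ncard {T : Finset ℕ | (∀ t ∈ T, ∃ a b : ℕ, t = p ^ a * q ^ b) ∧ ∑ t ∈ T, t = n}

/-- the truncated set -/
def S0 (A B : ℕ) : Finset ℕ :=
  (Finset.range A ×ˢ Finset.range B).image (fun x => 3 ^ x.1 * 5 ^ x.2)

lemma inj35 {a b c d : ℕ} (h : 3 ^ a * 5 ^ b = 3 ^ c * 5 ^ d) : a = c ∧ b = d := by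
  have key : ∀ a b c d : ℕ, a ≤ c → 3 ^ a * 5 ^ b = 3 ^ c * 5 ^ d → a = c ∧ b = d := by
    intro a b c d hac h
    obtain ⟨k, rfl⟩ := Nat.exists_eq_add_of_le hac
    have h1 : 5 ^ b = 3 ^ k * 5 ^ d := by
      have : 3 ^ a * 5 ^ b = 3 ^ a * (3 ^ k * 5 ^ d) := by rw [h, pow_add]; ring
      exact Nat.eq_of_mul_eq_mul_left (by positivity) this
    have hk : k = 0 := by
      by_contra hk
      have h3 : 3 ∣ 5 ^ b := by
        rw [h1]; exact Dvd.dvd.mul_right (dvd_pow_self 3 hk) _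
      have := Nat.Prime.dvd_of_dvd_pow Nat.prime_three h3
      norm_num at this
    subst hk
    refine ⟨by omega, ?_⟩
    rw [pow_zero, one_mul] at h1
    exact Nat.pow_right_injective (by norm_num : 2 ≤ 5) h1
  rcases le_total a c with hac | hac
  · exact key a b c d hac h
  · have := key c d a b hac h.symm
    exact ⟨this.1.symm, this.2.symm⟩

lemma sumCount_eq {n A B : ℕ} (hA : n < A) (hB : n < B) :
    sumCount 3 5 n = ((S0 A B).powerset.filter (fun T => ∑ t ∈ T, t = n)).card := by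
  unfold sumCount
  rw [← Set.ncard_coe_finset]
  congr 1
  ext T
  simp only [Set.mem_ofPred_eq, Finset.coe_filter, Finset.mem_powerset]
  constructor
  · rintro ⟨h1, h2⟩
    refine ⟨?_, h2⟩
    intro t ht
    obtain ⟨a, b, hab⟩ := h1 t ht
    have hle : t ≤ n := by
      rw [← h2]; exact Finset.single_le_sum (f := fun t => t) (fun _ _ => Nat.zero_le _) ht
    have ha : a < 3 ^ a := Nat.lt_pow_self (by norm_num)
    have hb : b < 5 ^ b := Nat.lt_pow_self (by norm_num)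
    have h3 : 3 ^ a ≤ t := by rw [hab]; exact Nat.le_mul_of_pos_right _ (by positivity)
    have h5 : 5 ^ b ≤ t := by rw [hab]; exact Nat.le_mul_of_pos_left _ (by positivity)
    unfold S0
    rw [Finset.mem_image]
    exact ⟨(a, b), by rw [Finset.mem_product, Finset.mem_range, Finset.mem_range]; constructor <;> simp only <;> omega,
      hab.symm⟩
  · rintro ⟨h1, h2⟩
    refine ⟨?_, h2⟩
    intro t ht
    have := h1 ht
    unfold S0 at this
    rw [Finset.mem_image] at this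
    obtain ⟨x, _, hx⟩ := this
    exact ⟨x.1, x.2, hx.symm⟩

/-- normalising constant -/
noncomputable def F0 (B A : ℕ) (σ : ℝ) : ℝ :=
  ∏ a ∈ Finset.range A, ∏ b ∈ Finset.range B, (1 + exp (-(σ * 3 ^ a * 5 ^ b)))

lemma F0_pos (B A : ℕ) (σ : ℝ) : 0 < F0 B A σ :=
  Finset.prod_pos (fun _ _ => Finset.prod_pos (fun _ _ => by positivity))

lemma Psi_eq_sum (B A : ℕ) (σ θ : ℝ) : Psi B A σ θ * (F0 B A σ : ℂ) =
    ∑ T ∈ (S0 A B).powerset, ((exp (-σ) : ℂ) * ee θ) ^ (∑ t ∈ T, t) := by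
  have h1 : Psi B A σ θ * (F0 B A σ : ℂ) =
      ∏ s ∈ S0 A B, (1 + ((exp (-σ) : ℂ) * ee θ) ^ s) := by
    unfold S0
    rw [Finset.prod_image (by
      intro x _ y _ hxy
      have := inj35 hxy
      exact Prod.ext this.1 this.2)]
    unfold Psi cc F0
    push_cast
    rw [Finset.prod_product, ← Finset.prod_mul_distrib]
    apply Finset.prod_congr rfl
    intro a _
    rw [← Finset.prod_mul_distrib]
    apply Finset.prod_congr rfl
    intro b _
    simp only
    unfold ph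
    have hne := one_add_exp_ne (σ * 3 ^ a * 5 ^ b)
    have e1 : ((exp (-σ) : ℂ) * ee θ) ^ (3 ^ a * 5 ^ b) =
        (exp (-(σ * 3 ^ a * 5 ^ b)) : ℂ) * ee (5 ^ b * (3 ^ a * θ)) := by
      rw [mul_pow, ← ee_nat_mul]
      congr 1
      · rw [← Complex.ofReal_pow, ← Real.exp_nat_mul]
        congr 2; push_cast; ring
      · congr 1; push_cast; ring
    push_cast at hne e1 ⊢
    rw [e1]
    field_simp
  rw [h1, Finset.prod_one_add]
  apply Finset.sum_congr rfl
  intro T _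
  exact Finset.prod_pow_eq_pow_sum _ _ _

lemma integral_ee (k : ℤ) : ∫ θ in (0:ℝ)..1, ee (k * θ) = if k = 0 then 1 else 0 := by
  by_cases hk : k = 0
  · rw [if_pos hk, hk]
    simp [ee_zero]
  · rw [if_neg hk]
    have hc : (2 * π * k * Complex.I : ℂ) ≠ 0 := by
      have h1 : (π : ℂ) ≠ 0 := by exact_mod_cast pi_ne_zero
      have h2 : (k : ℂ) ≠ 0 := by exact_mod_cast hk
      have h3 := Complex.I_ne_zero
      exact mul_ne_zero (mul_ne_zero (mul_ne_zero two_ne_zero h1) h2) h3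
    have e : ∀ θ : ℝ, ee (k * θ) = Complex.exp ((2 * π * k * Complex.I : ℂ) * θ) := by
      intro θ; unfold ee; congr 1; push_cast; ring
    simp only [e]
    rw [integral_exp_mul_complex hc]
    have h1 : Complex.exp ((2 * π * k * Complex.I : ℂ) * ((1:ℝ):ℂ)) = 1 := by
      rw [Complex.exp_eq_one_iff]; exact ⟨k, by push_cast; ring⟩
    rw [h1]
    simp

lemma fourier {n A B : ℕ} (hA : n < A) (hB : n < B) (σ : ℝ) :
    (∫ θ in (0:ℝ)..1, Psi B A σ θ * ee (-(n * θ))) * (F0 B A σ : ℂ) =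
      ((sumCount 3 5 n : ℝ) * exp (-(σ * n)) : ℝ) := by
  rw [← intervalIntegral.integral_mul_const]
  have e1 : ∀ θ : ℝ, Psi B A σ θ * ee (-(n * θ)) * (F0 B A σ : ℂ) =
      ∑ T ∈ (S0 A B).powerset, ((exp (-(σ * ((∑ t ∈ T, t : ℕ) : ℝ))) : ℝ) : ℂ) *
        ee ((((∑ t ∈ T, t : ℕ) : ℤ) - (n : ℤ) : ℤ) * θ) := by
    intro θ
    rw [mul_right_comm, Psi_eq_sum, Finset.sum_mul]
    apply Finset.sum_congr rfl
    intro T _
    rw [mul_pow, ← ee_nat_mul, mul_assoc, ← ee_add]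
    congr 1
    · rw [← Complex.ofReal_pow, ← Real.exp_nat_mul]
      congr 2; ring
    · congr 1; push_cast; ring
  simp only [e1]
  rw [intervalIntegral.integral_finsetSum]
  · have e2 : ∀ T ∈ (S0 A B).powerset, ∫ θ in (0:ℝ)..1, ((exp (-(σ * ((∑ t ∈ T, t : ℕ) : ℝ))) : ℝ) : ℂ) *
        ee ((((∑ t ∈ T, t : ℕ) : ℤ) - (n : ℤ) : ℤ) * θ) =
        if (∑ t ∈ T, t) = n then ((exp (-(σ * n)) : ℝ) : ℂ) else 0 := by
      intro T _
      rw [intervalIntegral.integral_const_mul, integral_ee]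
      by_cases h : ∑ t ∈ T, t = n
      · rw [if_pos h, if_pos (by rw [h]; ring), h, mul_one]
      · rw [if_neg h, if_neg (by intro h'; apply h; exact_mod_cast (sub_eq_zero.mp h')), mul_zero]
    rw [Finset.sum_congr rfl e2, ← Finset.sum_filter, Finset.sum_const, sumCount_eq hA hB, nsmul_eq_mul]
    push_cast; rfl
  · intro T _
    apply Continuous.intervalIntegrable
    exact continuous_const.mul (continuous_ee.comp (by fun_prop))

/-- The Fourier integral for the difference. -/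
lemma fourier_diff {n A B : ℕ} (hA : n + 1 < A) (hB : n + 1 < B) (σ : ℝ) :
    (∫ θ in (0:ℝ)..1, Psi B A σ θ * ee (-(n * θ)) * (1 - (exp σ : ℂ) * ee (-θ))) =
      ((((sumCount 3 5 n : ℝ) - sumCount 3 5 (n + 1)) * (exp (-(σ * n)) / F0 B A σ) : ℝ) : ℂ) := by
  have h1 := fourier (n := n) (A := A) (B := B) (by omega) (by omega) σ
  have h2 := fourier (n := n + 1) (A := A) (B := B) (by omega) (by omega) σ
  have hF : (F0 B A σ : ℂ) ≠ 0 := by exact_mod_cast (F0_pos B A σ).ne'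
  have i1 : IntervalIntegrable (fun θ => Psi B A σ θ * ee (-(n * θ))) volume 0 1 :=
    ((continuous_Psi _ _ _).mul (continuous_ee.comp (by fun_prop))).intervalIntegrable _ _
  have i2 : IntervalIntegrable (fun θ => (exp σ : ℂ) * (Psi B A σ θ * ee (-(((n + 1 : ℕ) : ℝ) * θ)))) volume 0 1 :=
    (continuous_const.mul ((continuous_Psi _ _ _).mul (continuous_ee.comp (by fun_prop)))).intervalIntegrable _ _
  have e : ∀ θ : ℝ, Psi B A σ θ * ee (-(n * θ)) * (1 - (exp σ : ℂ) * ee (-θ)) =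
      Psi B A σ θ * ee (-(n * θ)) - (exp σ : ℂ) * (Psi B A σ θ * ee (-(((n + 1 : ℕ) : ℝ) * θ))) := by
    intro θ
    have : ee (-(((n + 1 : ℕ) : ℝ) * θ)) = ee (-(n * θ)) * ee (-θ) := by
      rw [← ee_add]; congr 1; push_cast; ring
    rw [this]; ring
  simp only [e]
  rw [intervalIntegral.integral_sub i1 i2, intervalIntegral.integral_const_mul]
  rw [← eq_div_iff hF] at h1 h2
  rw [h1, h2]
  have e3 : (exp σ : ℝ) * exp (-(σ * ((n + 1 : ℕ) : ℝ))) = exp (-(σ * n)) := by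
    rw [← Real.exp_add]; congr 1; push_cast; ring
  have e4 : ((sumCount 3 5 n : ℝ) - sumCount 3 5 (n + 1)) * (exp (-(σ * n)) / F0 B A σ) =
      (sumCount 3 5 n : ℝ) * exp (-(σ * n)) / F0 B A σ -
      exp σ * ((sumCount 3 5 (n + 1) : ℝ) * exp (-(σ * ((n + 1 : ℕ) : ℝ))) / F0 B A σ) := by
    rw [← e3]; ring
  rw [e4]
  push_cast
  ring

end R398.DS
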