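import Pool.Agent.R398.DS.Sums

namespace R398.DS

open Real

/-! ### alternating sums -/

lemma alt_bd (B : ℕ) : ∀ x : ℕ → ℝ, Antitone x → (∀ b, 0 ≤ x b) →
    0 ≤ ∑ b ∈ Finset.range B, (-1) ^ b * x b ∧ ∑ b ∈ Finset.range B, (-1) ^ b * x b ≤ x 0 := by
  induction B with
  | zero => intro x _ h0; simp [h0 0]
  | succ B ih =>
    intro x hx h0
    have h1 := ih (fun b => x (b + 1)) (fun a b h => hx (by omega)) (fun b => h0 (b + 1))
    have h2 : ∑ b ∈ Finset.range (B + 1), (-1) ^ b * x b =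
        x 0 - ∑ b ∈ Finset.range B, (-1) ^ b * x (b + 1) := by
      rw [Finset.sum_range_succ']
      have : ∑ k ∈ Finset.range B, (-1) ^ (k + 1) * x (k + 1) = -∑ b ∈ Finset.range B, (-1) ^ b * x (b + 1) := by
        rw [← Finset.sum_neg_distrib]
        apply Finset.sum_congr rfl
        intro k _; rw [pow_succ]; ring
      rw [this]; simp; ring
    have h3 : x (0 + 1) ≤ x 0 := hx (by omega)
    rw [h2]
    constructor <;> linarith [h1.1, h1.2]

lemma alt_low {x : ℕ → ℝ} (hx : Antitone x) (h0 : ∀ b, 0 ≤ x b) {B b : ℕ} (hb : Even b) (hbB : b < B) :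
    x b - x (b + 1) ≤ ∑ i ∈ Finset.range B, (-1) ^ i * x i := by
  obtain ⟨k, rfl⟩ : ∃ k, B = b + (k + 1) := ⟨B - b - 1, by omega⟩
  rw [Finset.sum_range_add]
  have h1 := (alt_bd b x hx h0).1
  have h2 : ∑ j ∈ Finset.range (k + 1), (-1 : ℝ) ^ (b + j) * x (b + j) =
      x b - ∑ j ∈ Finset.range k, (-1 : ℝ) ^ j * x (b + 1 + j) := by
    rw [Finset.sum_range_succ']
    have : ∑ j ∈ Finset.range k, (-1 : ℝ) ^ (b + (j + 1)) * x (b + (j + 1)) =
        -∑ j ∈ Finset.range k, (-1 : ℝ) ^ j * x (b + 1 + j) := by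
      rw [← Finset.sum_neg_distrib]
      apply Finset.sum_congr rfl
      intro j _
      rw [pow_add, hb.neg_one_pow, pow_succ, show b + (j + 1) = b + 1 + j by ring]; ring
    rw [this]; simp [hb.neg_one_pow]; ring
  have h3 := (alt_bd k (fun j => x (b + 1 + j)) (fun a c h => hx (by omega)) (fun j => h0 _)).2
  simp only [add_zero] at h3
  rw [h2]
  linarith

lemma alt_up {x : ℕ → ℝ} (hx : Antitone x) (h0 : ∀ b, 0 ≤ x b) {B b : ℕ} (hb : Odd b) (hbB : b < B) :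
    ∑ i ∈ Finset.range B, (-1) ^ i * x i ≤ x 0 - (x b - x (b + 1)) := by
  obtain ⟨B', rfl⟩ : ∃ B', B = B' + 1 := ⟨B - 1, by omega⟩
  obtain ⟨c, rfl⟩ : ∃ c, b = c + 1 := ⟨b - 1, by have := hb.pos; omega⟩
  have hc : Even c := by
    rcases Nat.even_or_odd c with h | h
    · exact h
    · exfalso
      have : Even (c + 1) := h.add_one
      exact (Nat.not_even_iff_odd.mpr hb) this
  have h2 : ∑ b ∈ Finset.range (B' + 1), (-1) ^ b * x b =
      x 0 - ∑ b ∈ Finset.range B', (-1) ^ b * x (b + 1) := by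
    rw [Finset.sum_range_succ']
    have : ∑ k ∈ Finset.range B', (-1) ^ (k + 1) * x (k + 1) = -∑ b ∈ Finset.range B', (-1) ^ b * x (b + 1) := by
      rw [← Finset.sum_neg_distrib]
      apply Finset.sum_congr rfl
      intro k _; rw [pow_succ]; ring
    rw [this]; simp; ring
  have h3 := alt_low (x := fun b => x (b + 1)) (fun a b h => hx (by omega)) (fun b => h0 (b + 1))
    hc (by omega : c < B')
  rw [h2]
  linarith

/-! ### the angle -/

noncomputable def vt (ρ : ℝ) : ℝ := arctan (√3 * ρ / (2 - ρ))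

lemma sqrt3_pos : 0 < √3 := by positivity
lemma sqrt3_sq : √3 ^ 2 = 3 := Real.sq_sqrt (by norm_num)

lemma vt_arg_nonneg {ρ : ℝ} (h0 : 0 ≤ ρ) (h1 : ρ ≤ 1) : 0 ≤ √3 * ρ / (2 - ρ) := by
  have : 0 < 2 - ρ := by linarith
  positivity

lemma vt_arg_le {ρ : ℝ} (h1 : ρ ≤ 1) : √3 * ρ / (2 - ρ) ≤ √3 := by
  have : 0 < 2 - ρ := by linarith
  rw [div_le_iff₀ this]
  have := sqrt3_pos
  nlinarith

lemma vt_arg_diff {ρ₁ ρ₂ : ℝ} (h0 : 0 ≤ ρ₂) (h12 : ρ₂ ≤ ρ₁) (h1 : ρ₁ ≤ 1) :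
    √3 * (ρ₁ - ρ₂) / 2 ≤ √3 * ρ₁ / (2 - ρ₁) - √3 * ρ₂ / (2 - ρ₂) := by
  have a1 : 0 < 2 - ρ₁ := by linarith
  have a2 : 0 < 2 - ρ₂ := by linarith
  have e : √3 * ρ₁ / (2 - ρ₁) - √3 * ρ₂ / (2 - ρ₂) = √3 * (ρ₁ - ρ₂) * (2 / ((2 - ρ₁) * (2 - ρ₂))) := by
    field_simp; ring
  rw [e, div_eq_mul_one_div]
  have h3 : 1 / 2 ≤ 2 / ((2 - ρ₁) * (2 - ρ₂)) := by
    rw [div_le_div_iff₀ (by norm_num) (by positivity)]
    nlinarith
  have := sqrt3_pos
  exact mul_le_mul_of_nonneg_left h3 (mul_nonneg this.le (by linarith))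

lemma arctan_diff {x y : ℝ} (hy : 0 ≤ y) (hxy : y ≤ x) (hx : x ≤ √3) :
    (x - y) / 4 ≤ arctan x - arctan y := by
  have hc : ∀ z : ℝ, 0 ≤ z → z ≤ √3 → 1 / 2 ≤ cos (arctan z) := by
    intro z hz0 hz
    have h1 : arctan z ≤ π / 3 := by rw [← arctan_sqrt_three]; exact arctan_le_arctan_iff.mpr hz
    have h2 : 0 ≤ arctan z := by rw [← arctan_zero]; exact arctan_le_arctan_iff.mpr hz0
    rw [← Real.cos_pi_div_three]
    exact cos_le_cos_of_nonneg_of_le_pi h2 (by linarith [pi_pos]) h1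
  have c1 := hc x (hy.trans hxy) hx
  have c2 := hc y hy (hxy.trans hx)
  have hd : 0 ≤ arctan x - arctan y := by
    have := arctan_le_arctan_iff.mpr hxy; linarith
  have h1 : sin (arctan x - arctan y) = cos (arctan x) * cos (arctan y) * (x - y) := by
    rw [sin_sub]
    have e1 : sin (arctan x) = x * cos (arctan x) := by
      have := tan_arctan x
      rw [tan_eq_sin_div_cos, div_eq_iff (cos_arctan_pos x).ne'] at this
      exact this
    have e2 : sin (arctan y) = y * cos (arctan y) := by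
      have := tan_arctan y
      rw [tan_eq_sin_div_cos, div_eq_iff (cos_arctan_pos y).ne'] at this
      exact this
    rw [e1, e2]; ring
  have h2 := Real.sin_le hd
  rw [h1] at h2
  have h3 : 1 / 4 ≤ cos (arctan x) * cos (arctan y) := by nlinarith
  have h4 : 0 ≤ x - y := by linarith
  nlinarith

lemma vt_nonneg {ρ : ℝ} (h0 : 0 ≤ ρ) (h1 : ρ ≤ 1) : 0 ≤ vt ρ := by
  unfold vt; rw [← arctan_zero]; exact arctan_le_arctan_iff.mpr (vt_arg_nonneg h0 h1)

lemma vt_le {ρ : ℝ} (h1 : ρ ≤ 1) : vt ρ ≤ π / 3 := by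
  unfold vt; rw [← arctan_sqrt_three]; exact arctan_le_arctan_iff.mpr (vt_arg_le h1)

lemma vt_diff {ρ₁ ρ₂ : ℝ} (h0 : 0 ≤ ρ₂) (h12 : ρ₂ ≤ ρ₁) (h1 : ρ₁ ≤ 1) :
    (ρ₁ - ρ₂) / 8 ≤ vt ρ₁ - vt ρ₂ := by
  have h2 := vt_arg_diff h0 h12 h1
  have hs : 1 ≤ √3 := by
    rw [Real.le_sqrt (by norm_num) (by norm_num)]; norm_num
  have h3 : 0 ≤ √3 * (ρ₁ - ρ₂) / 2 := by
    have : 0 ≤ ρ₁ - ρ₂ := by linarith
    positivity
  have h4 := arctan_diff (vt_arg_nonneg h0 (h12.trans h1)) (by linarith) (vt_arg_le h1)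
  unfold vt
  have h5 : (ρ₁ - ρ₂) ≤ √3 * (ρ₁ - ρ₂) := by nlinarith
  linarith

/-- polar form of `1 + ρ ω` -/
lemma polar {ρ : ℝ} (h1 : ρ ≤ 1) :
    ∃ S : ℝ, 0 < S ∧ (1 + (ρ : ℂ) * ee (1 / 3) = (S : ℂ) * Complex.exp ((vt ρ : ℂ) * Complex.I)) ∧
      (1 + (ρ : ℂ) * ee (-(1 / 3)) = (S : ℂ) * Complex.exp ((-(vt ρ) : ℝ) * Complex.I)) := by
  have hcp := cos_arctan_pos (√3 * ρ / (2 - ρ))
  have h2 : 0 < 2 - ρ := by linarith
  set c := cos (vt ρ) with hc
  have hc0 : 0 < c := hcp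
  have hs : sin (vt ρ) = (√3 * ρ / (2 - ρ)) * c := by
    have := tan_arctan (√3 * ρ / (2 - ρ))
    rw [tan_eq_sin_div_cos, div_eq_iff hcp.ne'] at this
    exact this
  have k1 : (1 - ρ / 2) / c * cos (vt ρ) = 1 - ρ / 2 := by
    rw [← hc]; field_simp
  have k2 : (1 - ρ / 2) / c * sin (vt ρ) = √3 / 2 * ρ := by
    rw [hs]; field_simp
  have r1 : (ee (1 / 3)).re = -1 / 2 := by
    rw [ee_re, show 2 * π * (1 / 3) = π - π / 3 by ring, cos_pi_sub, cos_pi_div_three]; norm_num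
  have r2 : (ee (1 / 3)).im = √3 / 2 := by
    rw [ee_im, show 2 * π * (1 / 3) = π - π / 3 by ring, sin_pi_sub, sin_pi_div_three]
  refine ⟨(1 - ρ / 2) / c, div_pos (by linarith) hc0, ?_, ?_⟩
  · apply Complex.ext
    · rw [Complex.re_ofReal_mul, Complex.exp_ofReal_mul_I_re, k1, Complex.add_re, Complex.one_re,
        Complex.re_ofReal_mul, r1]; ring
    · rw [Complex.im_ofReal_mul, Complex.exp_ofReal_mul_I_im, k2, Complex.add_im, Complex.one_im,
        Complex.im_ofReal_mul, r2]; ring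
  · apply Complex.ext
    · rw [Complex.re_ofReal_mul, Complex.exp_ofReal_mul_I_re, cos_neg, k1, Complex.add_re, Complex.one_re,
        Complex.re_ofReal_mul, ee_neg, Complex.conj_re, r1]; ring
    · rw [Complex.im_ofReal_mul, Complex.exp_ofReal_mul_I_im, sin_neg, mul_neg, k2, Complex.add_im, Complex.one_im,
        Complex.im_ofReal_mul, ee_neg, Complex.conj_im, r2]; ring

lemma five_pow_mod (b : ℕ) : ∃ k : ℤ, (5:ℤ) ^ b = 3 * k + (-1) ^ b := by
  induction b with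
  | zero => exact ⟨0, by simp⟩
  | succ b ih =>
    obtain ⟨k, hk⟩ := ih
    exact ⟨5 * k + 2 * (-1) ^ b, by rw [pow_succ, hk, pow_succ]; ring⟩

lemma polar_ph (u : ℝ) (hu : 0 ≤ u) (b : ℕ) : ∃ S : ℝ, 0 < S ∧
    ph u (5 ^ b * (1 / 3)) = (S : ℂ) * Complex.exp ((((-1) ^ b * vt (exp (-u)) : ℝ) : ℂ) * Complex.I) := by
  have hρ1 : exp (-u) ≤ 1 := Real.exp_le_one_iff.mpr (by linarith)
  obtain ⟨S, hS, h1, h2⟩ := polar hρ1
  obtain ⟨k, hk⟩ := five_pow_mod b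
  have hkr : (5:ℝ) ^ b = 3 * k + (-1) ^ b := by exact_mod_cast hk
  have e : (5:ℝ) ^ b * (1 / 3) = (-1) ^ b * (1 / 3) + k := by rw [hkr]; ring
  have hne := one_add_exp_ne u
  have hpos : (0:ℝ) < 1 + exp (-u) := by positivity
  refine ⟨S / (1 + exp (-u)), by positivity, ?_⟩
  rw [e, ph_add_int]
  unfold ph
  rcases Nat.even_or_odd b with hb | hb
  · rw [hb.neg_one_pow, one_mul, one_mul, h1]
    push_cast; ring
  · rw [hb.neg_one_pow]
    rw [show (-1:ℝ) * (1 / 3) = -(1 / 3) by ring, h2, show (-1:ℝ) * vt (exp (-u)) = -(vt (exp (-u))) by ring]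
    push_cast; ring

/-- the phase of the product over powers of 5 at `1/3` -/
lemma phase {σ : ℝ} (hσ : 0 < σ) (hσ1 : σ ≤ 1 / 25) {B : ℕ} (hB : 1 < 5 ^ B * σ) :
    ∃ R ψ : ℝ, 0 < R ∧ 1 / 200 ≤ ψ ∧ ψ ≤ π / 3 - 1 / 200 ∧
      cc B σ (1 / 3) = (R : ℂ) * Complex.exp ((ψ : ℂ) * Complex.I) := by
  set x : ℕ → ℝ := fun b => vt (exp (-(σ * 5 ^ b))) with hx
  have hρ1 : ∀ b : ℕ, exp (-(σ * 5 ^ b)) ≤ 1 := fun b =>
    Real.exp_le_one_iff.mpr (by have : 0 < σ * 5 ^ b := by positivity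
                                linarith)
  have hx0 : ∀ b, 0 ≤ x b := fun b => vt_nonneg (exp_pos _).le (hρ1 b)
  have hmono : ∀ a b : ℕ, a ≤ b → exp (-(σ * 5 ^ b)) ≤ exp (-(σ * 5 ^ a)) := by
    intro a b h
    apply Real.exp_le_exp.mpr
    have : (5:ℝ) ^ a ≤ 5 ^ b := pow_le_pow_right₀ (by norm_num) h
    nlinarith
  have hanti : Antitone x := by
    intro a b h
    have := vt_diff (exp_pos _).le (hmono a b h) (hρ1 a)
    have h2 := hmono a b h
    simp only [hx]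
    linarith
  -- S_b
  choose S hS hph using fun b : ℕ => polar_ph (σ * 5 ^ b) (by positivity) b
  have hcc : cc B σ (1 / 3) = ((∏ b ∈ Finset.range B, S b : ℝ) : ℂ) *
      Complex.exp (((∑ b ∈ Finset.range B, (-1) ^ b * x b : ℝ) : ℂ) * Complex.I) := by
    unfold cc
    rw [Finset.prod_congr rfl (fun b _ => hph b), Finset.prod_mul_distrib, ← Complex.exp_sum]
    push_cast
    rw [Finset.sum_mul]
  -- location
  have hq : 1 ≤ 1 / (5 * σ) := by rw [le_div_iff₀ (by positivity)]; linarith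
  obtain ⟨n1, hn1, hn2⟩ := exists_nat_pow_near hq (by norm_num : (1:ℝ) < 5)
  rw [le_div_iff₀ (by positivity)] at hn1
  rw [div_lt_iff₀ (by positivity)] at hn2
  have hgap : ∀ b : ℕ, 1 / 25 ≤ σ * 5 ^ b → σ * 5 ^ b ≤ 1 → 1 / 200 ≤ x b - x (b + 1) := by
    intro b h1 h2
    have hd := vt_diff (exp_pos _).le (hmono b (b + 1) (by omega)) (hρ1 b)
    obtain ⟨u, hu⟩ : ∃ u : ℝ, u = σ * 5 ^ b := ⟨_, rfl⟩
    have hu' : σ * 5 ^ (b + 1) = 5 * u := by rw [hu, pow_succ]; ring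
    have g1 : exp (-u) - exp (-(5 * u)) = exp (-u) * (1 - exp (-(4 * u))) := by
      rw [mul_sub, mul_one, ← Real.exp_add]; congr 2; ring
    have g2 : 1 / 3 ≤ exp (-u) := by
      have : exp (-1) ≤ exp (-u) := Real.exp_le_exp.mpr (by rw [hu]; linarith)
      have h3 : 1 / 3 ≤ exp (-1) := by
        rw [Real.exp_neg, ← one_div]
        exact one_div_le_one_div_of_le (exp_pos _) (Real.exp_one_lt_three).le
      linarith
    have g3 : exp (-(4 * u)) ≤ 25 / 29 := by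
      have a1 : exp (-(4 * u)) ≤ exp (-(4 / 25)) := Real.exp_le_exp.mpr (by rw [hu]; linarith)
      have a2 : exp (-(4 / 25)) ≤ 25 / 29 := by
        rw [Real.exp_neg, ← one_div, div_le_div_iff₀ (exp_pos _) (by norm_num)]
        have := Real.add_one_le_exp (4 / 25)
        linarith
      linarith
    have g4 : 1 / 25 ≤ exp (-u) - exp (-(5 * u)) := by
      rw [g1]; nlinarith
    have : x b - x (b + 1) = vt (exp (-(σ * 5 ^ b))) - vt (exp (-(σ * 5 ^ (b + 1)))) := rfl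
    rw [this]
    rw [← hu, hu'] at hd
    rw [← hu, hu']
    linarith
  have hn1B : n1 + 1 < B := by
    have h1 : (5:ℝ) ^ (n1 + 1) * σ < 5 ^ B * σ := by
      rw [pow_succ]; nlinarith
    exact (pow_lt_pow_iff_right₀ (by norm_num : (1:ℝ) < 5)).mp (lt_of_mul_lt_mul_right h1 hσ.le)
  have ga := hgap n1 (by rw [pow_succ] at hn2; linarith) (by linarith)
  have gb := hgap (n1 + 1) (by rw [pow_succ] at hn2 ⊢; linarith) (by rw [pow_succ]; linarith)
  have hx0' : x 0 ≤ π / 3 := vt_le (hρ1 0)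
  refine ⟨∏ b ∈ Finset.range B, S b, ∑ b ∈ Finset.range B, (-1) ^ b * x b,
    Finset.prod_pos (fun b _ => hS b), ?_, ?_, hcc⟩
  · rcases Nat.even_or_odd n1 with h | h
    · exact ga.trans (alt_low hanti hx0 h (by omega))
    · exact gb.trans (alt_low hanti hx0 h.add_one hn1B)
  · rcases Nat.even_or_odd n1 with h | h
    · have := alt_up hanti hx0 h.add_one hn1B
      linarith
    · have := alt_up hanti hx0 h (by omega : n1 < B)
      linarith

/-! ### lower bound for the size -/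

lemma w_ge_cos (u x : ℝ) : |cos (π * x)| ≤ w u x := by
  have h1 := w_sq u x
  have hρ0 : 0 < exp (-u) := exp_pos _
  have h2 : 4 * exp (-u) / (1 + exp (-u)) ^ 2 ≤ 1 := by
    rw [div_le_one (by positivity)]; nlinarith [sq_nonneg (1 - exp (-u))]
  have h3 := Real.sin_sq_add_cos_sq (π * x)
  have h4 : |cos (π * x)| ^ 2 ≤ w u x ^ 2 := by
    rw [h1, sq_abs]
    have := mul_le_mul_of_nonneg_right h2 (sq_nonneg (sin (π * x)))
    linarith
  exact (pow_le_pow_iff_left₀ (abs_nonneg _) (w_nonneg _ _) (by norm_num)).mp h4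

lemma w_third (u : ℝ) (b : ℕ) : 1 / 2 ≤ w u (5 ^ b * (1 / 3)) := by
  refine le_trans ?_ (w_ge_cos _ _)
  rw [abs_cos_pi]
  obtain ⟨k, hk⟩ := five_pow_mod b
  have hkr : (5:ℝ) ^ b = 3 * k + (-1) ^ b := by exact_mod_cast hk
  have hd : dZ (5 ^ b * (1 / 3)) ≤ 1 / 3 := by
    refine (dZ_le _ k).trans ?_
    have e : (5:ℝ) ^ b * (1 / 3) - k = (-1) ^ b * (1 / 3) := by rw [hkr]; ring
    rw [e, abs_mul, abs_pow, abs_neg, abs_one, one_pow, one_mul]
    norm_num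
  rw [← Real.cos_pi_div_three]
  apply cos_le_cos_of_nonneg_of_le_pi
  · exact mul_nonneg pi_pos.le (dZ_nonneg _)
  · linarith [pi_pos]
  · calc π * dZ (5 ^ b * (1 / 3)) ≤ π * (1 / 3) := mul_le_mul_of_nonneg_left hd pi_pos.le
      _ = _ := by ring

lemma w_ge_sub (u x : ℝ) (hu : 0 ≤ u) : 1 - 2 * exp (-u) ≤ w u x := by
  have hρ1 : exp (-u) ≤ 1 := Real.exp_le_one_iff.mpr (by linarith)
  have hρ0 : 0 < exp (-u) := exp_pos _
  unfold w ph
  rw [norm_div, norm_one_add_exp, le_div_iff₀ (by positivity)]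
  have h1 : 1 - exp (-u) ≤ ‖1 + (exp (-u) : ℂ) * ee x‖ := by
    have h := norm_sub_le_norm_add (1:ℂ) ((exp (-u) : ℂ) * ee x)
    rw [norm_mul, norm_ee, mul_one, norm_one, Complex.norm_real, Real.norm_of_nonneg hρ0.le] at h
    exact h
  nlinarith

lemma prod_one_sub_ge (x : ℕ → ℝ) (h0 : ∀ j, 0 ≤ x j) (h1 : ∀ j, x j ≤ 1) (k : ℕ) :
    1 - ∑ j ∈ Finset.range k, x j ≤ ∏ j ∈ Finset.range k, (1 - x j) := by
  induction k with
  | zero => simp
  | succ k ih =>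
    rw [Finset.sum_range_succ, Finset.prod_range_succ]
    have h2 : ∏ j ∈ Finset.range k, (1 - x j) ≤ 1 :=
      Finset.prod_le_one (fun j _ => by linarith [h1 j]) (fun j _ => by linarith [h0 j])
    have := h0 k
    nlinarith

lemma CC_third_lower {σ : ℝ} (hσ : 0 < σ) {n0 B : ℕ} (hn0 : 1 ≤ 5 ^ n0 * σ) (hB : n0 ≤ B) :
    (1 / 2) ^ n0 * (1 / 5) ≤ CC B σ (1 / 3) := by
  obtain ⟨k, rfl⟩ := Nat.exists_eq_add_of_le hB
  unfold CC
  rw [Finset.prod_range_add]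
  have h1 : (1 / 2 : ℝ) ^ n0 ≤ ∏ b ∈ Finset.range n0, w (σ * 5 ^ b) (5 ^ b * (1 / 3)) := by
    calc (1 / 2 : ℝ) ^ n0 = ∏ _b ∈ Finset.range n0, (1 / 2 : ℝ) := by
          rw [Finset.prod_const, Finset.card_range]
      _ ≤ _ := Finset.prod_le_prod (fun _ _ => by norm_num) (fun b _ => w_third _ _)
  have he1 : exp (-1) ≤ 37 / 100 := by have := Real.exp_neg_one_lt_d9; linarith
  have hxb : ∀ j : ℕ, 2 * exp (-(5:ℝ) ^ j) ≤ 74 / 100 * (1 / 50) ^ j := by
    intro j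
    have a1 : 1 + (j:ℝ) * 4 ≤ 5 ^ j := by
      have := one_add_mul_le_pow (by norm_num : (-2:ℝ) ≤ 4) j
      norm_num at this; linarith
    have a2 : exp (-(5:ℝ) ^ j) ≤ exp (-1) * (exp (-1) ^ 4) ^ j := by
      rw [← pow_mul, ← Real.exp_nat_mul, ← Real.exp_add]
      apply Real.exp_le_exp.mpr
      push_cast; linarith
    have a3 : exp (-1) ^ 4 ≤ 1 / 50 := by
      have := pow_le_pow_left₀ (exp_pos _).le he1 4
      refine this.trans (by norm_num)
    have a4 : (exp (-1) ^ 4) ^ j ≤ (1 / 50) ^ j := pow_le_pow_left₀ (by positivity) a3 j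
    have a5 : exp (-1) * (exp (-1) ^ 4) ^ j ≤ 37 / 100 * (1 / 50) ^ j :=
      mul_le_mul he1 a4 (by positivity) (by norm_num)
    linarith
  have h2 : (1 / 5 : ℝ) ≤ ∏ j ∈ Finset.range k, w (σ * 5 ^ (n0 + j)) (5 ^ (n0 + j) * (1 / 3)) := by
    have b1 : ∀ j ∈ Finset.range k, 1 - 2 * exp (-(5:ℝ) ^ j) ≤ w (σ * 5 ^ (n0 + j)) (5 ^ (n0 + j) * (1 / 3)) := by
      intro j _
      refine le_trans ?_ (w_ge_sub _ _ (by positivity))
      have : exp (-(σ * 5 ^ (n0 + j))) ≤ exp (-(5:ℝ) ^ j) := by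
        apply Real.exp_le_exp.mpr
        rw [pow_add]
        have : (0:ℝ) < 5 ^ j := by positivity
        nlinarith
      linarith
    have b0 : ∀ j : ℕ, 2 * exp (-(5:ℝ) ^ j) ≤ 1 := by
      intro j
      refine (hxb j).trans ?_
      have : (1 / 50 : ℝ) ^ j ≤ 1 := pow_le_one₀ (by norm_num) (by norm_num)
      linarith
    have b2 := prod_one_sub_ge (fun j => 2 * exp (-(5:ℝ) ^ j)) (fun j => by positivity) b0 k
    have b3 : ∑ j ∈ Finset.range k, 2 * exp (-(5:ℝ) ^ j) ≤ 76 / 100 := by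
      refine (Finset.sum_le_sum (fun j _ => hxb j)).trans ?_
      have : ∀ k : ℕ, ∑ j ∈ Finset.range k, 74 / 100 * (1 / 50 : ℝ) ^ j = 74 / 98 * (1 - (1 / 50) ^ k) := by
        intro k
        induction k with
        | zero => simp
        | succ k ih => rw [Finset.sum_range_succ, ih, pow_succ]; ring
      rw [this]
      have : (0:ℝ) ≤ (1 / 50) ^ k := by positivity
      linarith
    have b4 := Finset.prod_le_prod (fun j _ => by linarith [b0 j]) b1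
    linarith
  exact mul_le_mul h1 h2 (by norm_num) (Finset.prod_nonneg (fun _ _ => w_nonneg _ _))

/-! ### ratio -/

lemma cc_ratio {σ t : ℝ} (hσ : 0 < σ) (ht : |t| ≤ KK * σ) (B : ℕ) :
    ‖cc B σ (1 / 3 + t) / cc B σ (1 / 3) - 1‖ ≤ 101 * exp 505000 * (|t| / σ) := by
  obtain ⟨z, hz⟩ : ∃ z : ℕ → ℂ, z = fun b => ph (σ * 5 ^ b) (5 ^ b * (1 / 3 + t)) / ph (σ * 5 ^ b) (5 ^ b * (1 / 3)) - 1 :=
    ⟨_, rfl⟩
  have e1 : cc B σ (1 / 3 + t) / cc B σ (1 / 3) = ∏ b ∈ Finset.range B, (1 + z b) := by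
    unfold cc
    rw [← Finset.prod_div_distrib]
    apply Finset.prod_congr rfl
    intro b _
    rw [hz]; ring
  rw [e1]
  have h1 := Finset.norm_prod_one_add_sub_one_le (Finset.range B) z
  have hx0 : 0 ≤ |t| / σ := by positivity
  have hzb : ∀ b ∈ Finset.range B, ‖z b‖ ≤ (101 / 8) * (|t| / σ) * ((σ * 5 ^ b) * exp (-(σ * 5 ^ b))) := by
    intro b _
    have hw := w_third (σ * 5 ^ b) b
    have hne : ph (σ * 5 ^ b) (5 ^ b * (1 / 3)) ≠ 0 := by
      intro h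
      unfold w at hw
      rw [h, norm_zero] at hw; norm_num at hw
    obtain ⟨ρ, hρ⟩ : ∃ ρ : ℝ, ρ = exp (-(σ * 5 ^ b)) := ⟨_, rfl⟩
    have hρ0 : 0 < ρ := by rw [hρ]; exact exp_pos _
    have e2 : z b = (ph (σ * 5 ^ b) (5 ^ b * (1 / 3 + t)) - ph (σ * 5 ^ b) (5 ^ b * (1 / 3))) /
        ph (σ * 5 ^ b) (5 ^ b * (1 / 3)) := by
      rw [hz, sub_div, div_self hne]
    have e3 : ph (σ * 5 ^ b) (5 ^ b * (1 / 3 + t)) - ph (σ * 5 ^ b) (5 ^ b * (1 / 3)) =
        (ρ : ℂ) * ee (5 ^ b * (1 / 3)) * (ee (5 ^ b * t) - 1) / (1 + (ρ : ℂ)) := by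
      unfold ph
      rw [← hρ, mul_add, ee_add]; ring
    have n1 : ‖(1 + (ρ : ℂ))‖ = 1 + ρ := by rw [hρ]; exact norm_one_add_exp _
    have n2 : ‖ee (5 ^ b * t) - 1‖ ≤ 2 * π * 5 ^ b * |t| := by
      have := Real.norm_exp_I_mul_ofReal_sub_one_le (x := 2 * π * (5 ^ b * t))
      unfold ee
      rw [mul_comm] at this
      refine this.trans_eq ?_
      rw [Real.norm_eq_abs, show 2 * π * (5 ^ b * t) = (2 * π * 5 ^ b) * t by ring, abs_mul,
        abs_of_pos (by positivity)]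
    have n3 : ‖ph (σ * 5 ^ b) (5 ^ b * (1 / 3 + t)) - ph (σ * 5 ^ b) (5 ^ b * (1 / 3))‖ ≤
        ρ * (2 * π * 5 ^ b * |t|) := by
      rw [e3, norm_div, norm_mul, norm_mul, norm_ee, mul_one, n1, Complex.norm_real,
        Real.norm_of_nonneg hρ0.le]
      refine (div_le_self (by positivity) (by linarith)).trans ?_
      exact mul_le_mul_of_nonneg_left n2 hρ0.le
    rw [e2, norm_div]
    have n4 : 1 / 2 ≤ ‖ph (σ * 5 ^ b) (5 ^ b * (1 / 3))‖ := hw
    have hπ : π ≤ 3.15 := by have := pi_lt_d2; linarith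
    calc _ ≤ (ρ * (2 * π * 5 ^ b * |t|)) / (1 / 2) := by
          apply div_le_div₀ (by positivity) n3 (by norm_num) n4
      _ = 4 * π * (|t| / σ) * ((σ * 5 ^ b) * ρ) := by field_simp; ring
      _ ≤ (101 / 8) * (|t| / σ) * ((σ * 5 ^ b) * ρ) := by
          have : 4 * π ≤ 101 / 8 := by linarith
          gcongr
      _ = _ := by rw [hρ]
  have h2 : ∑ b ∈ Finset.range B, ‖z b‖ ≤ 101 * (|t| / σ) := by
    refine (Finset.sum_le_sum hzb).trans ?_
    rw [← Finset.mul_sum]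
    have := sum1 hσ B
    calc _ ≤ (101 / 8) * (|t| / σ) * 8 := mul_le_mul_of_nonneg_left this (by positivity)
      _ = _ := by ring
  obtain ⟨X, hX⟩ : ∃ X : ℝ, X = 101 * (|t| / σ) := ⟨_, rfl⟩
  have hX0 : 0 ≤ X := by rw [hX]; positivity
  have hX1 : X ≤ 505000 := by
    have : |t| / σ ≤ 5000 := by rw [div_le_iff₀ hσ]; exact ht
    rw [hX]; linarith
  have h3 : exp (∑ b ∈ Finset.range B, ‖z b‖) - 1 ≤ exp X - 1 := by
    have := Real.exp_le_exp.mpr (h2.trans_eq hX.symm); linarith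
  have h4 : exp X - 1 ≤ X * exp X := by
    have a1 := Real.add_one_le_exp (-X)
    have a2 : exp X * exp (-X) = 1 := by rw [← Real.exp_add]; simp
    have a3 := exp_pos X
    nlinarith
  have h5 : X * exp X ≤ X * exp 505000 :=
    mul_le_mul_of_nonneg_left (Real.exp_le_exp.mpr hX1) hX0
  calc _ ≤ exp (∑ b ∈ Finset.range B, ‖z b‖) - 1 := h1
    _ ≤ X * exp 505000 := by linarith
    _ = _ := by rw [hX]; ring

end R398.DS
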