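import Pool.Agent.R398.DS.LobeQ
import Pool.Agent.R398.DS.Phase
import Pool.Agent.R398.DS.Count

namespace R398.DS

open Real MeasureTheory

lemma three_split {E : Type*} [NormedAddCommGroup E] [NormedSpace ℝ E] (f : ℝ → E)
    (hf : ∀ x, f (x + 1) = f x) (hi : ∀ a b, IntervalIntegrable f volume a b) :
    ∫ θ in (0:ℝ)..1, f θ = (∫ t in (-(1 / 6) : ℝ)..(1 / 6), f (t + 0)) +
      (∫ t in (-(1 / 6) : ℝ)..(1 / 6), f (t + 1 / 3)) +
      (∫ t in (-(1 / 6) : ℝ)..(1 / 6), f (t + 2 / 3)) := by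
  have hp : Function.Periodic f 1 := hf
  have h1 := hp.intervalIntegral_add_eq 0 (-(1 / 6))
  rw [zero_add] at h1
  rw [h1, intervalIntegral.integral_comp_add_right, intervalIntegral.integral_comp_add_right,
    intervalIntegral.integral_comp_add_right]
  have e1 : (-(1 / 6) : ℝ) + 0 = -(1 / 6) := by ring
  have e2 : (1 / 6 : ℝ) + 0 = 1 / 6 := by ring
  have e3 : (-(1 / 6) : ℝ) + 1 / 3 = 1 / 6 := by ring
  have e4 : (1 / 6 : ℝ) + 1 / 3 = 1 / 2 := by ring
  have e5 : (-(1 / 6) : ℝ) + 2 / 3 = 1 / 2 := by ring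
  have e6 : (1 / 6 : ℝ) + 2 / 3 = -(1 / 6) + 1 := by ring
  rw [e1, e2, e3, e4, e5, e6]
  rw [intervalIntegral.integral_add_adjacent_intervals (hi _ _) (hi _ _),
    intervalIntegral.integral_add_adjacent_intervals (hi _ _) (hi _ _)]

/-- the integrand -/
noncomputable def gg (B A : ℕ) (σ : ℝ) (n : ℕ) (θ : ℝ) : ℂ :=
  Psi B A σ θ * ee (-(n * θ)) * (1 - (exp σ : ℂ) * ee (-θ))

lemma gg_per (B A : ℕ) (σ : ℝ) (n : ℕ) (θ : ℝ) : gg B A σ n (θ + 1) = gg B A σ n θ := by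
  unfold gg
  have h1 : Psi B A σ (θ + 1) = Psi B A σ θ := by
    have := Psi_add_int B A σ θ 1
    push_cast at this; exact this
  have h2 : ee (-(n * (θ + 1))) = ee (-(n * θ)) := by
    have := ee_add_int (-(n * θ)) (-(n : ℤ))
    rw [← this]; congr 1; push_cast; ring
  have h3 : ee (-(θ + 1)) = ee (-θ) := by
    have := ee_add_int (-θ) (-1)
    rw [← this]; congr 1; push_cast; ring
  rw [h1, h2, h3]

lemma continuous_gg (B A : ℕ) (σ : ℝ) (n : ℕ) : Continuous (gg B A σ n) := by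
  unfold gg
  exact ((continuous_Psi _ _ _).mul (continuous_ee.comp (by fun_prop))).mul
    (continuous_const.sub (continuous_const.mul (continuous_ee.comp (by fun_prop))))

lemma ph_neg (u x : ℝ) : ph u (-x) = (starRingEnd ℂ) (ph u x) := by
  unfold ph
  rw [ee_neg]
  simp only [map_div₀, map_add, map_mul, map_one, Complex.conj_ofReal]

lemma Psi_neg (B A : ℕ) (σ θ : ℝ) : Psi B A σ (-θ) = (starRingEnd ℂ) (Psi B A σ θ) := by
  unfold Psi cc
  rw [map_prod]
  apply Finset.prod_congr rfl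
  intro a _
  rw [map_prod]
  apply Finset.prod_congr rfl
  intro b _
  rw [← ph_neg]; congr 1; ring

lemma gg_neg (B A : ℕ) (σ : ℝ) (n : ℕ) (θ : ℝ) : gg B A σ n (-θ) = (starRingEnd ℂ) (gg B A σ n θ) := by
  unfold gg
  simp only [map_mul, map_sub, map_one, Complex.conj_ofReal]
  rw [Psi_neg, ← ee_neg, ← ee_neg]
  congr 3
  ring

lemma sub_ee_bound {σ t : ℝ} (hσ : 0 ≤ σ) (hσ1 : σ ≤ 1) :
    ‖1 - (exp σ : ℂ) * ee (-t)‖ ≤ 2 * σ + 19 * |t| := by
  have e : 1 - (exp σ : ℂ) * ee (-t) = ((1 - exp σ : ℝ) : ℂ) - (exp σ : ℂ) * (ee (-t) - 1) := by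
    push_cast; ring
  rw [e]
  refine (norm_sub_le _ _).trans ?_
  have h1 : ‖((1 - exp σ : ℝ) : ℂ)‖ ≤ 2 * σ := by
    rw [Complex.norm_real, Real.norm_eq_abs, abs_sub_comm]
    have := Real.abs_exp_sub_one_le (x := σ) (by rw [abs_of_nonneg hσ]; exact hσ1)
    rwa [abs_of_nonneg hσ] at this
  have h2 : ‖ee (-t) - 1‖ ≤ 2 * π * |t| := by
    have := Real.norm_exp_I_mul_ofReal_sub_one_le (x := 2 * π * (-t))
    unfold ee
    rw [mul_comm] at this
    refine this.trans_eq ?_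
    rw [Real.norm_eq_abs, show 2 * π * (-t) = -((2 * π) * t) by ring, abs_neg, abs_mul,
      abs_of_pos (by positivity : 0 < 2 * π)]
  have h3 : exp σ ≤ 3 := by
    have : exp σ ≤ exp 1 := Real.exp_le_exp.mpr hσ1
    have := Real.exp_one_lt_three
    linarith
  have hπ : π ≤ 3.15 := by have := pi_lt_d2; linarith
  have hE : ‖(exp σ : ℂ)‖ = exp σ := by
    rw [Complex.norm_real, Real.norm_of_nonneg (exp_pos _).le]
  rw [norm_mul, hE]
  have h4 : exp σ * ‖ee (-t) - 1‖ ≤ 3 * (2 * π * |t|) := mul_le_mul h3 h2 (norm_nonneg _) (by norm_num)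
  have h5 : 0 ≤ |t| := abs_nonneg t
  have h6 : 3 * (2 * π * |t|) ≤ 19 * |t| := by nlinarith
  linarith

lemma norm_gg_le {B A : ℕ} {σ : ℝ} {n : ℕ} {θ : ℝ} (hσ : 0 ≤ σ) (hσ1 : σ ≤ 1) :
    ‖gg B A σ n θ‖ ≤ 4 * WW B A σ θ := by
  unfold gg
  rw [norm_mul, norm_mul, norm_ee, mul_one, norm_Psi]
  have h1 : ‖1 - (exp σ : ℂ) * ee (-θ)‖ ≤ 4 := by
    refine (norm_sub_le _ _).trans ?_
    rw [norm_one, norm_mul, norm_ee, mul_one, Complex.norm_real, Real.norm_of_nonneg (exp_pos _).le]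
    have : exp σ ≤ exp 1 := Real.exp_le_exp.mpr hσ1
    have := Real.exp_one_lt_three
    linarith
  have := WW_nonneg B A σ θ
  nlinarith [mul_le_mul_of_nonneg_left h1 this]

lemma outer_bound {B A : ℕ} {σ : ℝ} {n : ℕ} {c : ℝ} (hc : ∃ k : ℤ, 3 * c = k) (hσ : 0 < σ) (hσ1 : σ ≤ 1)
    (hK : KK * σ ≤ 1 / 6) :
    ‖(∫ t in (-(1 / 6) : ℝ)..(1 / 6), gg B A σ n (t + c)) -
      ∫ t in (-(KK * σ))..(KK * σ), gg B A σ n (t + c)‖ ≤
      4 * ∫ t in (-(1 / 6) : ℝ)..(1 / 6), RR B A σ (t + c) := by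
  obtain ⟨k, hk⟩ := hc
  have hKσ : 0 < KK * σ := by unfold KK; positivity
  obtain ⟨T, hT⟩ : ∃ T : ℝ, T = KK * σ := ⟨_, rfl⟩
  have h3T : 3 * KK * σ = 3 * T := by rw [hT]; ring
  rw [← hT] at hKσ hK ⊢
  have hgc : Continuous (fun t => gg B A σ n (t + c)) := (continuous_gg B A σ n).comp (by fun_prop)
  have hgi : ∀ a b, IntervalIntegrable (fun t => gg B A σ n (t + c)) volume a b :=
    fun a b => hgc.intervalIntegrable a b
  have hRm : Measurable (fun t => RR B A σ (t + c)) := (measurable_RR B A σ).comp (measurable_id.add_const _)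
  have hRi : ∀ a b, IntervalIntegrable (fun t => RR B A σ (t + c)) volume a b :=
    fun a b => intInt_of_bdd hRm 1 (fun t => RR_abs _ _ _ _) a b
  have e1 : ∫ t in (-(1 / 6) : ℝ)..(1 / 6), gg B A σ n (t + c) =
      (∫ t in (-(1 / 6) : ℝ)..(-T), gg B A σ n (t + c)) + (∫ t in (-T)..T, gg B A σ n (t + c)) +
      ∫ t in T..(1 / 6), gg B A σ n (t + c) := by
    rw [intervalIntegral.integral_add_adjacent_intervals (hgi _ _) (hgi _ _),
      intervalIntegral.integral_add_adjacent_intervals (hgi _ _) (hgi _ _)]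
  have e2 : ∫ t in (-(1 / 6) : ℝ)..(1 / 6), RR B A σ (t + c) =
      (∫ t in (-(1 / 6) : ℝ)..(-T), RR B A σ (t + c)) + (∫ t in (-T)..T, RR B A σ (t + c)) +
      ∫ t in T..(1 / 6), RR B A σ (t + c) := by
    rw [intervalIntegral.integral_add_adjacent_intervals (hRi _ _) (hRi _ _),
      intervalIntegral.integral_add_adjacent_intervals (hRi _ _) (hRi _ _)]
  have hpt : ∀ t, T ≤ |t| → |t| ≤ 1 / 6 → ‖gg B A σ n (t + c)‖ ≤ 4 * RR B A σ (t + c) := by
    intro t h1 h2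
    have hR : RR B A σ (t + c) = WW B A σ (t + c) := by
      unfold RR
      rw [if_pos]
      have : dZ (3 * (t + c)) = 3 * |t| := by
        have e : 3 * (t + c) = 3 * t + k := by rw [mul_add, hk]
        rw [e, dZ_add_int, dZ_eq_abs (by rw [abs_mul, abs_of_pos (by norm_num : (0:ℝ) < 3)]; linarith),
          abs_mul, abs_of_pos (by norm_num : (0:ℝ) < 3)]
      rw [this, h3T]; linarith
    rw [hR]
    exact norm_gg_le hσ.le hσ1
  have t1 : ‖∫ t in (-(1 / 6) : ℝ)..(-T), gg B A σ n (t + c)‖ ≤ ∫ t in (-(1 / 6) : ℝ)..(-T), 4 * RR B A σ (t + c) := by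
    apply intervalIntegral.norm_integral_le_of_norm_le (by linarith)
    · refine Filter.Eventually.of_forall (fun t ht => ?_)
      have ht0 : |t| = -t := abs_of_nonpos (by linarith [ht.2])
      exact hpt t (by rw [ht0]; linarith [ht.2]) (by rw [ht0]; linarith [ht.1])
    · exact (hRi _ _).const_mul 4
  have t2 : ‖∫ t in T..(1 / 6), gg B A σ n (t + c)‖ ≤ ∫ t in T..(1 / 6), 4 * RR B A σ (t + c) := by
    apply intervalIntegral.norm_integral_le_of_norm_le (by linarith)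
    · refine Filter.Eventually.of_forall (fun t ht => ?_)
      have ht0 : |t| = t := abs_of_nonneg (by linarith [ht.1])
      exact hpt t (by rw [ht0]; linarith [ht.1]) (by rw [ht0]; linarith [ht.2])
    · exact (hRi _ _).const_mul 4
  rw [intervalIntegral.integral_const_mul] at t1 t2
  have t3 : 0 ≤ ∫ t in (-T)..T, RR B A σ (t + c) :=
    intervalIntegral.integral_nonneg (by linarith) (fun t _ => RR_nonneg _ _ _ _)
  rw [e1, e2]
  have e3 : (∫ t in (-(1 / 6) : ℝ)..(-T), gg B A σ n (t + c)) + (∫ t in (-T)..T, gg B A σ n (t + c)) +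
      (∫ t in T..(1 / 6), gg B A σ n (t + c)) - (∫ t in (-T)..T, gg B A σ n (t + c)) =
      (∫ t in (-(1 / 6) : ℝ)..(-T), gg B A σ n (t + c)) + ∫ t in T..(1 / 6), gg B A σ n (t + c) := by ring
  rw [e3]
  refine (norm_add_le _ _).trans ?_
  linarith

/-- The real part of the integral around `2/3` equals that around `1/3`. -/
lemma re_sym {B A : ℕ} {σ : ℝ} {n : ℕ} (T : ℝ) :
    (∫ t in (-T)..T, gg B A σ n (t + 2 / 3)).re = (∫ t in (-T)..T, gg B A σ n (t + 1 / 3)).re := by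
  have hgi : ∀ c a b, IntervalIntegrable (fun t => gg B A σ n (t + c)) volume a b :=
    fun c a b => ((continuous_gg B A σ n).comp (by fun_prop)).intervalIntegrable a b
  have h1 := (Complex.reCLM).intervalIntegral_comp_comm (hgi (2 / 3) (-T) T)
  have h2 := (Complex.reCLM).intervalIntegral_comp_comm (hgi (1 / 3) (-T) T)
  simp only [Complex.reCLM_apply] at h1 h2
  rw [← h1, ← h2]
  have h3 : ∀ t, (gg B A σ n (t + 2 / 3)).re = (fun x => (gg B A σ n (x + 1 / 3)).re) (-t) := by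
    intro t
    have e1 : gg B A σ n (t + 2 / 3) = gg B A σ n (t - 1 / 3) := by
      rw [← gg_per B A σ n (t - 1 / 3)]; congr 1; ring
    have e2 : gg B A σ n (t - 1 / 3) = (starRingEnd ℂ) (gg B A σ n (-t + 1 / 3)) := by
      rw [← gg_neg]; congr 1; ring
    simp only
    rw [e1, e2, Complex.conj_re]
  simp only [h3]
  rw [intervalIntegral.integral_comp_neg (fun x => (gg B A σ n (x + 1 / 3)).re), neg_neg]

/-! ### phases -/

noncomputable def w0 : ℂ := 1 - ee (-(1 / 3))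

lemma ee_third_re : (ee (1 / 3)).re = -1 / 2 := by
  rw [ee_re, show 2 * π * (1 / 3) = π - π / 3 by ring, cos_pi_sub, cos_pi_div_three]; norm_num
lemma ee_third_im : (ee (1 / 3)).im = √3 / 2 := by
  rw [ee_im, show 2 * π * (1 / 3) = π - π / 3 by ring, sin_pi_sub, sin_pi_div_three]

lemma w0_re : w0.re = 3 / 2 := by
  unfold w0; rw [Complex.sub_re, ee_neg, Complex.conj_re, ee_third_re, Complex.one_re]; ring
lemma w0_im : w0.im = √3 / 2 := by
  unfold w0; rw [Complex.sub_im, ee_neg, Complex.conj_im, ee_third_im, Complex.one_im]; ring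

lemma w0_norm_le : ‖w0‖ ≤ 2 := by
  unfold w0
  refine (norm_sub_le _ _).trans ?_
  rw [norm_one, norm_ee]; norm_num

lemma w0_norm_ge : 1 ≤ ‖w0‖ := by
  have := Complex.abs_re_le_norm w0
  rw [w0_re, abs_of_pos (by norm_num)] at this
  linarith

lemma ee_neg_mod (k r : ℕ) : ee (-(((3 * k + r : ℕ) : ℝ) * (1 / 3))) = ee (-((r:ℝ) * (1 / 3))) := by
  have := ee_add_int (-((r:ℝ) * (1 / 3))) (-(k:ℤ))
  rw [← this]; congr 1; push_cast; ring

lemma phase_re {R ψ : ℝ} (hR : 0 < R) (h1 : 1 / 200 ≤ ψ) (h2 : ψ ≤ π / 3 - 1 / 200) (k : ℕ) :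
    R / 400 ≤ ((R : ℂ) * Complex.exp ((ψ : ℂ) * Complex.I) * w0 * ee (-(((3 * k + 0 : ℕ) : ℝ) * (1 / 3)))).re ∧
    R / 400 ≤ ((R : ℂ) * Complex.exp ((ψ : ℂ) * Complex.I) * w0 * ee (-(((3 * k + 1 : ℕ) : ℝ) * (1 / 3)))).re ∧
    ((R : ℂ) * Complex.exp ((ψ : ℂ) * Complex.I) * w0 * ee (-(((3 * k + 2 : ℕ) : ℝ) * (1 / 3)))).re ≤ -(R / 400) := by
  have hs3 : √3 * √3 = 3 := Real.mul_self_sqrt (by norm_num)
  have hs0 : 0 < √3 := by positivity
  have hs1 : 1 ≤ √3 := by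
    rw [Real.le_sqrt (by norm_num) (by norm_num)]; norm_num
  have hπ := pi_gt_three
  have hπ2 : π ≤ 3.15 := by have := pi_lt_d2; linarith
  have hsmall : ∀ x : ℝ, 1 / 200 ≤ x → x ≤ π / 3 → 1 / 400 ≤ sin x := by
    intro x hx1 hx2
    have := mul_le_sin (x := x) (by linarith) (by linarith)
    refine le_trans ?_ this
    have h3 : 1 / 2 ≤ 2 / π := by
      rw [div_le_div_iff₀ (by norm_num) pi_pos]; linarith
    nlinarith
  have hsin := hsmall ψ h1 (by linarith)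
  have hsin2 := hsmall (π / 3 - ψ) (by linarith) (by linarith)
  have hcos : 1 / 2 ≤ cos ψ := by
    rw [← Real.cos_pi_div_three]
    exact cos_le_cos_of_nonneg_of_le_pi (by linarith) (by linarith) (by linarith)
  have key : ∀ r : ℕ, ((R : ℂ) * Complex.exp ((ψ : ℂ) * Complex.I) * w0 * ee (-(((3 * k + r : ℕ) : ℝ) * (1 / 3)))).re =
      R * (cos ψ * (w0 * ee (-((r:ℝ) * (1 / 3)))).re - sin ψ * (w0 * ee (-((r:ℝ) * (1 / 3)))).im) := by
    intro r
    rw [ee_neg_mod, mul_assoc, mul_assoc, Complex.re_ofReal_mul, Complex.mul_re,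
      Complex.exp_ofReal_mul_I_re, Complex.exp_ofReal_mul_I_im]
  refine ⟨?_, ?_, ?_⟩
  · rw [key 0]
    have e : w0 * ee (-(((0:ℕ):ℝ) * (1 / 3))) = w0 := by
      simp [ee_zero]
    rw [e, w0_re, w0_im]
    have e2 : cos ψ * (3 / 2) - sin ψ * (√3 / 2) = √3 * sin (π / 3 - ψ) := by
      rw [sin_sub, sin_pi_div_three, cos_pi_div_three]
      linear_combination (-(cos ψ) / 2) * hs3
    rw [e2]
    have : 1 / 400 ≤ √3 * sin (π / 3 - ψ) := by nlinarith
    nlinarith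
  · rw [key 1]
    have r1 : (w0 * ee (-(((1:ℕ):ℝ) * (1 / 3)))).re = 0 := by
      rw [Nat.cast_one, one_mul, Complex.mul_re, w0_re, w0_im, ee_neg, Complex.conj_re, Complex.conj_im,
        ee_third_re, ee_third_im]
      linear_combination (1 / 4) * hs3
    have r2 : (w0 * ee (-(((1:ℕ):ℝ) * (1 / 3)))).im = -√3 := by
      rw [Nat.cast_one, one_mul, Complex.mul_im, w0_re, w0_im, ee_neg, Complex.conj_re, Complex.conj_im,
        ee_third_re, ee_third_im]
      ring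
    rw [r1, r2]
    have : 1 / 400 ≤ √3 * sin ψ := by nlinarith
    nlinarith
  · rw [key 2]
    have e : ee (-(((2:ℕ):ℝ) * (1 / 3))) = ee (1 / 3) := by
      have := ee_add_int (-(((2:ℕ):ℝ) * (1 / 3))) 1
      rw [← this]; congr 1; push_cast; ring
    have r1 : (w0 * ee (-(((2:ℕ):ℝ) * (1 / 3)))).re = -(3 / 2) := by
      rw [e, Complex.mul_re, w0_re, w0_im, ee_third_re, ee_third_im]
      linear_combination (-(1 / 4)) * hs3
    have r2 : (w0 * ee (-(((2:ℕ):ℝ) * (1 / 3)))).im = √3 / 2 := by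
      rw [e, Complex.mul_im, w0_re, w0_im, ee_third_re, ee_third_im]
      ring
    rw [r1, r2]
    have : 0 ≤ sin ψ * (√3 / 2) := mul_nonneg (by linarith) (by positivity)
    nlinarith

/-! ### the saddle point -/

lemma continuous_pp : Continuous pp := by
  unfold pp
  apply Continuous.div (by fun_prop) (by fun_prop)
  intro u; positivity

lemma continuous_nu (B A : ℕ) : Continuous (nu B A) := by
  unfold nu
  refine continuous_finsetSum _ (fun a _ => continuous_finsetSum _ (fun b _ => ?_))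
  exact continuous_const.mul (continuous_pp.comp (by fun_prop))

lemma nu_ge {B A a : ℕ} (ha : a < A) (hB : 0 < B) (σ : ℝ) : 3 ^ a * pp (σ * 3 ^ a) ≤ nu B A σ := by
  unfold nu
  have h1 : ∑ b ∈ Finset.range B, (3 ^ a * 5 ^ b : ℝ) * pp (σ * 3 ^ a * 5 ^ b) ≤
      ∑ a ∈ Finset.range A, ∑ b ∈ Finset.range B, (3 ^ a * 5 ^ b) * pp (σ * 3 ^ a * 5 ^ b) :=
    Finset.single_le_sum (f := fun a => ∑ b ∈ Finset.range B, (3 ^ a * 5 ^ b : ℝ) * pp (σ * 3 ^ a * 5 ^ b))
      (fun a _ => Finset.sum_nonneg (fun b _ => mul_nonneg (by positivity) (pp_nonneg _)))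
      (Finset.mem_range.mpr ha)
  have h2 := Finset.single_le_sum (f := fun b : ℕ => (3 ^ a * 5 ^ b : ℝ) * pp (σ * 3 ^ a * 5 ^ b))
      (s := Finset.range B)
      (fun b _ => mul_nonneg (by positivity) (pp_nonneg _)) (Finset.mem_range.mpr hB)
  simp only [pow_zero, mul_one] at h2
  exact h2.trans h1

lemma pp_lower {u : ℝ} (hu : u ≤ 1) : 1 / 4 ≤ pp u := by
  have h : 1 / 3 ≤ exp (-u) := by
    have h1 : exp (-1) ≤ exp (-u) := Real.exp_le_exp.mpr (by linarith)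
    have h3 : 1 / 3 ≤ exp (-1) := by
      rw [Real.exp_neg, ← one_div]
      exact one_div_le_one_div_of_le (exp_pos _) (Real.exp_one_lt_three).le
    linarith
  unfold pp
  rw [div_le_div_iff₀ (by norm_num) (by positivity)]
  linarith

lemma exists_sigma {s1 : ℝ} (hs1 : 0 < s1) : ∃ N : ℕ, ∀ n : ℕ, N ≤ n → ∃ s : ℝ, 0 < s ∧ s < s1 ∧
    1 < 3 ^ n * s ∧ nu (2 * n + 10) (2 * n + 10) s = n * (1 / 3) := by
  obtain ⟨l1, hl1⟩ := pow_unbounded_of_one_lt (1 / s1) (by norm_num : (1:ℝ) < 5)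
  have hl1' : 1 < 5 ^ (l1 + 1) * s1 := by
    rw [div_lt_iff₀ hs1] at hl1
    rw [pow_succ]; nlinarith
  obtain ⟨C1, hC1⟩ : ∃ C1 : ℝ, C1 = 2 * (4 * (l1 + 1) + 5) / s1 := ⟨_, rfl⟩
  refine ⟨max (l1 + 1) (⌈3 * C1⌉₊ + 1), ?_⟩
  intro n hn
  have hn1 : l1 + 1 ≤ n := le_trans (le_max_left _ _) hn
  have hn2 : 3 * C1 < n := by
    have h1 : 3 * C1 ≤ ⌈3 * C1⌉₊ := Nat.le_ceil _
    have h2 : ⌈3 * C1⌉₊ + 1 ≤ n := le_trans (le_max_right _ _) hn
    have h3 : ((⌈3 * C1⌉₊ + 1 : ℕ) : ℝ) ≤ n := by exact_mod_cast h2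
    push_cast at h3
    linarith
  have hbern : 1 + (n:ℝ) * 2 ≤ 3 ^ n := by
    have := one_add_mul_le_pow (by norm_num : (-2:ℝ) ≤ 2) n
    norm_num at this; linarith
  have hn0 : (0:ℝ) ≤ n := by positivity
  -- value at s1
  have hv1 : nu (2 * n + 10) (2 * n + 10) s1 < n * (1 / 3) := by
    have h := sum2 (A := 2 * n + 10) (B := 2 * n + 10) hs1 hl1' (by omega) 0
    norm_num [Nat.factorial] at h
    have h2 : s1 * nu (2 * n + 10) (2 * n + 10) s1 ≤ 2 * (4 * (l1 + 1) + 5) := by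
      refine le_trans ?_ h
      unfold nu
      rw [Finset.mul_sum]
      apply Finset.sum_le_sum
      intro a _
      rw [Finset.mul_sum]
      apply Finset.sum_le_sum
      intro b _
      have := pp_le_exp (s1 * 3 ^ a * 5 ^ b)
      calc s1 * (3 ^ a * 5 ^ b * pp (s1 * 3 ^ a * 5 ^ b)) = (s1 * 3 ^ a * 5 ^ b) * pp (s1 * 3 ^ a * 5 ^ b) := by ring
        _ ≤ _ := mul_le_mul_of_nonneg_left this (by positivity)
    have h3 : nu (2 * n + 10) (2 * n + 10) s1 ≤ C1 := by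
      rw [hC1, le_div_iff₀ hs1]; linarith
    linarith
  -- value at 0
  have hv0 : n * (1 / 3) < nu (2 * n + 10) (2 * n + 10) 0 := by
    have h := nu_ge (a := n) (A := 2 * n + 10) (B := 2 * n + 10) (by omega) (by omega) 0
    have h2 : 1 / 4 ≤ pp (0 * 3 ^ n) := pp_lower (by rw [zero_mul]; norm_num)
    have h3 : (3:ℝ) ^ n * (1 / 4) ≤ 3 ^ n * pp (0 * 3 ^ n) := mul_le_mul_of_nonneg_left h2 (by positivity)
    linarith
  have hivt := intermediate_value_Icc' hs1.le ((continuous_nu (2 * n + 10) (2 * n + 10)).continuousOn (s := Set.Icc 0 s1))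
  obtain ⟨s, hs, hse⟩ := hivt ⟨hv1.le, hv0.le⟩
  have hs0 : 0 < s := by
    rcases hs.1.lt_or_eq with h | h
    · exact h
    · exfalso; rw [← h] at hse; linarith
  have hs1' : s < s1 := by
    rcases hs.2.lt_or_eq with h | h
    · exact h
    · exfalso; rw [h] at hse; linarith
  refine ⟨s, hs0, hs1', ?_, hse⟩
  by_contra hc
  push Not at hc
  have h := nu_ge (a := n) (A := 2 * n + 10) (B := 2 * n + 10) (by omega) (by omega) s
  have h2 : 1 / 4 ≤ pp (s * 3 ^ n) := pp_lower (by linarith)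
  have h3 : (3:ℝ) ^ n * (1 / 4) ≤ 3 ^ n * pp (s * 3 ^ n) := mul_le_mul_of_nonneg_left h2 (by positivity)
  linarith

end R398.DS
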