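import Mathlib

namespace R398.DS

open Real

/-- `e(x) = exp(2 π i x)`. -/
noncomputable def ee (x : ℝ) : ℂ := Complex.exp (((2 * π * x : ℝ) : ℂ) * Complex.I)

/-- distance to the nearest integer -/
noncomputable def dZ (x : ℝ) : ℝ := |x - round x|

/-- the normalised factor -/
noncomputable def ph (u x : ℝ) : ℂ := (1 + (Real.exp (-u) : ℂ) * ee x) / (1 + (Real.exp (-u) : ℂ))

/-- its norm -/
noncomputable def w (u x : ℝ) : ℝ := ‖ph u x‖

lemma norm_ee (x : ℝ) : ‖ee x‖ = 1 := by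
  unfold ee; exact Complex.norm_exp_ofReal_mul_I _

lemma ee_add (x y : ℝ) : ee (x + y) = ee x * ee y := by
  unfold ee
  rw [← Complex.exp_add]; congr 1; push_cast; ring

lemma ee_zero : ee 0 = 1 := by unfold ee; simp

lemma ee_int (k : ℤ) : ee k = 1 := by
  unfold ee
  rw [Complex.exp_eq_one_iff]
  exact ⟨k, by push_cast; ring⟩

lemma ee_add_int (x : ℝ) (k : ℤ) : ee (x + k) = ee x := by
  rw [ee_add, ee_int, mul_one]

lemma ee_neg (x : ℝ) : ee (-x) = (starRingEnd ℂ) (ee x) := by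
  unfold ee
  rw [← Complex.exp_conj]
  congr 1
  rw [map_mul, Complex.conj_ofReal, Complex.conj_I]
  push_cast; ring

lemma ee_re (x : ℝ) : (ee x).re = Real.cos (2 * π * x) := by
  unfold ee; rw [Complex.exp_ofReal_mul_I_re]

lemma ee_im (x : ℝ) : (ee x).im = Real.sin (2 * π * x) := by
  unfold ee; rw [Complex.exp_ofReal_mul_I_im]

lemma ee_nat_mul (k : ℕ) (x : ℝ) : ee (k * x) = ee x ^ k := by
  unfold ee
  rw [← Complex.exp_nat_mul]
  congr 1
  push_cast; ring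

lemma continuous_ee : Continuous ee := by
  unfold ee
  fun_prop

lemma one_add_exp_ne (u : ℝ) : (1 + (Real.exp (-u) : ℂ)) ≠ 0 := by
  have : (0:ℝ) < 1 + Real.exp (-u) := by positivity
  have h : ((1 + Real.exp (-u) : ℝ) : ℂ) ≠ 0 := by exact_mod_cast this.ne'
  simpa using h

lemma norm_one_add_exp (u : ℝ) : ‖(1 + (Real.exp (-u) : ℂ))‖ = 1 + Real.exp (-u) := by
  have : (0:ℝ) ≤ 1 + Real.exp (-u) := by positivity
  have h : (1 + (Real.exp (-u) : ℂ)) = ((1 + Real.exp (-u) : ℝ) : ℂ) := by push_cast; ring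
  rw [h, Complex.norm_real, Real.norm_of_nonneg this]

lemma w_nonneg (u x : ℝ) : 0 ≤ w u x := norm_nonneg _

lemma w_le_one (u x : ℝ) : w u x ≤ 1 := by
  unfold w ph
  rw [norm_div, norm_one_add_exp, div_le_one (by positivity)]
  calc ‖1 + (Real.exp (-u) : ℂ) * ee x‖ ≤ ‖(1:ℂ)‖ + ‖(Real.exp (-u) : ℂ) * ee x‖ := norm_add_le _ _
    _ = 1 + Real.exp (-u) := by
      rw [norm_mul, norm_ee, mul_one, norm_one, Complex.norm_real, Real.norm_of_nonneg (by positivity)]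

lemma w_sq (u x : ℝ) : w u x ^ 2 =
    1 - 4 * Real.exp (-u) / (1 + Real.exp (-u)) ^ 2 * Real.sin (π * x) ^ 2 := by
  unfold w ph
  rw [norm_div, norm_one_add_exp, div_pow]
  have h1 : ‖1 + (Real.exp (-u) : ℂ) * ee x‖ ^ 2 =
      (1 + Real.exp (-u)) ^ 2 - 4 * Real.exp (-u) * Real.sin (π * x) ^ 2 := by
    rw [Complex.sq_norm, Complex.normSq_apply]
    have e1 : (1 + (Real.exp (-u) : ℂ) * ee x).re = 1 + Real.exp (-u) * Real.cos (2 * π * x) := by
      rw [Complex.add_re, Complex.one_re, Complex.re_ofReal_mul, ee_re]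
    have e2 : (1 + (Real.exp (-u) : ℂ) * ee x).im = Real.exp (-u) * Real.sin (2 * π * x) := by
      rw [Complex.add_im, Complex.one_im, Complex.im_ofReal_mul, ee_im, zero_add]
    rw [e1, e2]
    have h2 : 2 * π * x = 2 * (π * x) := by ring
    rw [h2, Real.cos_two_mul, Real.sin_two_mul]
    have h3 := Real.sin_sq_add_cos_sq (π * x)
    have h4 : Real.cos (π * x) ^ 2 = 1 - Real.sin (π * x) ^ 2 := by linarith
    have h5 : (1 + rexp (-u) * (2 * cos (π * x) ^ 2 - 1)) * (1 + rexp (-u) * (2 * cos (π * x) ^ 2 - 1)) +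
      rexp (-u) * (2 * sin (π * x) * cos (π * x)) * (rexp (-u) * (2 * sin (π * x) * cos (π * x))) =
      (1 + rexp (-u) * (2 * cos (π * x) ^ 2 - 1)) ^ 2 + 4 * rexp (-u) ^ 2 * sin (π * x) ^ 2 * cos (π * x) ^ 2 := by
      ring
    rw [h5, h4]; ring
  rw [h1]
  have h6 : (1 + Real.exp (-u)) ≠ 0 := by positivity
  field_simp

lemma w_le_cos_add {u : ℝ} (hu : 0 ≤ u) (x : ℝ) : w u x ≤ |Real.cos (π * x)| + u := by
  have h1 := w_sq u x
  set ρ := Real.exp (-u) with hρ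
  have hρ0 : 0 < ρ := Real.exp_pos _
  have hρ1 : 1 - u ≤ ρ := by
    have := Real.add_one_le_exp (-u); linarith
  have hρ2 : ρ ≤ 1 := by rw [hρ]; exact Real.exp_le_one_iff.mpr (by linarith)
  have h3 := Real.sin_sq_add_cos_sq (π * x)
  have h4 : w u x ^ 2 = Real.cos (π * x) ^ 2 + Real.sin (π * x) ^ 2 * ((1 - ρ) / (1 + ρ)) ^ 2 := by
    rw [h1]
    have h6 : (1 + ρ) ≠ 0 := by positivity
    have h7 : Real.cos (π * x) ^ 2 = 1 - Real.sin (π * x) ^ 2 := by linarith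
    rw [h7]; field_simp; ring
  have h5 : ((1 - ρ) / (1 + ρ)) ^ 2 ≤ u ^ 2 := by
    have h8 : (1 - ρ) / (1 + ρ) ≤ u := by
      rw [div_le_iff₀ (by positivity)]; nlinarith
    have h9 : 0 ≤ (1 - ρ) / (1 + ρ) := div_nonneg (by linarith) (by positivity)
    exact pow_le_pow_left₀ h9 h8 2
  have h6 : Real.sin (π * x) ^ 2 ≤ 1 := Real.sin_sq_le_one _
  have h7 : w u x ^ 2 ≤ (|Real.cos (π * x)| + u) ^ 2 := by
    rw [h4]
    have : Real.cos (π * x) ^ 2 = |Real.cos (π * x)| ^ 2 := (sq_abs _).symm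
    rw [this]
    have h10 : 0 ≤ |Real.cos (π * x)| := abs_nonneg _
    have h11 : Real.sin (π * x) ^ 2 * ((1 - ρ) / (1 + ρ)) ^ 2 ≤ 1 * u ^ 2 :=
      mul_le_mul h6 h5 (by positivity) (by norm_num)
    nlinarith [mul_nonneg h10 hu]
  exact (pow_le_pow_iff_left₀ (w_nonneg _ _) (by positivity) (by norm_num)).mp h7

lemma w_le_exp (u x : ℝ) (hu : 0 ≤ u) : w u x ≤ Real.exp (-(Real.exp (-u) * Real.sin (π * x) ^ 2 / 2)) := by
  have h1 := w_sq u x
  set ρ := Real.exp (-u) with hρ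
  have hρ0 : 0 < ρ := Real.exp_pos _
  have hρ2 : ρ ≤ 1 := by rw [hρ]; exact Real.exp_le_one_iff.mpr (by linarith)
  have h2 : ρ ≤ 4 * ρ / (1 + ρ) ^ 2 := by
    rw [le_div_iff₀ (by positivity)]
    have : (1 + ρ) ^ 2 ≤ 4 := by nlinarith
    nlinarith
  have h3 : w u x ^ 2 ≤ 1 - ρ * Real.sin (π * x) ^ 2 := by
    rw [h1]
    have := mul_le_mul_of_nonneg_right h2 (sq_nonneg (Real.sin (π * x)))
    linarith
  have h4 : w u x ^ 2 ≤ (Real.exp (-(ρ * Real.sin (π * x) ^ 2 / 2))) ^ 2 := by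
    rw [← Real.exp_nat_mul]
    have := Real.add_one_le_exp (-(ρ * Real.sin (π * x) ^ 2))
    have e : (2:ℕ) * (-(ρ * Real.sin (π * x) ^ 2 / 2)) = -(ρ * Real.sin (π * x) ^ 2) := by
      push_cast; ring
    rw [e]; linarith
  exact (pow_le_pow_iff_left₀ (w_nonneg _ _) (by positivity) (by norm_num)).mp h4

lemma ph_add_int (u x : ℝ) (k : ℤ) : ph u (x + k) = ph u x := by
  unfold ph; rw [ee_add_int]

lemma w_add_int (u x : ℝ) (k : ℤ) : w u (x + k) = w u x := by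
  unfold w; rw [ph_add_int]

lemma continuous_ph (u : ℝ) : Continuous (ph u) := by
  unfold ph
  exact (continuous_const.add (continuous_const.mul continuous_ee)).div_const _

lemma continuous_w (u : ℝ) : Continuous (w u) := (continuous_ph u).norm

/-! ### the products -/

/-- product over powers of 5 -/
noncomputable def cc (B : ℕ) (σ θ : ℝ) : ℂ := ∏ b ∈ Finset.range B, ph (σ * 5 ^ b) (5 ^ b * θ)

noncomputable def CC (B : ℕ) (σ θ : ℝ) : ℝ := ∏ b ∈ Finset.range B, w (σ * 5 ^ b) (5 ^ b * θ)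

/-- the whole product -/
noncomputable def Psi (B A : ℕ) (σ θ : ℝ) : ℂ := ∏ a ∈ Finset.range A, cc B (σ * 3 ^ a) (3 ^ a * θ)

noncomputable def WW (B A : ℕ) (σ θ : ℝ) : ℝ := ∏ a ∈ Finset.range A, CC B (σ * 3 ^ a) (3 ^ a * θ)

lemma norm_cc (B : ℕ) (σ θ : ℝ) : ‖cc B σ θ‖ = CC B σ θ := by
  unfold cc CC w; rw [norm_prod]

lemma norm_Psi (B A : ℕ) (σ θ : ℝ) : ‖Psi B A σ θ‖ = WW B A σ θ := by
  unfold Psi WW; rw [norm_prod]; exact Finset.prod_congr rfl (fun a _ => norm_cc _ _ _)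

lemma CC_nonneg (B : ℕ) (σ θ : ℝ) : 0 ≤ CC B σ θ := Finset.prod_nonneg (fun _ _ => w_nonneg _ _)
lemma CC_le_one (B : ℕ) (σ θ : ℝ) : CC B σ θ ≤ 1 :=
  Finset.prod_le_one (fun _ _ => w_nonneg _ _) (fun _ _ => w_le_one _ _)
lemma WW_nonneg (B A : ℕ) (σ θ : ℝ) : 0 ≤ WW B A σ θ := Finset.prod_nonneg (fun _ _ => CC_nonneg _ _ _)
lemma WW_le_one (B A : ℕ) (σ θ : ℝ) : WW B A σ θ ≤ 1 :=
  Finset.prod_le_one (fun _ _ => CC_nonneg _ _ _) (fun _ _ => CC_le_one _ _ _)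

lemma continuous_cc (B : ℕ) (σ : ℝ) : Continuous (cc B σ) := by
  unfold cc
  exact continuous_finsetProd _ (fun b _ => (continuous_ph _).comp (by fun_prop))
lemma continuous_Psi (B A : ℕ) (σ : ℝ) : Continuous (Psi B A σ) := by
  unfold Psi
  exact continuous_finsetProd _ (fun b _ => (continuous_cc _ _).comp (by fun_prop))
lemma continuous_CC (B : ℕ) (σ : ℝ) : Continuous (CC B σ) := by
  have : CC B σ = fun θ => ‖cc B σ θ‖ := by ext θ; rw [norm_cc]
  rw [this]; exact (continuous_cc B σ).norm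
lemma continuous_WW (B A : ℕ) (σ : ℝ) : Continuous (WW B A σ) := by
  have : WW B A σ = fun θ => ‖Psi B A σ θ‖ := by ext θ; rw [norm_Psi]
  rw [this]; exact (continuous_Psi B A σ).norm

lemma cc_add_int (B : ℕ) (σ θ : ℝ) (k : ℤ) : cc B σ (θ + k) = cc B σ θ := by
  unfold cc
  refine Finset.prod_congr rfl (fun b _ => ?_)
  have : (5:ℝ) ^ b * (θ + k) = 5 ^ b * θ + ((5 ^ b * k : ℤ) : ℝ) := by push_cast; ring
  rw [this, ph_add_int]

lemma Psi_add_int (B A : ℕ) (σ θ : ℝ) (k : ℤ) : Psi B A σ (θ + k) = Psi B A σ θ := by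
  unfold Psi
  refine Finset.prod_congr rfl (fun b _ => ?_)
  have : (3:ℝ) ^ b * (θ + k) = 3 ^ b * θ + ((3 ^ b * k : ℤ) : ℝ) := by push_cast; ring
  rw [this, cc_add_int]

lemma CC_add_int (B : ℕ) (σ θ : ℝ) (k : ℤ) : CC B σ (θ + k) = CC B σ θ := by
  rw [← norm_cc, ← norm_cc, cc_add_int]

lemma WW_add_int (B A : ℕ) (σ θ : ℝ) (k : ℤ) : WW B A σ (θ + k) = WW B A σ θ := by
  rw [← norm_Psi, ← norm_Psi, Psi_add_int]

lemma Psi_succ (B A : ℕ) (σ θ : ℝ) : Psi B (A + 1) σ θ = cc B σ θ * Psi B A (3 * σ) (3 * θ) := by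
  unfold Psi
  rw [Finset.prod_range_succ']
  rw [mul_comm]
  congr 1
  · simp
  · refine Finset.prod_congr rfl (fun a _ => ?_)
    congr 1 <;> ring

lemma WW_succ (B A : ℕ) (σ θ : ℝ) : WW B (A + 1) σ θ = CC B σ θ * WW B A (3 * σ) (3 * θ) := by
  rw [← norm_Psi, Psi_succ, norm_mul, norm_cc, norm_Psi]

/-! ### dZ -/

lemma dZ_nonneg (x : ℝ) : 0 ≤ dZ x := abs_nonneg _
lemma dZ_le_half (x : ℝ) : dZ x ≤ 1 / 2 := abs_sub_round x
lemma dZ_le (x : ℝ) (k : ℤ) : dZ x ≤ |x - k| := round_le x k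
lemma dZ_add_int (x : ℝ) (k : ℤ) : dZ (x + k) = dZ x := by
  unfold dZ; rw [round_add_intCast]; congr 1; push_cast; ring

lemma dZ_eq_abs {x : ℝ} (hx : |x| ≤ 1 / 2) : dZ x = |x| := by
  unfold dZ
  apply le_antisymm
  · have := round_le x 0; simpa using this
  · -- |x| ≤ |x - round x|
    by_cases h : round x = 0
    · rw [h]; simp
    · have h1 : (1:ℝ) ≤ |(round x : ℝ)| := by
        have : (1:ℤ) ≤ |round x| := Int.one_le_abs h
        exact_mod_cast this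
      have h2 : |(round x : ℝ)| ≤ |x - round x| + |x| := by
        have := abs_sub_le (round x : ℝ) x 0
        simp only [sub_zero] at this
        rw [abs_sub_comm] at this; linarith
      linarith

lemma dZ_mul_nat_le (n : ℕ) (x : ℝ) : dZ (n * x) ≤ n * dZ x := by
  have := dZ_le (n * x) (n * round x)
  refine this.trans_eq ?_
  unfold dZ
  push_cast
  rw [← mul_sub, abs_mul, abs_of_nonneg (Nat.cast_nonneg n)]

lemma dZ_eq_of_abs_sub_int {x : ℝ} {k : ℤ} (h : |x - k| ≤ 1 / 2) : dZ x = |x - k| := by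
  have h1 : dZ x = dZ (x - k) := by
    have := dZ_add_int (x - k) k
    rw [sub_add_cancel] at this; exact this
  rw [h1, dZ_eq_abs h]

lemma dZ_five_mul {x : ℝ} (h : dZ x < 1 / 10) : dZ (5 * x) = 5 * dZ x := by
  have h1 : |5 * x - ((5 * round x : ℤ) : ℝ)| = 5 * dZ x := by
    unfold dZ; push_cast; rw [← mul_sub, abs_mul]; norm_num
  rw [dZ_eq_of_abs_sub_int (k := 5 * round x), h1]
  rw [h1]; linarith

lemma measurable_dZ : Measurable dZ := by
  unfold dZ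
  have : (fun x : ℝ => |x - (round x : ℝ)|) = fun x : ℝ => |x - ((⌊x + 1 / 2⌋ : ℤ) : ℝ)| := by
    ext x; rw [round_eq]
  rw [this]
  have h : Measurable fun x : ℝ => ((⌊x + 1 / 2⌋ : ℤ) : ℝ) :=
    (measurable_from_top (f := fun n : ℤ => (n : ℝ))).comp ((measurable_id.add_const _).floor)
  exact (measurable_id.sub h).abs

end R398.DS
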