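import Pool.Agent.R398.DS.Assemble

namespace R398.DS

open Real MeasureTheory

/-- the slowly varying factor -/
noncomputable def hh (B : ℕ) (σ t : ℝ) : ℂ :=
  (cc B σ (1 / 3 + t / 3) / cc B σ (1 / 3)) * ((1 - (exp σ : ℂ) * ee (-(t / 3)) * ee (-(1 / 3))) / w0)

lemma continuous_hh (B : ℕ) (σ : ℝ) : Continuous (hh B σ) := by
  unfold hh
  exact (((continuous_cc B σ).comp (by fun_prop)).div_const _).mul
    ((continuous_const.sub ((continuous_const.mul (continuous_ee.comp (by fun_prop))).mul continuous_const)).div_const _)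

lemma w0_ne : w0 ≠ 0 := by
  intro h
  have := w0_norm_ge
  rw [h, norm_zero] at this
  norm_num at this

lemma L1_eq {B A n : ℕ} {σ s : ℝ} (hs : s = 3 * σ) (hc0 : cc B σ (1 / 3) ≠ 0) :
    ∫ t in (-(KK * σ))..(KK * σ), gg B (A + 1) σ n (t + 1 / 3) =
      (cc B σ (1 / 3) * w0 * ee (-(n * (1 / 3)))) * ((1 / 3 : ℝ) *
        ∫ t in (-(KK * s))..(KK * s), hh B σ t * (Psi B A s t * ee (-(n * (1 / 3) * t)))) := by
  have hpt : ∀ t : ℝ, gg B (A + 1) σ n (t + 1 / 3) = (cc B σ (1 / 3) * w0 * ee (-(n * (1 / 3)))) *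
      (fun t => hh B σ t * (Psi B A s t * ee (-(n * (1 / 3) * t)))) (3 * t) := by
    intro t
    unfold gg hh
    simp only
    have e1 : Psi B (A + 1) σ (t + 1 / 3) = cc B σ (1 / 3 + 3 * t / 3) * Psi B A s (3 * t) := by
      rw [Psi_succ, ← hs]
      have a1 : t + 1 / 3 = 1 / 3 + 3 * t / 3 := by ring
      have a2 : Psi B A s (3 * (t + 1 / 3)) = Psi B A s (3 * t) := by
        have := Psi_add_int B A s (3 * t) 1
        rw [← this]; congr 1; push_cast; ring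
      rw [a2, ← a1]
    have e2 : ee (-(n * (t + 1 / 3))) = ee (-(n * (1 / 3) * (3 * t))) * ee (-(n * (1 / 3))) := by
      rw [← ee_add]; congr 1; ring
    have e3 : ee (-(t + 1 / 3)) = ee (-(3 * t / 3)) * ee (-(1 / 3)) := by
      rw [← ee_add]; congr 1; ring
    rw [e1, e2, e3]
    have hw := w0_ne
    field_simp
  simp only [hpt]
  rw [intervalIntegral.integral_const_mul]
  congr 1
  rw [intervalIntegral.integral_comp_mul_left (fun t => hh B σ t * (Psi B A s t * ee (-(n * (1 / 3) * t))))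
    (by norm_num : (3:ℝ) ≠ 0)]
  rw [show 3 * -(KK * σ) = -(KK * s) by rw [hs]; ring, show 3 * (KK * σ) = KK * s by rw [hs]; ring]
  rw [Complex.real_smul]
  norm_num

noncomputable def HH : ℝ := 100001 * (101 * exp 505000) + 19

lemma hh_bound {B : ℕ} {σ s t : ℝ} (hs : s = 3 * σ) (hσ : 0 < σ) (hσ1 : σ ≤ 1) (ht : |t| ≤ KK * s) :
    ‖hh B σ t - 1‖ ≤ HH * (|t| / s + s) := by
  have hs0 : 0 < s := by rw [hs]; positivity
  have ht3 : |t / 3| ≤ KK * σ := by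
    rw [abs_div, abs_of_pos (by norm_num : (0:ℝ) < 3)]
    rw [hs] at ht; linarith
  have hx : |t / 3| / σ = |t| / s := by
    rw [abs_div, abs_of_pos (by norm_num : (0:ℝ) < 3), hs]; field_simp
  obtain ⟨x, hxd⟩ : ∃ x : ℝ, x = |t| / s := ⟨_, rfl⟩
  have hx0 : 0 ≤ x := by rw [hxd]; positivity
  have hX := cc_ratio (B := B) hσ ht3
  rw [hx, ← hxd] at hX
  obtain ⟨X, hXd⟩ : ∃ X : ℂ, X = cc B σ (1 / 3 + t / 3) / cc B σ (1 / 3) := ⟨_, rfl⟩
  obtain ⟨Y, hYd⟩ : ∃ Y : ℂ, Y = (1 - (exp σ : ℂ) * ee (-(t / 3)) * ee (-(1 / 3))) / w0 := ⟨_, rfl⟩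
  rw [← hXd] at hX
  have hY1 : Y - 1 = ee (-(1 / 3)) * (1 - (exp σ : ℂ) * ee (-(t / 3))) / w0 := by
    have hw := w0_ne
    rw [hYd, div_sub_one hw]
    congr 1
    unfold w0; ring
  have hY : ‖Y - 1‖ ≤ 2 * σ + 19 * |t / 3| := by
    rw [hY1, norm_div, norm_mul, norm_ee, one_mul]
    have h1 := sub_ee_bound (t := t / 3) hσ.le hσ1
    have h2 := w0_norm_ge
    calc _ ≤ ‖1 - (exp σ : ℂ) * ee (-(t / 3))‖ / 1 :=
          div_le_div_of_nonneg_left (norm_nonneg _) (by norm_num) h2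
      _ ≤ _ := by rw [div_one]; exact h1
  have hK : KK = 5000 := rfl
  have hYb : ‖Y - 1‖ ≤ 100000 := by
    rw [hK] at ht3
    have : |t / 3| ≤ 5000 := by nlinarith
    nlinarith
  have hYn : ‖Y‖ ≤ 100001 := by
    have := norm_add_le (Y - 1) 1
    simp only [sub_add_cancel, norm_one] at this
    linarith
  have hY2 : ‖Y - 1‖ ≤ 2 * s + 19 * x := by
    have h1 : |t / 3| ≤ x := by
      rw [hxd, ← hx, le_div_iff₀ hσ]
      have := abs_nonneg (t / 3)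
      nlinarith
    rw [hs]; linarith
  have e : hh B σ t - 1 = (X - 1) * Y + (Y - 1) := by
    unfold hh; rw [← hXd, ← hYd]; ring
  rw [e, ← hxd]
  refine (norm_add_le _ _).trans ?_
  rw [norm_mul]
  have h3 : ‖X - 1‖ * ‖Y‖ ≤ (101 * exp 505000 * x) * 100001 :=
    mul_le_mul hX hYn (norm_nonneg _) (by positivity)
  unfold HH
  have h4 : 0 < exp 505000 := exp_pos _
  have h5 : 0 ≤ 100001 * (101 * exp 505000) * s := by positivity
  have h6 : (100001 * (101 * exp 505000) + 19) * (x + s) =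
      (101 * exp 505000 * x) * 100001 + 19 * x + 100001 * (101 * exp 505000) * s + 19 * s := by ring
  rw [h6]
  linarith

/-- the key estimate -/
lemma key_estimate : ∃ c C : ℝ, 0 < c ∧ 0 < C ∧ ∃ l0 : ℕ, ∀ l : ℕ, l0 ≤ l → ∀ n : ℕ, ∀ s : ℝ, 0 < s →
    5 ^ l * s ≤ 1 → 1 < 5 ^ (l + 1) * s → 1 < 3 ^ n * s →
    nu (2 * n + 10) (2 * n + 10) s = n * (1 / 3) →
    ∃ P : ℂ, ∃ E M : ℝ, |(((sumCount 3 5 n : ℝ) - sumCount 3 5 (n + 1)) * E) - (2 / 3) * P.re * M| ≤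
        (c / 1600) * ‖P‖ * (s / √l) + C * s * (499 / 1000) ^ l ∧ 0 < E ∧ c * (s / √l) ≤ M ∧
      ∃ R ψ : ℝ, 0 < R ∧ (1 / 2) ^ (l + 2) * (1 / 5) ≤ R ∧ 1 / 200 ≤ ψ ∧ ψ ≤ π / 3 - 1 / 200 ∧
        P = (R : ℂ) * Complex.exp ((ψ : ℂ) * Complex.I) * w0 * ee (-(n * (1 / 3))) := by
  obtain ⟨CJ, hCJ0, hCJ⟩ := JJ_bound
  have hHH : 0 ≤ HH := by unfold HH; positivity
  obtain ⟨c, hc⟩ : ∃ c : ℝ, c = exp (-2000) := ⟨_, rfl⟩
  have hc0 : 0 < c := by rw [hc]; exact exp_pos _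
  obtain ⟨lq, hlq⟩ := lobe_Q HH (c / 1600) hHH (by positivity)
  refine ⟨c, 1000000000 + 4 * CJ, hc0, by positivity, max lq 10, ?_⟩
  intro l hl n s hs hs1 hs2 hs3 hnu
  have hl1 : lq ≤ l := le_trans (le_max_left _ _) hl
  have hl10 : 10 ≤ l := le_trans (le_max_right _ _) hl
  obtain ⟨σ, hσd⟩ : ∃ σ : ℝ, σ = s / 3 := ⟨_, rfl⟩
  have hsσ : s = 3 * σ := by rw [hσd]; ring
  have hσ0 : 0 < σ := by rw [hσd]; positivity
  -- sizes
  have h5l : (5:ℝ) ^ 10 ≤ 5 ^ l := pow_le_pow_right₀ (by norm_num) hl10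
  have hssmall : s ≤ 1 / 9765625 := by
    rw [le_div_iff₀ (by norm_num)]
    have : (5:ℝ) ^ 10 * s ≤ 5 ^ l * s := mul_le_mul_of_nonneg_right h5l hs.le
    norm_num at this
    linarith
  have hσ1 : σ ≤ 1 := by linarith
  have hσ25 : σ ≤ 1 / 25 := by linarith
  have hK6 : KK * σ ≤ 1 / 6 := by unfold KK; linarith
  have hln : l < n := by
    have h1 : (5:ℝ) ^ l * s < 5 ^ n * s := by
      have : (3:ℝ) ^ n ≤ 5 ^ n := pow_le_pow_left₀ (by norm_num) (by norm_num) n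
      nlinarith
    exact (pow_lt_pow_iff_right₀ (by norm_num : (1:ℝ) < 5)).mp (lt_of_mul_lt_mul_right h1 hs.le)
  obtain ⟨B, hBd⟩ : ∃ B : ℕ, B = 2 * n + 10 := ⟨_, rfl⟩
  rw [← hBd] at hnu
  have h3B : (3:ℝ) ^ n ≤ 3 ^ B := pow_le_pow_right₀ (by norm_num) (by omega)
  have h1A : 1 ≤ 3 ^ B * s := by nlinarith
  have h5B : 3 < 5 ^ B * s := by
    have h1 : (5:ℝ) ^ (n + 1) ≤ 5 ^ B := pow_le_pow_right₀ (by norm_num) (by omega)
    have h2 : (3:ℝ) ^ n ≤ 5 ^ n := pow_le_pow_left₀ (by norm_num) (by norm_num) n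
    rw [pow_succ] at h1
    nlinarith
  have h5Bσ : 1 < 5 ^ B * σ := by rw [hsσ] at h5B; linarith
  -- JJ bound
  have hJJ : JJ B (B + 1) σ ≤ CJ * σ ^ (1 + gam) := by
    apply hCJ B (n + 1) (B + 1) σ hσ0 (by omega)
    · have h1 : sig0 ≤ 1 := by
        unfold sig0 dl
        rw [div_le_one (by positivity)]
        have h : (1:ℝ) ≤ 5 ^ 2000 := one_le_pow₀ (by norm_num)
        exact (by norm_num : (1 / 2000 : ℝ) ≤ 1).trans h
      have h2 : (3:ℝ) ^ n ≤ 9 ^ n := pow_le_pow_left₀ (by norm_num) (by norm_num) n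
      have h3 : 1 ≤ 9 ^ (n + 1) * σ := by
        rw [pow_succ]
        have : (3:ℝ) ^ n * s ≤ 9 ^ n * s := mul_le_mul_of_nonneg_right h2 hs.le
        rw [hsσ] at this hs3
        nlinarith
      linarith
    · have : dl ≤ 1 := by unfold dl; norm_num
      linarith
  have hJJ2 : JJ B (B + 1) σ ≤ CJ * (s * (499 / 1000) ^ l) := by
    refine hJJ.trans (mul_le_mul_of_nonneg_left ?_ hCJ0.le)
    have h1 : σ ^ (1 + gam) ≤ s ^ (1 + gam) :=
      Real.rpow_le_rpow hσ0.le (by rw [hsσ]; linarith) (by have := gam_pos; linarith)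
    have h2 : s ^ (1 + gam) = s * s ^ gam := by rw [Real.rpow_add hs, Real.rpow_one]
    have h3 : s ^ gam ≤ (499 / 1000) ^ l := by
      have h4 : s ≤ (1 / 5) ^ l := by
        rw [one_div, inv_pow, ← one_div, le_div_iff₀ (by positivity)]; linarith
      have h5 : s ^ gam ≤ ((1 / 5 : ℝ) ^ l) ^ gam := Real.rpow_le_rpow hs.le h4 gam_pos.le
      have e2 : ((1 / 5 : ℝ) ^ l) ^ gam = ((1 / 5 : ℝ) ^ gam) ^ l := by
        rw [← Real.rpow_natCast, ← Real.rpow_natCast, ← Real.rpow_mul (by norm_num),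
          ← Real.rpow_mul (by norm_num), mul_comm]
      have e3 : (1 / 5 : ℝ) ^ gam = 499 / 1000 := by
        rw [one_div, Real.inv_rpow (by norm_num), five_gam]; norm_num
      rw [e2, e3] at h5
      exact h5
    rw [h2] at h1
    exact h1.trans (mul_le_mul_of_nonneg_left h3 hs.le)
  -- phase
  obtain ⟨R, ψ, hR, hψ1, hψ2, hcc⟩ := phase hσ0 hσ25 h5Bσ
  have hRn : CC B σ (1 / 3) = R := by
    rw [← norm_cc, hcc, norm_mul, Complex.norm_exp_ofReal_mul_I, mul_one, Complex.norm_real,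
      Real.norm_of_nonneg hR.le]
  have hRlow : (1 / 2) ^ (l + 2) * (1 / 5) ≤ R := by
    rw [← hRn]
    apply CC_third_lower hσ0
    · have : (5:ℝ) ^ (l + 2) * σ = 5 * (5 ^ (l + 1) * s) / 3 := by rw [hsσ]; ring
      rw [this]; linarith
    · omega
  have hcne : cc B σ (1 / 3) ≠ 0 := by
    intro h
    have h1 := norm_cc B σ (1 / 3)
    rw [h, norm_zero, hRn] at h1
    linarith
  -- lobe
  obtain ⟨M, hM1, hM2⟩ := hlq l hl1 s hs hs1 hs2 B B (by omega) h1A (hh B σ) (continuous_hh B σ)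
    (fun t ht => hh_bound hsσ hσ0 hσ1 ht)
  rw [hnu] at hM2
  obtain ⟨Q, hQ⟩ : ∃ Q : ℂ, Q = ∫ t in (-(KK * s))..(KK * s), hh B σ t * (Psi B B s t * ee (-(n * (1 / 3) * t))) :=
    ⟨_, rfl⟩
  rw [← hQ] at hM2
  obtain ⟨P, hP⟩ : ∃ P : ℂ, P = cc B σ (1 / 3) * w0 * ee (-(n * (1 / 3))) := ⟨_, rfl⟩
  have hL1 := L1_eq (A := B) (n := n) hsσ hcne
  rw [← hP, ← hQ] at hL1
  -- the total
  obtain ⟨E, hE⟩ : ∃ E : ℝ, E = exp (-(σ * n)) / F0 B (B + 1) σ := ⟨_, rfl⟩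
  have hE0 : 0 < E := by rw [hE]; exact div_pos (exp_pos _) (F0_pos _ _ _)
  have hD := fourier_diff (n := n) (A := B + 1) (B := B) (by omega) (by omega) σ
  rw [← hE] at hD
  have hgi : ∀ a b, IntervalIntegrable (gg B (B + 1) σ n) volume a b :=
    fun a b => (continuous_gg _ _ _ _).intervalIntegrable a b
  have hRi : ∀ a b, IntervalIntegrable (RR B (B + 1) σ) volume a b :=
    fun a b => intInt_of_bdd (measurable_RR _ _ _) 1 (RR_abs _ _ _) a b
  have hsp := three_split (gg B (B + 1) σ n) (gg_per _ _ _ _) hgi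
  have hsr := three_split (RR B (B + 1) σ) (RR_per _ _ _) hRi
  have o0 := outer_bound (B := B) (A := B + 1) (n := n) (c := 0) ⟨0, by norm_num⟩ hσ0 hσ1 hK6
  have o1 := outer_bound (B := B) (A := B + 1) (n := n) (c := 1 / 3) ⟨1, by norm_num⟩ hσ0 hσ1 hK6
  have o2 := outer_bound (B := B) (A := B + 1) (n := n) (c := 2 / 3) ⟨2, by norm_num⟩ hσ0 hσ1 hK6
  obtain ⟨I0, hI0⟩ : ∃ I : ℂ, I = ∫ t in (-(1 / 6) : ℝ)..(1 / 6), gg B (B + 1) σ n (t + 0) := ⟨_, rfl⟩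
  obtain ⟨I1, hI1⟩ : ∃ I : ℂ, I = ∫ t in (-(1 / 6) : ℝ)..(1 / 6), gg B (B + 1) σ n (t + 1 / 3) := ⟨_, rfl⟩
  obtain ⟨I2, hI2⟩ : ∃ I : ℂ, I = ∫ t in (-(1 / 6) : ℝ)..(1 / 6), gg B (B + 1) σ n (t + 2 / 3) := ⟨_, rfl⟩
  obtain ⟨L0, hL0⟩ : ∃ I : ℂ, I = ∫ t in (-(KK * σ))..(KK * σ), gg B (B + 1) σ n (t + 0) := ⟨_, rfl⟩
  obtain ⟨L1, hL1d⟩ : ∃ I : ℂ, I = ∫ t in (-(KK * σ))..(KK * σ), gg B (B + 1) σ n (t + 1 / 3) := ⟨_, rfl⟩
  obtain ⟨L2, hL2⟩ : ∃ I : ℂ, I = ∫ t in (-(KK * σ))..(KK * σ), gg B (B + 1) σ n (t + 2 / 3) := ⟨_, rfl⟩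
  have hsym := re_sym (B := B) (A := B + 1) (σ := σ) (n := n) (KK * σ)
  rw [← hL2, ← hL1d] at hsym
  rw [← hI0, ← hL0] at o0
  rw [← hI1, ← hL1d] at o1
  rw [← hI2, ← hL2] at o2
  rw [← hI0, ← hI1, ← hI2] at hsp
  rw [← hL1d] at hL1
  have hJdef : JJ B (B + 1) σ = ∫ θ in (0:ℝ)..1, RR B (B + 1) σ θ := rfl
  rw [← hJdef] at hsr
  obtain ⟨Xr, hXr⟩ : ∃ X : ℝ, X = ((sumCount 3 5 n : ℝ) - sumCount 3 5 (n + 1)) * E := ⟨_, rfl⟩
  rw [← hXr] at hD
  have hD2 : ((Xr : ℝ) : ℂ) = I0 + I1 + I2 := by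
    rw [← hD, ← hsp]; rfl
  have hre : Xr = I0.re + I1.re + I2.re := by
    have := congrArg Complex.re hD2
    simpa using this
  have r0 := (Complex.abs_re_le_norm (I0 - L0)).trans o0
  have r1 := (Complex.abs_re_le_norm (I1 - L1)).trans o1
  have r2 := (Complex.abs_re_le_norm (I2 - L2)).trans o2
  rw [Complex.sub_re, abs_le] at r0 r1 r2
  -- L0
  have hL0n : ‖L0‖ ≤ 1000000000 * σ ^ 2 := by
    have hKσ : 0 < KK * σ := by unfold KK; positivity
    have := intervalIntegral.norm_integral_le_of_norm_le_const (a := -(KK * σ)) (b := KK * σ)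
      (C := 100000 * σ) (f := fun t => gg B (B + 1) σ n (t + 0))
      (fun t ht => by
        rw [Set.uIoc_of_le (by linarith)] at ht
        have ht' : |t| ≤ KK * σ := abs_le.mpr ⟨by linarith [ht.1], ht.2⟩
        simp only [add_zero]
        unfold gg
        rw [norm_mul, norm_mul, norm_ee, mul_one, norm_Psi]
        have h1 := sub_ee_bound (t := t) hσ0.le hσ1
        have h2 : 2 * σ + 19 * |t| ≤ 100000 * σ := by unfold KK at ht'; linarith
        calc WW B (B + 1) σ t * ‖1 - (exp σ : ℂ) * ee (-t)‖ ≤ 1 * (100000 * σ) :=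
              mul_le_mul (WW_le_one _ _ _ _) (h1.trans h2) (norm_nonneg _) (by norm_num)
          _ = _ := one_mul _)
    rw [← hL0] at this
    refine this.trans_eq ?_
    rw [abs_of_nonneg (by linarith)]
    unfold KK; ring
  have hL0r := (Complex.abs_re_le_norm L0).trans hL0n
  rw [abs_le] at hL0r
  -- L1
  have hL1r : L1.re = (1 / 3) * (P * Q).re := by
    rw [hL1, show P * (((1 / 3 : ℝ) : ℂ) * Q) = ((1 / 3 : ℝ) : ℂ) * (P * Q) by ring, Complex.re_ofReal_mul]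
  have hPQ : |(P * Q).re - P.re * M| ≤ ‖P‖ * ((c / 1600) * (s / √l)) := by
    have e : (P * Q).re - P.re * M = (P * (Q - (M : ℂ))).re := by
      rw [mul_sub, Complex.sub_re]
      congr 1
      rw [mul_comm P (M:ℂ), Complex.re_ofReal_mul]; ring
    rw [e]
    refine (Complex.abs_re_le_norm _).trans ?_
    rw [norm_mul]
    exact mul_le_mul_of_nonneg_left hM2 (norm_nonneg _)
  rw [abs_le] at hPQ
  refine ⟨P, E, M, ?_, hE0, by rw [hc]; exact hM1, R, ψ, hR, hRlow, hψ1, hψ2, by rw [hP, hcc]⟩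
  rw [← hXr]
  have hσs : 1000000000 * σ ^ 2 ≤ 1000000000 * s * (499 / 1000) ^ l := by
    have h4 : s ≤ (1 / 5) ^ l := by
      rw [one_div, inv_pow, ← one_div, le_div_iff₀ (by positivity)]; linarith
    have h5 : (1 / 5 : ℝ) ^ l ≤ (499 / 1000) ^ l := pow_le_pow_left₀ (by norm_num) (by norm_num) l
    have h6 : σ ^ 2 ≤ s * s := by rw [hσd]; nlinarith [mul_pos hs hs]
    have h7 : s * s ≤ s * (499 / 1000) ^ l := mul_le_mul_of_nonneg_left (h4.trans h5) hs.le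
    linarith
  have hnn : 0 ≤ ‖P‖ * ((c / 1600) * (s / √l)) := by positivity
  have hJ4 : 4 * JJ B (B + 1) σ ≤ 4 * CJ * s * (499 / 1000) ^ l := by
    have := mul_le_mul_of_nonneg_left hJJ2 (by norm_num : (0:ℝ) ≤ 4)
    refine this.trans_eq ?_
    ring
  have hfin : (c / 1600) * ‖P‖ * (s / √l) + (1000000000 + 4 * CJ) * s * (499 / 1000) ^ l =
      ‖P‖ * ((c / 1600) * (s / √l)) + 1000000000 * s * (499 / 1000) ^ l + 4 * CJ * s * (499 / 1000) ^ l := by ring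
  rw [hfin, abs_le]
  constructor
  · linarith [r0.1, r1.1, r2.1, r0.2, r1.2, r2.2, hPQ.1, hPQ.2, hL0r.1, hL0r.2]
  · linarith [r0.1, r1.1, r2.1, r0.2, r1.2, r2.2, hPQ.1, hPQ.2, hL0r.1, hL0r.2]

lemma eventually_small (c C : ℝ) (hc : 0 < c) (hC : 0 < C) : ∃ l1 : ℕ, ∀ l : ℕ, l1 ≤ l → 1 ≤ l →
    C * (499 / 1000 : ℝ) ^ l < c * ((1 / 2) ^ l / √l) := by
  have ht := tendsto_self_mul_const_pow_of_lt_one (r := (499 / 500 : ℝ)) (by norm_num) (by norm_num)
  have hev := ht.eventually (gt_mem_nhds (show (0:ℝ) < c / C by positivity))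
  rw [Filter.eventually_atTop] at hev
  obtain ⟨l1, hl1⟩ := hev
  refine ⟨l1, fun l hl h1 => ?_⟩
  have h2 := hl1 l hl
  rw [lt_div_iff₀ hC] at h2
  have hl0 : (1:ℝ) ≤ l := by exact_mod_cast h1
  have hsq : √(l:ℝ) ≤ l := by
    rw [Real.sqrt_le_left (by linarith)]; nlinarith
  have hsq0 : 0 < √(l:ℝ) := Real.sqrt_pos.mpr (by linarith)
  have e : (499 / 1000 : ℝ) ^ l = (499 / 500) ^ l * (1 / 2) ^ l := by rw [← mul_pow]; norm_num
  rw [e, mul_div_assoc', lt_div_iff₀ hsq0]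
  have h3 : (0:ℝ) < (1 / 2) ^ l := by positivity
  have h4 : (0:ℝ) < (499 / 500) ^ l := by positivity
  calc C * ((499 / 500) ^ l * (1 / 2) ^ l) * √l = (√l * (499 / 500) ^ l * C) * (1 / 2) ^ l := by ring
    _ ≤ (l * (499 / 500) ^ l * C) * (1 / 2) ^ l := by gcongr
    _ < c * (1 / 2) ^ l := by gcongr

theorem main_signs : ∃ N : ℕ, ∀ n : ℕ, N ≤ n →
    (n % 3 = 0 → sumCount 3 5 (n + 1) < sumCount 3 5 n) ∧
    (n % 3 = 1 → sumCount 3 5 (n + 1) < sumCount 3 5 n) ∧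
    (n % 3 = 2 → sumCount 3 5 n < sumCount 3 5 (n + 1)) := by
  obtain ⟨c, C, hc, hC, l0, hkey⟩ := key_estimate
  obtain ⟨l1, hl1⟩ := eventually_small (c / 48000) C (by positivity) hC
  obtain ⟨lm, hlm⟩ : ∃ lm : ℕ, lm = max l0 (max l1 1) := ⟨_, rfl⟩
  obtain ⟨N, hN⟩ := exists_sigma (s1 := 1 / 5 ^ (lm + 1)) (by positivity)
  refine ⟨N, fun n hn => ?_⟩
  obtain ⟨s, hs, hs1, hs3, hnu⟩ := hN n hn
  have hx1 : (5:ℝ) ^ (lm + 1) ≤ 1 / s := by
    rw [le_div_iff₀ hs]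
    rw [lt_div_iff₀ (by positivity)] at hs1
    linarith
  have hx : 1 ≤ 1 / s := le_trans (one_le_pow₀ (by norm_num)) hx1
  obtain ⟨l, hla, hlb⟩ := exists_nat_pow_near hx (by norm_num : (1:ℝ) < 5)
  have hl : lm ≤ l := by
    have := (pow_lt_pow_iff_right₀ (by norm_num : (1:ℝ) < 5)).mp (lt_of_le_of_lt hx1 hlb)
    omega
  rw [le_div_iff₀ hs] at hla
  rw [div_lt_iff₀ hs] at hlb
  have hl0 : l0 ≤ l := by rw [hlm] at hl; exact le_trans (le_max_left _ _) hl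
  have hl1' : l1 ≤ l := by
    rw [hlm] at hl; exact le_trans (le_trans (le_max_left _ _) (le_max_right _ _)) hl
  have hl1'' : 1 ≤ l := by
    rw [hlm] at hl; exact le_trans (le_trans (le_max_right _ _) (le_max_right _ _)) hl
  obtain ⟨P, E, M, hest, hE, hM, R, ψ, hR, hRlow, hψ1, hψ2, hP⟩ := hkey l hl0 n s hs hla hlb hs3 hnu
  have hsmall := hl1 l hl1' hl1''
  have hPn : ‖P‖ ≤ 2 * R := by
    rw [hP, norm_mul, norm_mul, norm_mul, norm_ee, mul_one, Complex.norm_exp_ofReal_mul_I, mul_one,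
      Complex.norm_real, Real.norm_of_nonneg hR.le]
    have := w0_norm_le
    nlinarith
  obtain ⟨q, hq⟩ : ∃ q : ℝ, q = s / √l := ⟨_, rfl⟩
  have hsqp : 0 < √(l:ℝ) := Real.sqrt_pos.mpr (by exact_mod_cast hl1'')
  have hq0 : 0 < q := by rw [hq]; positivity
  rw [← hq] at hest hM
  -- error bound
  have herr : (c / 1600) * ‖P‖ * q + C * s * (499 / 1000) ^ l < (c / 600) * R * q := by
    have h1 : (c / 1600) * ‖P‖ * q ≤ (c / 800) * R * q := by
      have : (c / 1600) * ‖P‖ ≤ (c / 1600) * (2 * R) := mul_le_mul_of_nonneg_left hPn (by positivity)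
      have h2 := mul_le_mul_of_nonneg_right this hq0.le
      linarith
    have h3 : C * s * (499 / 1000) ^ l < (c / 2400) * R * q := by
      have a1 : C * s * (499 / 1000) ^ l < s * ((c / 48000) * ((1 / 2) ^ l / √l)) := by
        have := mul_lt_mul_of_pos_left hsmall hs
        linarith
      have a2 : s * ((c / 48000) * ((1 / 2) ^ l / √l)) = (c / 48000) * (1 / 2) ^ l * q := by
        rw [hq]; ring
      have a3 : (1 / 2 : ℝ) ^ l ≤ 20 * R := by
        rw [pow_add] at hRlow; linarith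
      have a4 : (c / 48000) * (1 / 2) ^ l * q ≤ (c / 48000) * (20 * R) * q := by gcongr
      have a5 : 0 < c * R * q := by positivity
      linarith
    linarith
  have hMq : 0 < M := lt_of_lt_of_le (by positivity) hM
  have hmain : (c / 600) * R * q ≤ (2 / 3) * (R / 400) * M := by
    have : R * (c * q) ≤ R * M := mul_le_mul_of_nonneg_left hM hR.le
    linarith
  rw [abs_le] at hest
  have hdecomp := Nat.div_add_mod n 3
  have hph := phase_re hR hψ1 hψ2 (n / 3)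
  have pos_case : R / 400 ≤ P.re → sumCount 3 5 (n + 1) < sumCount 3 5 n := by
    intro h
    have h1 : (2 / 3) * (R / 400) * M ≤ (2 / 3) * P.re * M := by gcongr
    have h2 : 0 < ((sumCount 3 5 n : ℝ) - sumCount 3 5 (n + 1)) * E := by linarith [hest.1]
    have h3 : 0 < (sumCount 3 5 n : ℝ) - sumCount 3 5 (n + 1) := pos_of_mul_pos_left h2 hE.le
    have h4 : (sumCount 3 5 (n + 1) : ℝ) < sumCount 3 5 n := by linarith
    exact_mod_cast h4
  have neg_case : P.re ≤ -(R / 400) → sumCount 3 5 n < sumCount 3 5 (n + 1) := by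
    intro h
    have h1 : (2 / 3) * P.re * M ≤ (2 / 3) * (-(R / 400)) * M := by gcongr
    have h2 : ((sumCount 3 5 n : ℝ) - sumCount 3 5 (n + 1)) * E < 0 := by linarith [hest.2]
    have h3 : (sumCount 3 5 n : ℝ) - sumCount 3 5 (n + 1) < 0 := by
      by_contra hcon
      push Not at hcon
      have := mul_nonneg hcon hE.le
      linarith
    have h4 : (sumCount 3 5 n : ℝ) < sumCount 3 5 (n + 1) := by linarith
    exact_mod_cast h4
  refine ⟨fun hr => pos_case ?_, fun hr => pos_case ?_, fun hr => neg_case ?_⟩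
  · have hn' : n = 3 * (n / 3) + 0 := by omega
    rw [hP]; have := hph.1; rw [← hn'] at this; exact this
  · have hn' : n = 3 * (n / 3) + 1 := by omega
    rw [hP]; have := hph.2.1; rw [← hn'] at this; exact this
  · have hn' : n = 3 * (n / 3) + 2 := by omega
    rw [hP]; have := hph.2.2; rw [← hn'] at this; exact this

end R398.DS
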