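import Pool.Agent.R398.DS.Sums

namespace R398.DS

open Real

/-! ### decay -/

lemma Psi_decay {σ t : ℝ} {l A B : ℕ} (hσ : 0 < σ) (hl : 5 ^ l * σ ≤ 1) (hB : l ≤ B)
    (hA : 1 ≤ 3 ^ A * σ) (ht : |t| ≤ KK * σ) :
    ‖Psi B A σ t‖ ≤ exp (-(((l - 5 : ℕ) : ℝ) * ((t / σ) ^ 2 / 900000000))) := by
  rw [norm_Psi]
  have e0 : WW B A σ t = ∏ b ∈ Finset.range B, ∏ a ∈ Finset.range A, w (σ * 3 ^ a * 5 ^ b) (5 ^ b * (3 ^ a * t)) := by
    unfold WW CC
    rw [Finset.prod_comm]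
  rw [e0]
  have hsub : Finset.range (l - 5) ⊆ Finset.range B := Finset.range_subset_range.mpr (by omega)
  have e1 := prod_le_prod_subset hsub
    (fun b => ∏ a ∈ Finset.range A, w (σ * 3 ^ a * 5 ^ b) (5 ^ b * (3 ^ a * t)))
    (fun _ => Finset.prod_nonneg (fun _ _ => w_nonneg _ _))
    (fun _ => Finset.prod_le_one (fun _ _ => w_nonneg _ _) (fun _ _ => w_le_one _ _))
  refine e1.trans ?_
  have e2 : ∀ b ∈ Finset.range (l - 5), ∏ a ∈ Finset.range A, w (σ * 3 ^ a * 5 ^ b) (5 ^ b * (3 ^ a * t)) ≤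
      exp (-((t / σ) ^ 2 / 900000000)) := by
    intro b hb
    rw [Finset.mem_range] at hb
    have hp : (5:ℝ) ^ b * 15625 ≤ 5 ^ l := by
      have : (5:ℝ) ^ (b + 6) ≤ 5 ^ l := pow_le_pow_right₀ (by norm_num) (by omega)
      rw [pow_add] at this
      norm_num at this ⊢
      exact this
    set X : ℝ := 1 / (10000 * σ) with hX
    have h5b : (0:ℝ) < 5 ^ b := by positivity
    have hXσ : X * σ = 1 / 10000 := by rw [hX]; field_simp
    have hX1 : 5 ^ b ≤ X := by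
      rw [hX, le_div_iff₀ (by positivity)]
      have : 5 ^ b * 15625 * σ ≤ 5 ^ l * σ := mul_le_mul_of_nonneg_right hp hσ.le
      nlinarith
    have hX2 : 1 ≤ X / 5 ^ b := by rw [le_div_iff₀ h5b]; linarith
    obtain ⟨a, ha1, ha2⟩ := exists_nat_pow_near hX2 (by norm_num : (1:ℝ) < 3)
    rw [le_div_iff₀ h5b] at ha1
    rw [div_lt_iff₀ h5b] at ha2
    have h3a : (0:ℝ) < 3 ^ a := by positivity
    have haA : a < A := by
      have h1 : (3:ℝ) ^ a * σ < 3 ^ A * σ := by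
        have : (3:ℝ) ^ a ≤ 3 ^ a * 5 ^ b := by
          have : (1:ℝ) ≤ 5 ^ b := one_le_pow₀ (by norm_num)
          nlinarith
        have : (3:ℝ) ^ a ≤ X := this.trans ha1
        have : (3:ℝ) ^ a * σ ≤ X * σ := mul_le_mul_of_nonneg_right this hσ.le
        rw [hXσ] at this
        linarith
      exact (pow_lt_pow_iff_right₀ (by norm_num : (1:ℝ) < 3)).mp (lt_of_mul_lt_mul_right h1 hσ.le)
    have hsa : ({a} : Finset ℕ) ⊆ Finset.range A := by
      intro x hx; rw [Finset.mem_singleton] at hx; rw [hx, Finset.mem_range]; exact haA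
    have e3 := prod_le_prod_subset hsa (fun a => w (σ * 3 ^ a * 5 ^ b) (5 ^ b * (3 ^ a * t)))
      (fun _ => w_nonneg _ _) (fun _ => w_le_one _ _)
    rw [Finset.prod_singleton] at e3
    refine e3.trans ?_
    set s : ℝ := 3 ^ a * 5 ^ b with hs
    have hs0 : 0 < s := by positivity
    have hsX : X < 3 * s := by rw [hs]; rw [pow_succ] at ha2; linarith
    have hu : σ * 3 ^ a * 5 ^ b = σ * s := by rw [hs]; ring
    have hx : 5 ^ b * (3 ^ a * t) = s * t := by rw [hs]; ring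
    rw [hu, hx]
    refine (w_le_exp (σ * s) (s * t) (by positivity)).trans ?_
    apply Real.exp_le_exp.mpr
    apply neg_le_neg
    have hρ : 1 / 2 ≤ exp (-(σ * s)) := by
      have h1 := Real.add_one_le_exp (-(σ * s))
      have h2 : σ * s ≤ 1 / 10000 := by
        have := mul_le_mul_of_nonneg_right ha1 hσ.le
        rw [hXσ] at this; linarith
      linarith
    have hst : s * |t| ≤ 1 / 2 := by
      have h1 : s * |t| ≤ X * (KK * σ) := mul_le_mul ha1 ht (abs_nonneg _) (by positivity)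
      have h2 : X * (KK * σ) = 1 / 2 := by
        unfold KK; rw [show X * (5000 * σ) = 5000 * (X * σ) by ring, hXσ]; norm_num
      linarith
    have hsin : 2 * (s * |t|) ≤ |sin (π * (s * t))| := by
      have h1 : |π * (s * t)| = π * (s * |t|) := by
        rw [abs_mul, abs_mul, abs_of_pos pi_pos, abs_of_pos hs0]
      have h2 := mul_abs_le_abs_sin (x := π * (s * t)) (by rw [h1]; nlinarith [pi_pos])
      rw [h1] at h2
      have h3 : 2 / π * (π * (s * |t|)) = 2 * (s * |t|) := by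
        have := pi_ne_zero; field_simp
      linarith
    have hlow : |t| / σ / 30000 ≤ s * |t| := by
      have h1 : X * |t| ≤ 3 * s * |t| := mul_le_mul_of_nonneg_right hsX.le (abs_nonneg _)
      have h2 : X * |t| = |t| / σ / 10000 := by rw [hX]; field_simp
      rw [h2] at h1
      have h3 : 0 ≤ |t| / σ := by positivity
      linarith
    have hq : 0 ≤ |t| / σ := by positivity
    have hsq : (2 * (|t| / σ / 30000)) ^ 2 ≤ sin (π * (s * t)) ^ 2 := by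
      rw [← sq_abs (sin (π * (s * t)))]
      apply pow_le_pow_left₀ (by positivity)
      linarith
    have e4 : (t / σ) ^ 2 = (|t| / σ) ^ 2 := by
      rw [div_pow, div_pow, sq_abs]
    rw [e4]
    have hsn : 0 ≤ sin (π * (s * t)) ^ 2 := sq_nonneg _
    nlinarith [mul_le_mul hρ hsq (by positivity) (exp_pos _).le, sq_nonneg (|t| / σ)]
  calc ∏ b ∈ Finset.range (l - 5), ∏ a ∈ Finset.range A, w (σ * 3 ^ a * 5 ^ b) (5 ^ b * (3 ^ a * t))
      ≤ ∏ _b ∈ Finset.range (l - 5), exp (-((t / σ) ^ 2 / 900000000)) :=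
        Finset.prod_le_prod (fun _ _ => Finset.prod_nonneg (fun _ _ => w_nonneg _ _)) e2
    _ = _ := by
      rw [Finset.prod_const, Finset.card_range, ← Real.exp_nat_mul]
      congr 1; ring

/-! ### the Bernoulli expansion -/

lemma bern {p y : ℝ} (hp0 : 0 ≤ p) (hp1 : p ≤ 1) :
    ‖(1 - (p:ℂ)) + (p:ℂ) * Complex.exp ((y:ℂ) * Complex.I) -
      Complex.exp (((p * y : ℝ) : ℂ) * Complex.I - ((p * (1 - p) * y ^ 2 / 2 : ℝ) : ℂ))‖ ≤ 9 * p * |y| ^ 3 := by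
  set r : ℝ := p * (1 - p) * y ^ 2 / 2 with hr
  set z : ℂ := ((p * y : ℝ) : ℂ) * Complex.I - (r : ℂ) with hz
  have hr0 : 0 ≤ r := by
    have : 0 ≤ 1 - p := by linarith
    positivity
  have hr1 : r ≤ p * |y| ^ 2 / 2 := by
    rw [hr, sq_abs]
    have : p * (1 - p) * y ^ 2 ≤ p * 1 * y ^ 2 := by gcongr; linarith
    linarith
  have hY : 0 ≤ |y| := abs_nonneg y
  have hpy : ‖((p * y : ℝ) : ℂ) * Complex.I‖ = p * |y| := by
    rw [norm_mul, Complex.norm_I, mul_one, Complex.norm_real, Real.norm_eq_abs, abs_mul, abs_of_nonneg hp0]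
  have hrn : ‖(r:ℂ)‖ = r := by rw [Complex.norm_real, Real.norm_of_nonneg hr0]
  have hz1 : ‖z‖ ≤ p * |y| + r := by
    rw [hz]; refine (norm_sub_le _ _).trans ?_; rw [hpy, hrn]
  rcases le_or_gt |y| (1 / 2) with hy | hy
  · -- small case
    have hyn : ‖(y:ℂ) * Complex.I‖ = |y| := by
      rw [norm_mul, Complex.norm_I, mul_one, Complex.norm_real, Real.norm_eq_abs]
    have a1 := Complex.exp_bound (x := (y:ℂ) * Complex.I) (by rw [hyn]; linarith) (n := 3) (by norm_num)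
    have hI2 : Complex.I ^ 2 = -1 := Complex.I_sq
    have s1 : ∑ m ∈ Finset.range 3, ((y:ℂ) * Complex.I) ^ m / (m.factorial : ℂ) =
        1 + (y:ℂ) * Complex.I - (y:ℂ) ^ 2 / 2 := by
      simp only [Finset.sum_range_succ, Finset.sum_range_zero, pow_zero, Nat.factorial, Nat.cast_one,
        div_one, zero_add, pow_one, mul_pow, hI2]
      push_cast; ring
    rw [s1, hyn] at a1
    have hz2 : ‖z‖ ≤ 5 / 4 * (p * |y|) := by
      have : p * |y| ^ 2 / 2 ≤ 1 / 4 * (p * |y|) := by nlinarith [mul_nonneg hp0 hY]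
      linarith
    have hz3 : ‖z‖ ≤ 1 := by nlinarith [mul_nonneg hp0 hY]
    have a2 := Complex.exp_bound (x := z) hz3 (n := 3) (by norm_num)
    have s2 : ∑ m ∈ Finset.range 3, z ^ m / (m.factorial : ℂ) = 1 + z + z ^ 2 / 2 := by
      simp only [Finset.sum_range_succ, Finset.sum_range_zero, pow_zero, Nat.factorial, Nat.cast_one,
        div_one, zero_add, pow_one]
      push_cast; ring
    rw [s2] at a2
    have hc : ((Nat.succ 3 : ℕ) : ℝ) * (((Nat.factorial 3 : ℕ) : ℝ) * ((3 : ℕ) : ℝ))⁻¹ = 2 / 9 := by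
      norm_num [Nat.factorial]
    rw [hc] at a1 a2
    have a3 : (1 - (p:ℂ)) + (p:ℂ) * (1 + (y:ℂ) * Complex.I - (y:ℂ) ^ 2 / 2) - (1 + z + z ^ 2 / 2) =
        ((p * y * r : ℝ) : ℂ) * Complex.I - ((r ^ 2 / 2 : ℝ) : ℂ) := by
      have e : z ^ 2 = -((p * y : ℝ) : ℂ) ^ 2 - 2 * ((p * y : ℝ) : ℂ) * (r:ℂ) * Complex.I + (r:ℂ) ^ 2 := by
        rw [hz]
        have : (((p * y : ℝ) : ℂ) * Complex.I - (r:ℂ)) ^ 2 =
          ((p * y : ℝ) : ℂ) ^ 2 * Complex.I ^ 2 - 2 * ((p * y : ℝ) : ℂ) * (r:ℂ) * Complex.I + (r:ℂ) ^ 2 := by ring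
        rw [this, hI2]; ring
      rw [e, hz, hr]
      push_cast
      ring
    have a4 : ‖((p * y * r : ℝ) : ℂ) * Complex.I - ((r ^ 2 / 2 : ℝ) : ℂ)‖ ≤ p * |y| * r + r ^ 2 / 2 := by
      refine (norm_sub_le _ _).trans ?_
      rw [norm_mul, Complex.norm_I, mul_one, Complex.norm_real, Complex.norm_real, Real.norm_eq_abs,
        Real.norm_eq_abs, abs_mul, abs_mul, abs_of_nonneg hp0, abs_of_nonneg hr0,
        abs_of_nonneg (by positivity : 0 ≤ r ^ 2 / 2)]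
    have e : (1 - (p:ℂ)) + (p:ℂ) * Complex.exp ((y:ℂ) * Complex.I) - Complex.exp z =
        (p:ℂ) * (Complex.exp ((y:ℂ) * Complex.I) - (1 + (y:ℂ) * Complex.I - (y:ℂ) ^ 2 / 2)) +
        ((1 - (p:ℂ)) + (p:ℂ) * (1 + (y:ℂ) * Complex.I - (y:ℂ) ^ 2 / 2) - (1 + z + z ^ 2 / 2)) -
        (Complex.exp z - (1 + z + z ^ 2 / 2)) := by ring
    rw [e, a3]
    have hpn : ‖(p:ℂ)‖ = p := by rw [Complex.norm_real, Real.norm_of_nonneg hp0]
    have b1 : ‖(p:ℂ) * (Complex.exp ((y:ℂ) * Complex.I) - (1 + (y:ℂ) * Complex.I - (y:ℂ) ^ 2 / 2))‖ ≤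
        p * (|y| ^ 3 * (2 / 9)) := by
      rw [norm_mul, hpn]; exact mul_le_mul_of_nonneg_left a1 hp0
    have b2 : ‖z‖ ^ 3 ≤ 2 * (p * |y| ^ 3) := by
      have h1 : ‖z‖ ^ 3 ≤ (5 / 4 * (p * |y|)) ^ 3 := pow_le_pow_left₀ (norm_nonneg _) hz2 3
      have h2 : (5 / 4 * (p * |y|)) ^ 3 = 125 / 64 * (p ^ 2 * (p * |y| ^ 3)) := by ring
      have h3 : p ^ 2 ≤ 1 := by nlinarith
      have h4 : p ^ 2 * (p * |y| ^ 3) ≤ 1 * (p * |y| ^ 3) :=
        mul_le_mul_of_nonneg_right h3 (by positivity)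
      have h5 : 0 ≤ p * |y| ^ 3 := by positivity
      linarith
    have b3 : p * |y| * r + r ^ 2 / 2 ≤ p * |y| ^ 3 := by
      have h1 : p * |y| * r ≤ p * |y| * (p * |y| ^ 2 / 2) := mul_le_mul_of_nonneg_left hr1 (by positivity)
      have h2 : p * |y| * (p * |y| ^ 2 / 2) = p * (p * |y| ^ 3) / 2 := by ring
      have h5 : 0 ≤ p * |y| ^ 3 := by positivity
      have h3 : p * (p * |y| ^ 3) ≤ 1 * (p * |y| ^ 3) := mul_le_mul_of_nonneg_right hp1 h5
      have h4 : r ^ 2 ≤ (p * |y| ^ 2 / 2) ^ 2 := pow_le_pow_left₀ hr0 hr1 2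
      have h6 : (p * |y| ^ 2 / 2) ^ 2 = (p * |y| / 4) * (p * |y| ^ 3) := by ring
      have h7 : (p * |y| / 4) * (p * |y| ^ 3) ≤ 1 * (p * |y| ^ 3) := by
        apply mul_le_mul_of_nonneg_right _ h5
        nlinarith
      linarith
    have h5 : 0 ≤ p * |y| ^ 3 := by positivity
    refine (norm_sub_le _ _).trans ?_
    have := norm_add_le ((p:ℂ) * (Complex.exp ((y:ℂ) * Complex.I) - (1 + (y:ℂ) * Complex.I - (y:ℂ) ^ 2 / 2)))
      (((p * y * r : ℝ) : ℂ) * Complex.I - ((r ^ 2 / 2 : ℝ) : ℂ))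
    nlinarith
  · -- large case
    have c1 : ‖Complex.exp ((y:ℂ) * Complex.I) - 1‖ ≤ |y| := by
      have := Real.norm_exp_I_mul_ofReal_sub_one_le (x := y)
      rw [mul_comm] at this
      simpa using this
    have c2 : ‖Complex.exp (((p * y : ℝ):ℂ) * Complex.I) - 1‖ ≤ p * |y| := by
      have := Real.norm_exp_I_mul_ofReal_sub_one_le (x := p * y)
      rw [mul_comm] at this
      rw [Real.norm_eq_abs, abs_mul, abs_of_nonneg hp0] at this
      exact this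
    have e1 : Complex.exp z = ((exp (-r) : ℝ) : ℂ) * Complex.exp (((p * y : ℝ):ℂ) * Complex.I) := by
      rw [hz, Complex.ofReal_exp, ← Complex.exp_add]; congr 1; push_cast; ring
    have e2 : (1 - (p:ℂ)) + (p:ℂ) * Complex.exp ((y:ℂ) * Complex.I) - Complex.exp z =
        (p:ℂ) * (Complex.exp ((y:ℂ) * Complex.I) - 1) -
        (((exp (-r) : ℝ) : ℂ) * (Complex.exp (((p * y : ℝ):ℂ) * Complex.I) - 1)) +
        ((1 - exp (-r) : ℝ) : ℂ) := by
      rw [e1]; push_cast; ring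
    have c3 : exp (-r) ≤ 1 := Real.exp_le_one_iff.mpr (by linarith)
    have c4 : 1 - exp (-r) ≤ r := by have := Real.add_one_le_exp (-r); linarith
    rw [e2]
    have n1 : ‖(p:ℂ) * (Complex.exp ((y:ℂ) * Complex.I) - 1)‖ ≤ p * |y| := by
      rw [norm_mul, Complex.norm_real, Real.norm_of_nonneg hp0]
      exact mul_le_mul_of_nonneg_left c1 hp0
    have n2 : ‖((exp (-r) : ℝ) : ℂ) * (Complex.exp (((p * y : ℝ):ℂ) * Complex.I) - 1)‖ ≤ p * |y| := by
      rw [norm_mul, Complex.norm_real, Real.norm_of_nonneg (exp_pos _).le]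
      calc exp (-r) * _ ≤ 1 * (p * |y|) := mul_le_mul c3 c2 (norm_nonneg _) (by norm_num)
        _ = _ := one_mul _
    have n3 : ‖((1 - exp (-r) : ℝ) : ℂ)‖ ≤ r := by
      rw [Complex.norm_real, Real.norm_of_nonneg (by linarith)]; exact c4
    have t1 : |y| ≤ 4 * |y| ^ 3 := by
      have : 1 ≤ 4 * |y| ^ 2 := by nlinarith
      nlinarith
    have t2 : |y| ^ 2 ≤ 2 * |y| ^ 3 := by nlinarith [sq_nonneg (|y|)]
    refine (norm_add_le _ _).trans ?_
    refine (add_le_add (norm_sub_le _ _) le_rfl).trans ?_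
    have t3 : p * |y| ≤ p * (4 * |y| ^ 3) := mul_le_mul_of_nonneg_left t1 hp0
    have t4 : p * |y| ^ 2 ≤ p * (2 * |y| ^ 3) := mul_le_mul_of_nonneg_left t2 hp0
    linarith

lemma prod_sub_prod_norm {ι : Type*} (s : Finset ι) (f g : ι → ℂ) (hf : ∀ i, ‖f i‖ ≤ 1)
    (hg : ∀ i, ‖g i‖ ≤ 1) : ‖∏ i ∈ s, f i - ∏ i ∈ s, g i‖ ≤ ∑ i ∈ s, ‖f i - g i‖ := by
  classical
  induction s using Finset.induction_on with
  | empty => simp
  | insert a s ha ih =>
    rw [Finset.prod_insert ha, Finset.prod_insert ha, Finset.sum_insert ha]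
    have e : f a * ∏ i ∈ s, f i - g a * ∏ i ∈ s, g i =
        (f a - g a) * ∏ i ∈ s, f i + g a * (∏ i ∈ s, f i - ∏ i ∈ s, g i) := by ring
    rw [e]
    refine (norm_add_le _ _).trans ?_
    rw [norm_mul, norm_mul]
    have h1 : ‖∏ i ∈ s, f i‖ ≤ 1 := by
      rw [norm_prod]; exact Finset.prod_le_one (fun _ _ => norm_nonneg _) (fun i _ => hf i)
    have h2 : ‖f a - g a‖ * ‖∏ i ∈ s, f i‖ ≤ ‖f a - g a‖ * 1 :=
      mul_le_mul_of_nonneg_left h1 (norm_nonneg _)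
    have h3 : ‖g a‖ * ‖∏ i ∈ s, f i - ∏ i ∈ s, g i‖ ≤ 1 * ‖∏ i ∈ s, f i - ∏ i ∈ s, g i‖ :=
      mul_le_mul_of_nonneg_right (hg a) (norm_nonneg _)
    linarith

/-- Bernoulli parameter -/
noncomputable def pp (u : ℝ) : ℝ := exp (-u) / (1 + exp (-u))

lemma pp_nonneg (u : ℝ) : 0 ≤ pp u := by unfold pp; positivity
lemma pp_le_exp (u : ℝ) : pp u ≤ exp (-u) := by
  unfold pp; exact div_le_self (exp_pos _).le (by linarith [exp_pos (-u)])
lemma pp_le_one (u : ℝ) : pp u ≤ 1 := by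
  unfold pp; rw [div_le_one (by positivity)]; linarith [exp_pos (-u)]

lemma ph_eq (u x : ℝ) : ph u x = (1 - (pp u : ℂ)) + (pp u : ℂ) * Complex.exp (((2 * π * x : ℝ) : ℂ) * Complex.I) := by
  unfold ph pp ee
  have h := one_add_exp_ne u
  have : ((exp (-u) / (1 + exp (-u)) : ℝ) : ℂ) = (exp (-u) : ℂ) / (1 + (exp (-u) : ℂ)) := by push_cast; rfl
  rw [this]
  field_simp
  ring

/-- mean -/
noncomputable def nu (B A : ℕ) (σ : ℝ) : ℝ :=
  ∑ a ∈ Finset.range A, ∑ b ∈ Finset.range B, (3 ^ a * 5 ^ b) * pp (σ * 3 ^ a * 5 ^ b)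

/-- variance -/
noncomputable def VV (B A : ℕ) (σ : ℝ) : ℝ :=
  ∑ a ∈ Finset.range A, ∑ b ∈ Finset.range B, (3 ^ a * 5 ^ b) ^ 2 *
    (pp (σ * 3 ^ a * 5 ^ b) * (1 - pp (σ * 3 ^ a * 5 ^ b)))

lemma VV_nonneg (B A : ℕ) (σ : ℝ) : 0 ≤ VV B A σ := by
  unfold VV
  refine Finset.sum_nonneg (fun a _ => Finset.sum_nonneg (fun b _ => ?_))
  have h1 := pp_nonneg (σ * 3 ^ a * 5 ^ b)
  have h2 := pp_le_one (σ * 3 ^ a * 5 ^ b)
  have : 0 ≤ 1 - pp (σ * 3 ^ a * 5 ^ b) := by linarith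
  positivity

lemma VV_le {σ : ℝ} (hσ : 0 < σ) {l A B : ℕ} (hl : 1 < 5 ^ (l + 1) * σ) (hB : l + 1 ≤ B) :
    VV B A σ * σ ^ 2 ≤ 6 * (4 * (l + 1) + 5) := by
  have h := sum2 (A := A) hσ hl hB 1
  norm_num [Nat.factorial] at h
  refine le_trans ?_ h
  unfold VV
  rw [Finset.sum_mul]
  apply Finset.sum_le_sum
  intro a _
  rw [Finset.sum_mul]
  apply Finset.sum_le_sum
  intro b _
  have h1 := pp_nonneg (σ * 3 ^ a * 5 ^ b)
  have h2 := pp_le_one (σ * 3 ^ a * 5 ^ b)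
  have h3 := pp_le_exp (σ * 3 ^ a * 5 ^ b)
  have h4 : pp (σ * 3 ^ a * 5 ^ b) * (1 - pp (σ * 3 ^ a * 5 ^ b)) ≤ exp (-(σ * 3 ^ a * 5 ^ b)) := by
    nlinarith
  calc (3 ^ a * 5 ^ b) ^ 2 * (pp (σ * 3 ^ a * 5 ^ b) * (1 - pp (σ * 3 ^ a * 5 ^ b))) * σ ^ 2
      = (σ * 3 ^ a * 5 ^ b) ^ 2 * (pp (σ * 3 ^ a * 5 ^ b) * (1 - pp (σ * 3 ^ a * 5 ^ b))) := by ring
    _ ≤ _ := mul_le_mul_of_nonneg_left h4 (by positivity)

lemma Psi_central {σ t : ℝ} (hσ : 0 < σ) {l A B : ℕ} (hl : 1 < 5 ^ (l + 1) * σ) (hB : l + 1 ≤ B)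
    (hl1 : 1 ≤ l) :
    ‖Psi B A σ t * ee (-(nu B A σ * t)) - ((exp (-(2 * π ^ 2 * VV B A σ * t ^ 2)) : ℝ) : ℂ)‖ ≤
      1000000 * l * (|t| / σ) ^ 3 := by
  set s := Finset.range A ×ˢ Finset.range B with hs
  set f : ℕ × ℕ → ℂ := fun x => ph (σ * 3 ^ x.1 * 5 ^ x.2) (5 ^ x.2 * (3 ^ x.1 * t)) with hf
  set p : ℕ × ℕ → ℝ := fun x => pp (σ * 3 ^ x.1 * 5 ^ x.2) with hp
  set y : ℕ × ℕ → ℝ := fun x => 2 * π * (5 ^ x.2 * (3 ^ x.1 * t)) with hy
  set g : ℕ × ℕ → ℂ := fun x => Complex.exp (((p x * y x : ℝ) : ℂ) * Complex.I -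
    ((p x * (1 - p x) * y x ^ 2 / 2 : ℝ) : ℂ)) with hg
  have hPsi : Psi B A σ t = ∏ x ∈ s, f x := by
    rw [hs, Finset.prod_product]
    rfl
  have hf1 : ∀ x, ‖f x‖ ≤ 1 := fun x => w_le_one _ _
  have hg1 : ∀ x, ‖g x‖ ≤ 1 := by
    intro x
    rw [hg]
    simp only
    rw [Complex.norm_exp]
    have : (((p x * y x : ℝ) : ℂ) * Complex.I - ((p x * (1 - p x) * y x ^ 2 / 2 : ℝ) : ℂ)).re =
        -(p x * (1 - p x) * y x ^ 2 / 2) := by
      rw [Complex.sub_re, Complex.re_ofReal_mul, Complex.I_re, mul_zero, zero_sub, Complex.ofReal_re]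
    rw [this]
    apply Real.exp_le_one_iff.mpr
    have h1 := pp_nonneg (σ * 3 ^ x.1 * 5 ^ x.2)
    have h2 := pp_le_one (σ * 3 ^ x.1 * 5 ^ x.2)
    have : 0 ≤ 1 - p x := by rw [hp]; simp only; linarith
    have h3 : 0 ≤ p x := h1
    have : 0 ≤ p x * (1 - p x) * y x ^ 2 / 2 := by positivity
    linarith
  have hprod : (∏ x ∈ s, g x) * ee (-(nu B A σ * t)) =
      ((exp (-(2 * π ^ 2 * VV B A σ * t ^ 2)) : ℝ) : ℂ) := by
    rw [hg]
    simp only
    rw [← Complex.exp_sum]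
    unfold ee
    rw [← Complex.exp_add, Complex.ofReal_exp]
    congr 1
    rw [Finset.sum_sub_distrib]
    have e1 : ∑ x ∈ s, ((p x * y x : ℝ) : ℂ) * Complex.I = ((2 * π * (nu B A σ * t) : ℝ) : ℂ) * Complex.I := by
      rw [← Finset.sum_mul, ← Complex.ofReal_sum]
      congr 2
      unfold nu
      rw [hs, Finset.sum_product, Finset.sum_mul, Finset.mul_sum]
      apply Finset.sum_congr rfl
      intro a _
      rw [Finset.sum_mul, Finset.mul_sum]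
      apply Finset.sum_congr rfl
      intro b _
      rw [hp, hy]; simp only; ring
    have e2 : ∑ x ∈ s, ((p x * (1 - p x) * y x ^ 2 / 2 : ℝ) : ℂ) = ((2 * π ^ 2 * VV B A σ * t ^ 2 : ℝ) : ℂ) := by
      rw [← Complex.ofReal_sum]
      congr 1
      unfold VV
      rw [hs, Finset.sum_product, Finset.mul_sum, Finset.sum_mul]
      apply Finset.sum_congr rfl
      intro a _
      rw [Finset.mul_sum, Finset.sum_mul]
      apply Finset.sum_congr rfl
      intro b _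
      rw [hp, hy]; simp only; ring
    rw [e1, e2]
    push_cast
    ring
  have key : Psi B A σ t * ee (-(nu B A σ * t)) - ((exp (-(2 * π ^ 2 * VV B A σ * t ^ 2)) : ℝ) : ℂ) =
      (∏ x ∈ s, f x - ∏ x ∈ s, g x) * ee (-(nu B A σ * t)) := by
    rw [sub_mul, hprod, hPsi]
  rw [key, norm_mul, norm_ee, mul_one]
  refine (prod_sub_prod_norm s f g hf1 hg1).trans ?_
  have hπ : π ≤ 3.15 := by have := pi_lt_d2; linarith
  have hπ3 : (2 * π) ^ 3 ≤ 251 := by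
    have : (2 * π) ^ 3 ≤ (6.3) ^ 3 := pow_le_pow_left₀ (by positivity) (by linarith) 3
    refine this.trans (by norm_num)
  have hterm : ∀ x ∈ s, ‖f x - g x‖ ≤ 2259 * (|t| / σ) ^ 3 *
      ((σ * 3 ^ x.1 * 5 ^ x.2) ^ 3 * exp (-(σ * 3 ^ x.1 * 5 ^ x.2))) := by
    intro x _
    have h1 := bern (p := p x) (y := y x) (pp_nonneg _) (pp_le_one _)
    have h2 : f x = (1 - (p x : ℂ)) + (p x : ℂ) * Complex.exp ((y x : ℂ) * Complex.I) := by
      rw [hf]; simp only; rw [ph_eq]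
    rw [h2]
    refine h1.trans ?_
    have h3 : |y x| = 2 * π * (3 ^ x.1 * 5 ^ x.2) * |t| := by
      rw [hy]; simp only
      have h0 : 2 * π * (5 ^ x.2 * (3 ^ x.1 * t)) = (2 * π * (3 ^ x.1 * 5 ^ x.2)) * t := by ring
      rw [h0, abs_mul, abs_of_pos (by positivity : 0 < 2 * π * (3 ^ x.1 * 5 ^ x.2))]
    rw [h3]
    have h4 : p x ≤ exp (-(σ * 3 ^ x.1 * 5 ^ x.2)) := pp_le_exp _
    have h5 : |t| = σ * (|t| / σ) := by field_simp
    calc 9 * p x * (2 * π * (3 ^ x.1 * 5 ^ x.2) * |t|) ^ 3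
        = 9 * p x * ((2 * π) ^ 3 * ((3 ^ x.1 * 5 ^ x.2) ^ 3 * |t| ^ 3)) := by ring
      _ ≤ 9 * exp (-(σ * 3 ^ x.1 * 5 ^ x.2)) * (251 * ((3 ^ x.1 * 5 ^ x.2) ^ 3 * |t| ^ 3)) := by
          have h6 : 0 ≤ p x := pp_nonneg _
          gcongr
      _ = 2259 * (|t| / σ) ^ 3 *
      ((σ * 3 ^ x.1 * 5 ^ x.2) ^ 3 * exp (-(σ * 3 ^ x.1 * 5 ^ x.2))) := by
          have hσ' := hσ.ne'
          field_simp
          ring
  refine (Finset.sum_le_sum hterm).trans ?_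
  rw [← Finset.mul_sum, hs, Finset.sum_product]
  simp only
  have h := sum2 (A := A) hσ hl hB 2
  norm_num [Nat.factorial] at h
  have hl1' : (1:ℝ) ≤ l := by exact_mod_cast hl1
  have hq : 0 ≤ (|t| / σ) ^ 3 := by positivity
  calc _ ≤ 2259 * (|t| / σ) ^ 3 * (24 * (4 * (l + 1) + 5)) :=
        mul_le_mul_of_nonneg_left h (by positivity)
    _ ≤ 1000000 * l * (|t| / σ) ^ 3 := by nlinarith

end R398.DS
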