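import Pool.Agent.R398.DS.Lobe

namespace R398.DS

open Real MeasureTheory

lemma exp_neg_le_cube {z : ℝ} (hz : 0 < z) : exp (-z) ≤ 6 / z ^ 3 := by
  have h1 := Real.pow_div_factorial_le_exp z hz.le 3
  norm_num [Nat.factorial] at h1
  rw [Real.exp_neg, inv_eq_one_div, div_le_div_iff₀ (exp_pos _) (by positivity)]
  linarith

lemma lobe_Q (H ε : ℝ) (hH : 0 ≤ H) (hε : 0 < ε) : ∃ l0 : ℕ, ∀ l : ℕ, l0 ≤ l → ∀ σ : ℝ, 0 < σ →
    5 ^ l * σ ≤ 1 → 1 < 5 ^ (l + 1) * σ → ∀ A B : ℕ, l + 1 ≤ B → 1 ≤ 3 ^ A * σ →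
    ∀ h : ℝ → ℂ, Continuous h → (∀ t, |t| ≤ KK * σ → ‖h t - 1‖ ≤ H * (|t| / σ + σ)) →
    ∃ M : ℝ, exp (-2000) * (σ / √l) ≤ M ∧
      ‖(∫ t in (-(KK * σ))..(KK * σ), h t * (Psi B A σ t * ee (-(nu B A σ * t)))) - (M : ℂ)‖ ≤
        ε * (σ / √l) := by
  have hKK : KK = 5000 := rfl
  obtain ⟨C7, hC7⟩ : ∃ x : ℝ, x = 12 * KK * (1 + H * (KK + 1)) * 1800000000 ^ 3 := ⟨_, rfl⟩
  have hC70 : 0 ≤ C7 := by rw [hC7, hKK]; positivity
  obtain ⟨y0, hy0⟩ : ∃ x : ℝ, x = 1 + 2 * (4 * H + 2000000) / ε + 2 * C7 / ε := ⟨_, rfl⟩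
  have hy01 : 1 ≤ y0 := by
    rw [hy0]
    have : 0 ≤ 2 * (4 * H + 2000000) / ε := by positivity
    have : 0 ≤ 2 * C7 / ε := by positivity
    linarith
  refine ⟨max 10 ⌈y0 ^ 10⌉₊, ?_⟩
  intro l hl0 σ hσ hl hl' A B hB hA h hcont hh
  have hl10 : 10 ≤ l := le_trans (le_max_left _ _) hl0
  have hl10' : (10:ℝ) ≤ l := by exact_mod_cast hl10
  have hly : y0 ^ 10 ≤ l := le_trans (Nat.le_ceil _) (by exact_mod_cast le_trans (le_max_right _ _) hl0)
  obtain ⟨y, hy⟩ : ∃ x : ℝ, x = (l:ℝ) ^ (1 / 10 : ℝ) := ⟨_, rfl⟩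
  have hy10 : y ^ 10 = l := by
    rw [hy, ← Real.rpow_natCast, ← Real.rpow_mul (by positivity)]; norm_num
  have hypos : 0 < y := by rw [hy]; exact Real.rpow_pos_of_pos (by linarith) _
  have hyy0 : y0 ≤ y := by
    by_contra hc
    push Not at hc
    have := pow_lt_pow_left₀ hc hypos.le (by norm_num : (10:ℕ) ≠ 0)
    rw [hy10] at this; linarith
  have hy1 : 1 ≤ y := hy01.trans hyy0
  have hsq : √(l:ℝ) = y ^ 5 := by
    rw [← hy10, show y ^ 10 = (y ^ 5) ^ 2 by ring, Real.sqrt_sq (by positivity)]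
  rw [hsq]
  -- the cut
  obtain ⟨r, hr⟩ : ∃ x : ℝ, x = 1 / y ^ 4 := ⟨_, rfl⟩
  have hr0 : 0 < r := by rw [hr]; positivity
  have hr1 : r ≤ 1 := by rw [hr, div_le_one (by positivity)]; exact one_le_pow₀ hy1
  obtain ⟨τ, hτ⟩ : ∃ x : ℝ, x = σ * r := ⟨_, rfl⟩
  have hτ0 : 0 < τ := by rw [hτ]; positivity
  have hτK : τ ≤ KK * σ := by rw [hτ, hKK]; nlinarith
  have hσr : σ ≤ r := by
    rw [hr, le_div_iff₀ (by positivity)]
    have h1 : y ^ 4 ≤ y ^ 10 := pow_le_pow_right₀ hy1 (by norm_num)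
    have h2 : (l:ℝ) ≤ 5 ^ l := by
      have : l ≤ 5 ^ l := (Nat.lt_pow_self (by norm_num)).le
      exact_mod_cast this
    rw [hy10] at h1
    have : σ * y ^ 4 ≤ σ * 5 ^ l := mul_le_mul_of_nonneg_left (h1.trans h2) hσ.le
    linarith
  have hσ1 : σ ≤ 1 := hσr.trans hr1
  obtain ⟨V, hV⟩ : ∃ x : ℝ, x = VV B A σ := ⟨_, rfl⟩
  have hV0 : 0 ≤ V := by rw [hV]; exact VV_nonneg _ _ _
  set F : ℝ → ℂ := fun t => h t * (Psi B A σ t * ee (-(nu B A σ * t))) with hF
  set G : ℝ → ℝ := fun t => exp (-(2 * π ^ 2 * V * t ^ 2)) with hG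
  have hFc : Continuous F := by
    rw [hF]
    exact hcont.mul ((continuous_Psi _ _ _).mul (continuous_ee.comp (by fun_prop)))
  have hGc : Continuous G := by rw [hG]; fun_prop
  have hFi : ∀ a b, IntervalIntegrable F volume a b := fun a b => hFc.intervalIntegrable a b
  have hGi : ∀ a b, IntervalIntegrable G volume a b := fun a b => hGc.intervalIntegrable a b
  have hFn : ∀ t, ‖F t‖ = ‖h t‖ * ‖Psi B A σ t‖ := by
    intro t; rw [hF]; simp only; rw [norm_mul, norm_mul, norm_ee, mul_one]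
  refine ⟨∫ t in (-τ)..τ, G t, ?_, ?_⟩
  · -- lower bound
    obtain ⟨s, hs⟩ : ∃ x : ℝ, x = σ / y ^ 5 := ⟨_, rfl⟩
    have hs0 : 0 < s := by rw [hs]; positivity
    have hsτ : s ≤ τ := by
      rw [hs, hτ, hr, mul_one_div]
      exact div_le_div_of_nonneg_left hσ.le (by positivity) (pow_le_pow_right₀ hy1 (by norm_num))
    have hG0 : ∀ t, 0 ≤ G t := fun t => (exp_pos _).le
    have e1 : ∫ t in (-τ)..τ, G t = (∫ t in (-τ)..(-s), G t) + (∫ t in (-s)..s, G t) + ∫ t in s..τ, G t := by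
      rw [intervalIntegral.integral_add_adjacent_intervals (hGi _ _) (hGi _ _),
        intervalIntegral.integral_add_adjacent_intervals (hGi _ _) (hGi _ _)]
    have e2 : 0 ≤ ∫ t in (-τ)..(-s), G t :=
      intervalIntegral.integral_nonneg (by linarith) (fun t _ => hG0 t)
    have e3 : 0 ≤ ∫ t in s..τ, G t :=
      intervalIntegral.integral_nonneg hsτ (fun t _ => hG0 t)
    have hVs : V * s ^ 2 ≤ 30 := by
      have h1 := VV_le (A := A) hσ hl' hB
      rw [← hV] at h1
      have h2 : V * s ^ 2 = V * σ ^ 2 / l := by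
        rw [hs, div_pow, ← hy10]; ring
      rw [h2, div_le_iff₀ (by linarith)]
      linarith
    have e4 : ∫ t in (-s)..s, exp (-600) ≤ ∫ t in (-s)..s, G t := by
      apply intervalIntegral.integral_mono_on (by linarith) (intervalIntegrable_const) (hGi _ _)
      intro t ht
      rw [hG]; simp only
      apply Real.exp_le_exp.mpr
      have h1 : t ^ 2 ≤ s ^ 2 := by
        apply sq_le_sq'
        · exact ht.1
        · exact ht.2
      have h2 : V * t ^ 2 ≤ 30 := (mul_le_mul_of_nonneg_left h1 hV0).trans hVs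
      have h3 : π ^ 2 ≤ 10 := by
        have : π ≤ 3.15 := by have := pi_lt_d2; linarith
        nlinarith [pi_pos]
      have h4 : 0 ≤ V * t ^ 2 := by positivity
      nlinarith [mul_le_mul h3 h2 h4 (by norm_num : (0:ℝ) ≤ 10)]
    rw [intervalIntegral.integral_const, smul_eq_mul] at e4
    have e5 : exp (-2000) * s ≤ (s - -s) * exp (-600) := by
      have : exp (-2000) ≤ exp (-600) := Real.exp_le_exp.mpr (by norm_num)
      have h0 := exp_pos (-600)
      nlinarith
    rw [← hs]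
    linarith
  · -- error
    have e1 : ∫ t in (-(KK * σ))..(KK * σ), F t = (∫ t in (-(KK * σ))..(-τ), F t) +
        (∫ t in (-τ)..τ, F t) + ∫ t in τ..(KK * σ), F t := by
      rw [intervalIntegral.integral_add_adjacent_intervals (hFi _ _) (hFi _ _),
        intervalIntegral.integral_add_adjacent_intervals (hFi _ _) (hFi _ _)]
    have hz0 : 0 < y ^ 2 / 1800000000 := by positivity
    obtain ⟨T, hT⟩ : ∃ x : ℝ, x = (1 + H * (KK + 1)) * (6 / (y ^ 2 / 1800000000) ^ 3) := ⟨_, rfl⟩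
    have hT0 : 0 ≤ T := by rw [hT, hKK]; positivity
    have htail : ∀ t, τ ≤ |t| → |t| ≤ KK * σ → ‖F t‖ ≤ T := by
      intro t ht1 ht2
      rw [hFn]
      have h1 : ‖h t‖ ≤ 1 + H * (KK + 1) := by
        have a1 := hh t ht2
        have a2 : ‖h t‖ ≤ ‖h t - 1‖ + 1 := by
          have := norm_add_le (h t - 1) 1
          simpa using this
        have a3 : |t| / σ ≤ KK := by rw [div_le_iff₀ hσ]; exact ht2
        have a4 : H * (|t| / σ + σ) ≤ H * (KK + 1) := mul_le_mul_of_nonneg_left (by linarith) hH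
        linarith
      have h2 := Psi_decay hσ hl (by omega : l ≤ B) hA ht2
      have h3 : exp (-(((l - 5 : ℕ) : ℝ) * ((t / σ) ^ 2 / 900000000))) ≤ 6 / (y ^ 2 / 1800000000) ^ 3 := by
        refine le_trans (Real.exp_le_exp.mpr ?_) (exp_neg_le_cube hz0)
        apply neg_le_neg
        have a1 : (l:ℝ) / 2 ≤ ((l - 5 : ℕ) : ℝ) := by
          rw [Nat.cast_sub (by omega)]; push_cast; linarith
        have a2 : r ^ 2 ≤ (t / σ) ^ 2 := by
          have : r ≤ |t / σ| := by
            rw [abs_div, abs_of_pos hσ, le_div_iff₀ hσ]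
            rw [hτ] at ht1; linarith
          rw [← sq_abs (t / σ)]
          exact pow_le_pow_left₀ hr0.le this 2
        have a3 : (l:ℝ) / 2 * (r ^ 2 / 900000000) = y ^ 2 / 1800000000 := by
          rw [← hy10, hr]; field_simp; norm_num
        rw [← a3]
        apply mul_le_mul a1 _ (by positivity) (by positivity)
        linarith
      rw [hT]
      exact mul_le_mul h1 (h2.trans h3) (norm_nonneg _) (by rw [hKK]; positivity)
    have t1 : ‖∫ t in (-(KK * σ))..(-τ), F t‖ ≤ T * (KK * σ) := by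
      have := intervalIntegral.norm_integral_le_of_norm_le_const (a := -(KK * σ)) (b := -τ) (C := T) (f := F)
        (fun t ht => by
          rw [Set.uIoc_of_le (by linarith)] at ht
          have ht0 : |t| = -t := abs_of_nonpos (by linarith [ht.2])
          exact htail t (by rw [ht0]; linarith [ht.2]) (by rw [ht0]; linarith [ht.1]))
      refine this.trans ?_
      apply mul_le_mul_of_nonneg_left _ (by positivity)
      rw [abs_of_nonneg (by linarith)]; linarith
    have t2 : ‖∫ t in τ..(KK * σ), F t‖ ≤ T * (KK * σ) := by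
      have := intervalIntegral.norm_integral_le_of_norm_le_const (a := τ) (b := KK * σ) (C := T) (f := F)
        (fun t ht => by
          rw [Set.uIoc_of_le hτK] at ht
          have ht0 : |t| = t := abs_of_nonneg (by linarith [ht.1])
          exact htail t (by rw [ht0]; linarith [ht.1]) (by rw [ht0]; linarith [ht.2]))
      refine this.trans ?_
      apply mul_le_mul_of_nonneg_left _ (by positivity)
      rw [abs_of_nonneg (by linarith)]; linarith
    obtain ⟨Cm, hCm⟩ : ∃ x : ℝ, x = 2 * H * r + 1000000 * (1 / y ^ 2) := ⟨_, rfl⟩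
    have hCm0 : 0 ≤ Cm := by rw [hCm]; positivity
    have hmid : ∀ t, |t| ≤ τ → ‖F t - (G t : ℂ)‖ ≤ Cm := by
      intro t ht
      have htK : |t| ≤ KK * σ := ht.trans hτK
      have a1 := hh t htK
      have a2 := Psi_central (t := t) (A := A) hσ hl' hB (by omega : 1 ≤ l)
      rw [← hV] at a2
      have hx : |t| / σ ≤ r := by rw [div_le_iff₀ hσ]; rw [hτ] at ht; linarith
      have hx0 : 0 ≤ |t| / σ := by positivity
      have e : F t - (G t : ℂ) = (h t - 1) * (Psi B A σ t * ee (-(nu B A σ * t))) +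
          (Psi B A σ t * ee (-(nu B A σ * t)) - (G t : ℂ)) := by rw [hF]; ring
      rw [e]
      refine (norm_add_le _ _).trans ?_
      have b1 : ‖(h t - 1) * (Psi B A σ t * ee (-(nu B A σ * t)))‖ ≤ 2 * H * r := by
        rw [norm_mul, norm_mul, norm_ee, mul_one, norm_Psi]
        calc ‖h t - 1‖ * WW B A σ t ≤ H * (|t| / σ + σ) * 1 :=
              mul_le_mul a1 (WW_le_one _ _ _ _) (WW_nonneg _ _ _ _) (by positivity)
          _ ≤ H * (r + r) * 1 := by gcongr
          _ = _ := by ring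
      have b2 : 1000000 * (l:ℝ) * (|t| / σ) ^ 3 ≤ 1000000 * (1 / y ^ 2) := by
        have : (|t| / σ) ^ 3 ≤ r ^ 3 := pow_le_pow_left₀ hx0 hx 3
        have h3 : (l:ℝ) * r ^ 3 = 1 / y ^ 2 := by
          rw [← hy10, hr]; field_simp
        rw [← h3]
        calc 1000000 * (l:ℝ) * (|t| / σ) ^ 3 ≤ 1000000 * (l:ℝ) * r ^ 3 :=
              mul_le_mul_of_nonneg_left this (by positivity)
          _ = _ := by ring
      have b3 : ‖Psi B A σ t * ee (-(nu B A σ * t)) - (G t : ℂ)‖ ≤ 1000000 * (l:ℝ) * (|t| / σ) ^ 3 := a2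
      linarith
    have t3 : ‖(∫ t in (-τ)..τ, F t) - ((∫ t in (-τ)..τ, G t : ℝ) : ℂ)‖ ≤ Cm * (2 * τ) := by
      have e2 : ((∫ t in (-τ)..τ, G t : ℝ) : ℂ) = ∫ t in (-τ)..τ, (G t : ℂ) :=
        (intervalIntegral.integral_ofReal).symm
      have hGic : IntervalIntegrable (fun t => (G t : ℂ)) volume (-τ) τ :=
        (Complex.continuous_ofReal.comp hGc).intervalIntegrable _ _
      rw [e2, ← intervalIntegral.integral_sub (hFi _ _) hGic]
      have := intervalIntegral.norm_integral_le_of_norm_le_const (a := -τ) (b := τ) (C := Cm)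
        (f := fun t => F t - (G t : ℂ))
        (fun t ht => by
          rw [Set.uIoc_of_le (by linarith)] at ht
          exact hmid t (abs_le.mpr ⟨by linarith [ht.1], ht.2⟩))
      refine this.trans ?_
      rw [abs_of_nonneg (by linarith)]
      apply le_of_eq; ring
    rw [e1]
    have e3 : ((∫ t in (-(KK * σ))..(-τ), F t) + (∫ t in (-τ)..τ, F t) + ∫ t in τ..(KK * σ), F t) -
        ((∫ t in (-τ)..τ, G t : ℝ) : ℂ) = (∫ t in (-(KK * σ))..(-τ), F t) + (∫ t in τ..(KK * σ), F t) +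
        ((∫ t in (-τ)..τ, F t) - ((∫ t in (-τ)..τ, G t : ℝ) : ℂ)) := by ring
    rw [e3]
    refine (norm_add_le _ _).trans ?_
    refine (add_le_add (norm_add_le _ _) le_rfl).trans ?_
    -- numeric
    have n1 : Cm * (2 * τ) ≤ (ε / 2) * (σ / y ^ 5) := by
      have c1 : (4 * H + 2000000) / y ≤ ε / 2 := by
        rw [div_le_iff₀ hypos]
        have : 2 * (4 * H + 2000000) / ε ≤ y := by
          refine le_trans ?_ hyy0
          rw [hy0]
          have : 0 ≤ 2 * C7 / ε := by positivity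
          linarith
        rw [div_le_iff₀ hε] at this
        linarith
      have c2 : Cm * (2 * τ) = (4 * H / y ^ 3 + 2000000 / y) * (σ / y ^ 5) := by
        rw [hCm, hτ, hr]; field_simp; ring
      rw [c2]
      apply mul_le_mul_of_nonneg_right _ (by positivity)
      refine le_trans ?_ c1
      rw [add_div]
      have : 4 * H / y ^ 3 ≤ 4 * H / y := by
        apply div_le_div_of_nonneg_left (by positivity) hypos
        calc y = y ^ 1 := (pow_one y).symm
          _ ≤ y ^ 3 := pow_le_pow_right₀ hy1 (by norm_num)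
      linarith
    have n2 : T * (KK * σ) + T * (KK * σ) ≤ (ε / 2) * (σ / y ^ 5) := by
      have c1 : C7 / y ≤ ε / 2 := by
        rw [div_le_iff₀ hypos]
        have : 2 * C7 / ε ≤ y := by
          refine le_trans ?_ hyy0
          rw [hy0]
          have : 0 ≤ 2 * (4 * H + 2000000) / ε := by positivity
          linarith
        rw [div_le_iff₀ hε] at this
        linarith
      have c2 : T * (KK * σ) + T * (KK * σ) = (C7 / y) * (σ / y ^ 5) := by
        rw [hT, hC7]; field_simp; ring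
      rw [c2]
      exact mul_le_mul_of_nonneg_right c1 (by positivity)
    linarith

end R398.DS
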