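import Pool.Agent.R398.DS.Trig

namespace R398.DS

open Real

noncomputable def KK : ℝ := 5000
noncomputable def dl : ℝ := 1 / 2000

lemma prod_le_prod_subset {ι : Type*} [DecidableEq ι] {s t : Finset ι} (h : s ⊆ t) (f : ι → ℝ)
    (h0 : ∀ i, 0 ≤ f i) (h1 : ∀ i, f i ≤ 1) : ∏ i ∈ t, f i ≤ ∏ i ∈ s, f i := by
  rw [← Finset.prod_sdiff h]
  calc (∏ i ∈ t \ s, f i) * ∏ i ∈ s, f i ≤ 1 * ∏ i ∈ s, f i :=
        mul_le_mul_of_nonneg_right (Finset.prod_le_one (fun i _ => h0 i) (fun i _ => h1 i))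
          (Finset.prod_nonneg (fun i _ => h0 i))
    _ = _ := one_mul _

lemma exists_scale {θ σ : ℝ} {m : ℕ} (hθ : KK * σ ≤ dZ θ) (hm : dl < 5 ^ (m + 1) * σ) :
    ∃ b0 < m, 1 / 10 ≤ dZ (5 ^ b0 * θ) := by
  by_contra h
  push Not at h
  have key : ∀ k ≤ m, dZ (5 ^ k * θ) = 5 ^ k * dZ θ := by
    intro k
    induction k with
    | zero => intro _; simp
    | succ k ih =>
      intro hk
      have h1 := ih (by omega)
      have h2 := h k (by omega)
      have h3 : (5:ℝ) ^ (k + 1) * θ = 5 * (5 ^ k * θ) := by ring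
      rw [h3, dZ_five_mul h2, h1]; ring
  have h1 := key m le_rfl
  have h2 := dZ_le_half (5 ^ m * θ)
  rw [h1] at h2
  have h3 : (5:ℝ) ^ m * (KK * σ) ≤ 5 ^ m * dZ θ := mul_le_mul_of_nonneg_left hθ (by positivity)
  unfold KK at h3
  unfold dl at hm
  rw [pow_succ] at hm
  nlinarith

lemma two_mul_bd {w1 w2 c1 c2 ε : ℝ} (hw1 : w1 ≤ c1 + ε) (hw2 : w2 ≤ c2 + ε) (h1 : 0 ≤ w1)
    (h2 : 0 ≤ w2) (h2' : w2 ≤ 1) (hc1 : 0 ≤ c1) (hc1' : c1 ≤ 1) (hε : 0 ≤ ε) :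
    w1 * w2 ≤ c1 * c2 + 2 * ε := by
  nlinarith [mul_le_mul_of_nonneg_right hw1 h2, mul_le_mul_of_nonneg_left hw2 hc1]

/-- Claim 1 -/
lemma pair_bound {θ σ : ℝ} {m B : ℕ} (hσ : 0 < σ) (hB : m + 1 ≤ B) (hθ : KK * σ ≤ dZ θ)
    (hm1 : 5 ^ m * σ ≤ dl) (hm : dl < 5 ^ (m + 1) * σ) :
    CC B σ θ * CC B (3 * σ) (3 * θ) ≤ 378 / 1000 := by
  obtain ⟨b0, hb0, hy⟩ := exists_scale hθ hm
  set y := 5 ^ b0 * θ with hyd
  have hsub : ({b0, b0 + 1} : Finset ℕ) ⊆ Finset.range B := by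
    intro x hx
    simp only [Finset.mem_insert, Finset.mem_singleton] at hx
    rw [Finset.mem_range]; omega
  have hne : b0 ≠ b0 + 1 := by omega
  have e1 : CC B σ θ ≤ w (σ * 5 ^ b0) y * w (σ * 5 ^ (b0 + 1)) (5 * y) := by
    have := prod_le_prod_subset hsub (fun b => w (σ * 5 ^ b) (5 ^ b * θ)) (fun _ => w_nonneg _ _)
      (fun _ => w_le_one _ _)
    rw [Finset.prod_pair hne] at this
    have e : (5:ℝ) ^ (b0 + 1) * θ = 5 * y := by rw [hyd]; ring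
    rw [e] at this
    exact this
  have e2 : CC B (3 * σ) (3 * θ) ≤ w (3 * σ * 5 ^ b0) (3 * y) * w (3 * σ * 5 ^ (b0 + 1)) (15 * y) := by
    have := prod_le_prod_subset hsub (fun b => w (3 * σ * 5 ^ b) (5 ^ b * (3 * θ))) (fun _ => w_nonneg _ _)
      (fun _ => w_le_one _ _)
    rw [Finset.prod_pair hne] at this
    have e : (5:ℝ) ^ (b0 + 1) * (3 * θ) = 15 * y := by rw [hyd]; ring
    have e' : (5:ℝ) ^ b0 * (3 * θ) = 3 * y := by rw [hyd]; ring
    rw [e, e'] at this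
    exact this
  have hp : (5:ℝ) ^ (b0 + 1) ≤ 5 ^ m := pow_le_pow_right₀ (by norm_num) (by omega)
  have hp0 : (5:ℝ) ^ b0 ≤ 5 ^ m := pow_le_pow_right₀ (by norm_num) (by omega)
  have hs1 : σ * 5 ^ (b0 + 1) ≤ dl := by nlinarith
  have hs0 : σ * 5 ^ b0 ≤ dl := by nlinarith
  have hs1' : 0 ≤ σ * 5 ^ (b0 + 1) := by positivity
  have hs0' : 0 ≤ σ * 5 ^ b0 := by positivity
  have hdl : dl = 1 / 2000 := rfl
  have w1 := w_le_cos_add hs0' y
  have w2 := w_le_cos_add hs1' (5 * y)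
  have w3 := w_le_cos_add (u := 3 * σ * 5 ^ b0) (by positivity) (3 * y)
  have w4 := w_le_cos_add (u := 3 * σ * 5 ^ (b0 + 1)) (by positivity) (15 * y)
  have hε : (0:ℝ) ≤ 3 / 2000 := by norm_num
  have p1 : w (σ * 5 ^ b0) y * w (σ * 5 ^ (b0 + 1)) (5 * y) ≤
      |cos (π * y)| * |cos (π * (5 * y))| + 2 * (3 / 2000) :=
    two_mul_bd (by linarith) (by linarith) (w_nonneg _ _) (w_nonneg _ _) (w_le_one _ _)
      (abs_nonneg _) (abs_cos_le_one _) hε
  have p2 : w (3 * σ * 5 ^ b0) (3 * y) * w (3 * σ * 5 ^ (b0 + 1)) (15 * y) ≤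
      |cos (π * (3 * y))| * |cos (π * (15 * y))| + 2 * (3 / 2000) :=
    two_mul_bd (by nlinarith) (by nlinarith) (w_nonneg _ _) (w_nonneg _ _) (w_le_one _ _)
      (abs_nonneg _) (abs_cos_le_one _) hε
  have hc : (|cos (π * y)| * |cos (π * (5 * y))|) ≤ 1 :=
    mul_le_one₀ (abs_cos_le_one _) (abs_nonneg _) (abs_cos_le_one _)
  have p3 := two_mul_bd (w1 := CC B σ θ) (w2 := CC B (3 * σ) (3 * θ)) (ε := 2 * (3 / 2000))
    (e1.trans p1) (e2.trans p2) (CC_nonneg _ _ _) (CC_nonneg _ _ _) (CC_le_one _ _ _)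
    (by positivity) hc (by norm_num)
  have p4 := cos4_bound hy
  linarith

/-! ### rational points -/

lemma abs_cos_pi (x : ℝ) : |cos (π * x)| = cos (π * dZ x) := by
  set t := x - round x with ht
  have h1 : dZ x = |t| := rfl
  have h2 : π * x = π * t + (round x : ℤ) * π := by rw [ht]; ring
  have ht2 : |t| ≤ 1 / 2 := dZ_le_half x
  rw [h2, Real.cos_add_int_mul_pi, abs_mul, abs_neg_one_zpow, one_mul, h1]
  have h3 : cos (π * t) = cos (π * |t|) := by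
    rcases abs_cases t with h | h
    · rw [h.1]
    · rw [h.1, show π * -t = -(π * t) by ring, cos_neg]
  rw [h3, abs_of_nonneg]
  apply cos_nonneg_of_neg_pi_div_two_le_of_le
  · have := abs_nonneg t; nlinarith [pi_pos]
  · nlinarith [pi_pos]

lemma dZ_rat {N : ℕ} (hN : 0 < N) {k : ℤ} (hk : ¬ (N : ℤ) ∣ k) : 1 / (N : ℝ) ≤ dZ ((k : ℝ) / N) := by
  have hN' : (0:ℝ) < N := by exact_mod_cast hN
  unfold dZ
  set r := round ((k : ℝ) / N) with hr
  have h1 : (k : ℝ) / N - r = ((k - N * r : ℤ) : ℝ) / N := by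
    push_cast; field_simp
  rw [h1, abs_div, abs_of_pos hN']
  apply div_le_div_of_nonneg_right _ hN'.le
  have h2 : k - N * r ≠ 0 := by
    intro h
    exact hk ⟨r, by linarith⟩
  have h3 : (1:ℤ) ≤ |k - N * r| := Int.one_le_abs h2
  exact_mod_cast h3

lemma abs_cos_rat {N : ℕ} (hN : 0 < N) {k : ℤ} (hk : ¬ (N : ℤ) ∣ k) :
    |cos (π * ((k : ℝ) / N))| ≤ cos (π / N) := by
  rw [abs_cos_pi]
  have h1 := dZ_rat hN hk
  apply cos_le_cos_of_nonneg_of_le_pi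
  · positivity
  · have := dZ_le_half ((k : ℝ) / N); nlinarith [pi_pos]
  · calc π / N = π * (1 / N) := by ring
      _ ≤ _ := mul_le_mul_of_nonneg_left h1 pi_pos.le

lemma abs_cos_add_le (a h : ℝ) : |cos (a + h)| ≤ |cos a| + |h| := by
  rw [cos_add]
  calc |cos a * cos h - sin a * sin h| ≤ |cos a * cos h| + |sin a * sin h| := abs_sub _ _
    _ ≤ |cos a| * 1 + 1 * |h| := by
      rw [abs_mul, abs_mul]
      have h1 : |sin h| ≤ |h| := abs_sin_le_abs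
      gcongr
      · exact abs_cos_le_one _
      · exact abs_sin_le_one _
    _ = _ := by ring

lemma cos_pi_div_le {N : ℕ} (hN : 1 ≤ N) : cos (π / N) ≤ 1 - 2 / (N : ℝ) ^ 2 := by
  have hN' : (1:ℝ) ≤ N := by exact_mod_cast hN
  have h := cos_le_one_sub_mul_cos_sq (x := π / N) (by
    rw [abs_of_nonneg (by positivity)]
    exact div_le_self pi_pos.le hN')
  refine h.trans_eq ?_
  have := pi_ne_zero
  field_simp

lemma geom5 (m : ℕ) : ∑ b ∈ Finset.range (m + 1), (5:ℝ) ^ b ≤ 2 * 5 ^ m := by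
  induction m with
  | zero => norm_num
  | succ m ih =>
    rw [Finset.sum_range_succ, pow_succ]
    have : (0:ℝ) < 5 ^ m := by positivity
    linarith

lemma CC_near {N : ℕ} (hN : 0 < N) {ρ : ℝ} (hcos : cos (π / N) ≤ ρ) (hρ : 1 / 2 ≤ ρ) {k : ℤ}
    (hk : ∀ b : ℕ, ¬ (N : ℤ) ∣ 5 ^ b * k) {σ σ' t : ℝ} (h1 : 0 ≤ σ') (h1' : σ' ≤ 9 * σ)
    (h2 : |t| ≤ 9 * KK * σ) {m B : ℕ} (hB : m + 1 ≤ B) (hm : 5 ^ m * σ ≤ dl) :
    CC B σ' (k / N + t) ≤ ρ ^ (m + 1) * exp 300000 := by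
  have hσ : 0 ≤ σ := by linarith
  have hN' : (0:ℝ) < N := by exact_mod_cast hN
  have hsub : Finset.range (m + 1) ⊆ Finset.range B := Finset.range_subset_range.mpr hB
  have e1 := prod_le_prod_subset hsub (fun b => w (σ' * 5 ^ b) (5 ^ b * (k / N + t)))
    (fun _ => w_nonneg _ _) (fun _ => w_le_one _ _)
  have e2 : ∀ b ∈ Finset.range (m + 1), w (σ' * 5 ^ b) (5 ^ b * (k / N + t)) ≤
      ρ * exp (300000 * (σ * 5 ^ b)) := by
    intro b _
    have a1 := w_le_cos_add (u := σ' * 5 ^ b) (by positivity) (5 ^ b * (k / N + t))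
    have a2 : π * (5 ^ b * ((k:ℝ) / N + t)) = π * (((5 ^ b * k : ℤ) : ℝ) / N) + π * (5 ^ b * t) := by
      push_cast; ring
    rw [a2] at a1
    have a3 := abs_cos_add_le (π * (((5 ^ b * k : ℤ) : ℝ) / N)) (π * (5 ^ b * t))
    have a4 := abs_cos_rat hN (hk b)
    have a5 : |π * (5 ^ b * t)| ≤ π * (5 ^ b * (9 * KK * σ)) := by
      rw [abs_mul, abs_mul, abs_of_pos pi_pos, abs_of_pos (by positivity : (0:ℝ) < 5 ^ b)]
      gcongr
    have a6 : σ' * 5 ^ b ≤ 9 * σ * 5 ^ b := by gcongr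
    have a7 : π ≤ 3.15 := by have := pi_lt_d2; linarith
    have a8 : w (σ' * 5 ^ b) (5 ^ b * (k / N + t)) ≤ ρ + 150000 * (σ * 5 ^ b) := by
      have hX : 0 ≤ σ * 5 ^ b := by positivity
      have : π * (5 ^ b * (9 * KK * σ)) ≤ 141750 * (σ * 5 ^ b) := by
        unfold KK
        nlinarith
      linarith
    have a9 := Real.add_one_le_exp (300000 * (σ * 5 ^ b))
    have hX : 0 ≤ σ * 5 ^ b := by positivity
    have a10 : ρ + 150000 * (σ * 5 ^ b) ≤ ρ * (300000 * (σ * 5 ^ b) + 1) := by nlinarith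
    have a11 : ρ * (300000 * (σ * 5 ^ b) + 1) ≤ ρ * exp (300000 * (σ * 5 ^ b)) :=
      mul_le_mul_of_nonneg_left a9 (by linarith)
    linarith
  have e3 : ∏ b ∈ Finset.range (m + 1), w (σ' * 5 ^ b) (5 ^ b * (k / N + t)) ≤
      ∏ b ∈ Finset.range (m + 1), (ρ * exp (300000 * (σ * 5 ^ b))) :=
    Finset.prod_le_prod (fun _ _ => w_nonneg _ _) e2
  have e4 : ∏ b ∈ Finset.range (m + 1), (ρ * exp (300000 * (σ * 5 ^ b))) =
      ρ ^ (m + 1) * exp (300000 * (σ * ∑ b ∈ Finset.range (m + 1), 5 ^ b)) := by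
    rw [Finset.prod_mul_distrib, Finset.prod_const, Finset.card_range, ← Real.exp_sum,
      Finset.mul_sum, Finset.mul_sum]
  have e5 : σ * ∑ b ∈ Finset.range (m + 1), (5:ℝ) ^ b ≤ 1 := by
    have := mul_le_mul_of_nonneg_left (geom5 m) hσ
    unfold dl at hm
    linarith
  calc CC B σ' (k / N + t) ≤ _ := e1
    _ ≤ _ := e3
    _ = _ := e4
    _ ≤ ρ ^ (m + 1) * exp 300000 := by
      apply mul_le_mul_of_nonneg_left _ (by positivity)
      apply Real.exp_le_exp.mpr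
      linarith

/-- The region where we are close to `i/27` but not to `i/3`. -/
lemma WW_bad {A B m : ℕ} {σ θ : ℝ} (hσ : 0 < σ) (hB : m + 1 ≤ B)
    (hm : 5 ^ m * σ ≤ dl) (h1 : 3 * KK * σ ≤ dZ (3 * θ)) (h2 : dZ (27 * θ) < 27 * KK * σ) :
    WW B (A + 3) σ θ ≤ exp 600000 * (499 / 1000) ^ (m + 1) := by
  set i := round (27 * θ) with hi
  set t := θ - i / 27 with ht
  have ht1 : |t| < KK * σ := by
    have : |27 * θ - i| < 27 * KK * σ := h2
    have e : 27 * θ - i = 27 * t := by rw [ht]; ring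
    rw [e, abs_mul, abs_of_pos (by norm_num : (0:ℝ) < 27)] at this
    linarith
  have h9 : ¬ (9:ℤ) ∣ i := by
    rintro ⟨j, hj⟩
    have e : 3 * θ - j = 3 * t := by
      rw [ht, hj]; push_cast; ring
    have := dZ_le (3 * θ) j
    rw [e, abs_mul, abs_of_pos (by norm_num : (0:ℝ) < 3)] at this
    linarith
  have c5 : ∀ b : ℕ, IsCoprime (27:ℤ) (5 ^ b) := fun b =>
    IsCoprime.pow_right (by norm_num)
  have c5' : ∀ b : ℕ, IsCoprime (3:ℤ) (5 ^ b) := fun b =>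
    IsCoprime.pow_right (by norm_num)
  have hk27 : ∀ b : ℕ, ¬ ((27:ℕ) : ℤ) ∣ 5 ^ b * i := by
    intro b hb
    have := (c5 b).dvd_of_dvd_mul_left hb
    exact h9 (dvd_trans (by norm_num) this)
  have hK : KK = 5000 := rfl
  have f1 : CC B σ θ ≤ (998 / 1000) ^ (m + 1) * exp 300000 := by
    have := CC_near (N := 27) (by norm_num) (ρ := 998 / 1000)
      ((cos_pi_div_le (by norm_num)).trans (by norm_num)) (by norm_num) hk27 (σ := σ) (σ' := σ) (t := t)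
      hσ.le (by linarith) (by unfold KK at ht1 ⊢; linarith) hB hm
    have e : ((i:ℤ):ℝ) / ((27:ℕ):ℝ) + t = θ := by rw [ht]; push_cast; ring
    rw [e] at this
    exact this
  have hcos3 : cos (π / ((3:ℕ):ℝ)) ≤ 1 / 2 := by
    push_cast; rw [Real.cos_pi_div_three]
  have f2 : CC B (3 * σ) (3 * θ) * CC B (9 * σ) (9 * θ) ≤ (1 / 2) ^ (m + 1) * exp 300000 := by
    by_cases h3 : (3:ℤ) ∣ i
    · obtain ⟨j, hj⟩ := h3
      have hj3 : ¬ (3:ℤ) ∣ j := by
        rintro ⟨l, hl⟩; exact h9 ⟨l, by rw [hj, hl]; ring⟩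
      have hk3 : ∀ b : ℕ, ¬ ((3:ℕ) : ℤ) ∣ 5 ^ b * j := by
        intro b hb
        exact hj3 ((c5' b).dvd_of_dvd_mul_left hb)
      have := CC_near (N := 3) (by norm_num) (ρ := 1 / 2) hcos3 (by norm_num) hk3
        (σ := σ) (σ' := 3 * σ) (t := 3 * t)
        (by linarith) (by linarith) (by rw [abs_mul, abs_of_pos (by norm_num : (0:ℝ) < 3)]; unfold KK at ht1 ⊢; linarith) hB hm
      have e : ((j:ℤ):ℝ) / ((3:ℕ):ℝ) + 3 * t = 3 * θ := by rw [ht, hj]; push_cast; ring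
      rw [e] at this
      calc _ ≤ CC B (3 * σ) (3 * θ) * 1 :=
            mul_le_mul_of_nonneg_left (CC_le_one _ _ _) (CC_nonneg _ _ _)
        _ ≤ _ := by rw [mul_one]; exact this
    · have hk3 : ∀ b : ℕ, ¬ ((3:ℕ) : ℤ) ∣ 5 ^ b * i := by
        intro b hb
        exact h3 ((c5' b).dvd_of_dvd_mul_left hb)
      have := CC_near (N := 3) (by norm_num) (ρ := 1 / 2) hcos3 (by norm_num) hk3
        (σ := σ) (σ' := 9 * σ) (t := 9 * t)
        (by linarith) (by linarith) (by rw [abs_mul, abs_of_pos (by norm_num : (0:ℝ) < 9)]; unfold KK at ht1 ⊢; linarith) hB hm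
      have e : ((i:ℤ):ℝ) / ((3:ℕ):ℝ) + 9 * t = 9 * θ := by rw [ht]; push_cast; ring
      rw [e] at this
      calc _ ≤ 1 * CC B (9 * σ) (9 * θ) :=
            mul_le_mul_of_nonneg_right (CC_le_one _ _ _) (CC_nonneg _ _ _)
        _ ≤ _ := by rw [one_mul]; exact this
  have f3 : WW B (A + 3) σ θ = CC B σ θ * (CC B (3 * σ) (3 * θ) * CC B (9 * σ) (9 * θ)) *
      WW B A (27 * σ) (27 * θ) := by
    rw [WW_succ, WW_succ, WW_succ]
    rw [show 3 * (3 * σ) = 9 * σ by ring, show 3 * (3 * θ) = 9 * θ by ring,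
      show 3 * (9 * σ) = 27 * σ by ring, show 3 * (9 * θ) = 27 * θ by ring]
    ring
  rw [f3]
  calc _ ≤ CC B σ θ * (CC B (3 * σ) (3 * θ) * CC B (9 * σ) (9 * θ)) * 1 :=
        mul_le_mul_of_nonneg_left (WW_le_one _ _ _ _)
          (mul_nonneg (CC_nonneg _ _ _) (mul_nonneg (CC_nonneg _ _ _) (CC_nonneg _ _ _)))
    _ ≤ ((998 / 1000) ^ (m + 1) * exp 300000) * ((1 / 2) ^ (m + 1) * exp 300000) := by
        rw [mul_one]
        exact mul_le_mul f1 f2 (mul_nonneg (CC_nonneg _ _ _) (CC_nonneg _ _ _)) (by positivity)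
    _ = exp 600000 * (499 / 1000) ^ (m + 1) := by
        have : (600000:ℝ) = 300000 + 300000 := by norm_num
        rw [this, Real.exp_add]
        have h' : (499 / 1000 : ℝ) = (998 / 1000) * (1 / 2) := by norm_num
        rw [h', mul_pow]; ring

/-! ### Claim 2: two different preimages -/

lemma cos_pair {x : ℝ} {k : ℤ} (hk : ¬ (9:ℤ) ∣ k) :
    |cos (π * x)| * |cos (π * (x + k / 9))| ≤ 988 / 1000 := by
  rw [← abs_mul]
  have h1 : cos (π * x) * cos (π * (x + k / 9)) =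
      (cos (π * ((k:ℝ) / 9)) + cos (2 * π * x + π * ((k:ℝ) / 9))) / 2 := by
    have e1 : π * ((k:ℝ) / 9) = π * (x + k / 9) - π * x := by ring
    have e2 : 2 * π * x + π * ((k:ℝ) / 9) = π * (x + k / 9) + π * x := by ring
    rw [e2, cos_add]
    conv_rhs => rw [e1, cos_sub]
    ring
  rw [h1]
  have h2 := abs_cos_rat (N := 9) (by norm_num) (k := k) (by exact_mod_cast hk)
  have h3 := cos_pi_div_le (N := 9) (by norm_num)
  push_cast at h2 h3
  have h4 := abs_cos_le_one (2 * π * x + π * ((k:ℝ) / 9))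
  rw [abs_div, abs_of_pos (by norm_num : (0:ℝ) < 2)]
  have h5 := abs_add_le (cos (π * ((k:ℝ) / 9))) (cos (2 * π * x + π * ((k:ℝ) / 9)))
  have h6 : |cos (π * ((k:ℝ) / 9))| ≤ 976 / 1000 := by
    refine h2.trans (h3.trans ?_)
    norm_num
  linarith

lemma CC_pair {σ η : ℝ} {m B i j : ℕ} (hσ : 0 < σ) (hB : m + 1 ≤ B) (hm : 5 ^ m * σ ≤ dl)
    (hi : i < 9) (hj : j < 9) (hij : i ≠ j) :
    CC B σ ((η + i) / 9) * CC B σ ((η + j) / 9) ≤ (99 / 100) ^ (m + 1) := by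
  have hsub : Finset.range (m + 1) ⊆ Finset.range B := Finset.range_subset_range.mpr hB
  have e1 := prod_le_prod_subset hsub (fun b => w (σ * 5 ^ b) (5 ^ b * ((η + i) / 9)))
    (fun _ => w_nonneg _ _) (fun _ => w_le_one _ _)
  have e2 := prod_le_prod_subset hsub (fun b => w (σ * 5 ^ b) (5 ^ b * ((η + j) / 9)))
    (fun _ => w_nonneg _ _) (fun _ => w_le_one _ _)
  have e3 : CC B σ ((η + i) / 9) * CC B σ ((η + j) / 9) ≤
      ∏ b ∈ Finset.range (m + 1), (w (σ * 5 ^ b) (5 ^ b * ((η + i) / 9)) *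
        w (σ * 5 ^ b) (5 ^ b * ((η + j) / 9))) := by
    rw [Finset.prod_mul_distrib]
    exact mul_le_mul e1 e2 (CC_nonneg _ _ _) (Finset.prod_nonneg (fun _ _ => w_nonneg _ _))
  refine e3.trans ?_
  have e4 : ∀ b ∈ Finset.range (m + 1), (w (σ * 5 ^ b) (5 ^ b * ((η + i) / 9)) *
        w (σ * 5 ^ b) (5 ^ b * ((η + j) / 9))) ≤ 99 / 100 := by
    intro b hb
    rw [Finset.mem_range] at hb
    have hp : (5:ℝ) ^ b ≤ 5 ^ m := pow_le_pow_right₀ (by norm_num) (by omega)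
    have hu0 : 0 ≤ σ * 5 ^ b := by positivity
    have hu : σ * 5 ^ b ≤ 1 / 2000 := by
      have : σ * 5 ^ b ≤ σ * 5 ^ m := mul_le_mul_of_nonneg_left hp hσ.le
      unfold dl at hm; linarith
    have w1 := w_le_cos_add hu0 (5 ^ b * ((η + i) / 9))
    have w2 := w_le_cos_add hu0 (5 ^ b * ((η + j) / 9))
    have hk : ¬ (9:ℤ) ∣ 5 ^ b * ((j:ℤ) - i) := by
      intro h
      have c5 : IsCoprime (9:ℤ) (5 ^ b) := IsCoprime.pow_right (by norm_num)
      have h' := c5.dvd_of_dvd_mul_left h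
      omega
    have c := cos_pair (x := 5 ^ b * ((η + i) / 9)) hk
    have e : 5 ^ b * ((η + i) / 9) + ((5 ^ b * ((j:ℤ) - i) : ℤ) : ℝ) / 9 = 5 ^ b * ((η + j) / 9) := by
      push_cast; ring
    rw [e] at c
    have := two_mul_bd (c1 := |cos (π * (5 ^ b * ((η + i) / 9)))|) (c2 := |cos (π * (5 ^ b * ((η + j) / 9)))|)
      (ε := 1 / 2000) (by linarith) (by linarith) (w_nonneg (σ * 5 ^ b) (5 ^ b * ((η + i) / 9)))
      (w_nonneg (σ * 5 ^ b) (5 ^ b * ((η + j) / 9))) (w_le_one _ _) (abs_nonneg _) (abs_cos_le_one _) (by norm_num)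
    linarith
  calc _ ≤ ∏ _b ∈ Finset.range (m + 1), (99 / 100 : ℝ) :=
        Finset.prod_le_prod (fun _ _ => mul_nonneg (w_nonneg _ _) (w_nonneg _ _)) e4
    _ = _ := by rw [Finset.prod_const, Finset.card_range]

lemma pow99 {m : ℕ} (hm : 2000 ≤ m) : (99 / 100 : ℝ) ^ (m + 1) ≤ (1 / 4000) ^ 2 := by
  have h1 : (99 / 100 : ℝ) ^ (m + 1) ≤ (99 / 100) ^ 2000 :=
    pow_le_pow_of_le_one (by norm_num) (by norm_num) (by omega)
  have h2 : (99 / 100 : ℝ) ^ 70 ≤ 1 / 2 := by norm_num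
  have h3 : (99 / 100 : ℝ) ^ 2000 ≤ ((99 / 100) ^ 70) ^ 28 := by
    rw [← pow_mul]; exact pow_le_pow_of_le_one (by norm_num) (by norm_num) (by norm_num)
  have h4 : ((99 / 100 : ℝ) ^ 70) ^ 28 ≤ (1 / 2) ^ 28 := pow_le_pow_left₀ (by positivity) h2 _
  have h5 : (1 / 2 : ℝ) ^ 28 ≤ (1 / 4000) ^ 2 := by norm_num
  exact h1.trans (h3.trans (h4.trans h5))

/-- the sum over the nine preimages -/
lemma sum_nine {σ η : ℝ} {m B : ℕ} (hσ : 0 < σ) (hB : m + 1 ≤ B) (hm : 5 ^ m * σ ≤ dl)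
    (hm' : dl < 5 ^ (m + 1) * σ) (hm2 : 2000 ≤ m) (hη : 27 * KK * σ ≤ dZ (3 * η)) :
    ∑ i ∈ Finset.range 9, CC B σ ((η + i) / 9) * CC B (3 * σ) (3 * ((η + i) / 9)) ≤ 38 / 100 := by
  have hG : ∀ i : ℕ, CC B σ ((η + i) / 9) * CC B (3 * σ) (3 * ((η + i) / 9)) ≤ 378 / 1000 := by
    intro i
    apply pair_bound hσ hB _ hm hm'
    have h1 : dZ (27 * ((η + i) / 9)) = dZ (3 * η) := by
      have e : 27 * ((η + (i:ℝ)) / 9) = 3 * η + ((3 * i : ℤ) : ℝ) := by push_cast; ring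
      rw [e, dZ_add_int]
    have h2 := dZ_mul_nat_le 27 ((η + i) / 9)
    push_cast at h2
    rw [h1] at h2
    linarith
  have hle : ∀ i : ℕ, CC B σ ((η + i) / 9) * CC B (3 * σ) (3 * ((η + i) / 9)) ≤ CC B σ ((η + i) / 9) := by
    intro i
    calc _ ≤ CC B σ ((η + i) / 9) * 1 := mul_le_mul_of_nonneg_left (CC_le_one _ _ _) (CC_nonneg _ _ _)
      _ = _ := mul_one _
  by_cases h : ∃ i ∈ Finset.range 9, 1 / 4000 < CC B σ ((η + i) / 9)
  · obtain ⟨i, hi, hq⟩ := h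
    rw [← Finset.add_sum_erase _ _ hi]
    have h1 : ∀ j ∈ (Finset.range 9).erase i,
        CC B σ ((η + j) / 9) * CC B (3 * σ) (3 * ((η + j) / 9)) ≤ 1 / 4000 := by
      intro j hj
      rw [Finset.mem_erase, Finset.mem_range] at hj
      refine (hle j).trans ?_
      have h2 := CC_pair (η := η) hσ hB hm (Finset.mem_range.mp hi) hj.2 (Ne.symm hj.1)
      have h3 := pow99 hm2
      have h4 : CC B σ ((η + i) / 9) * CC B σ ((η + j) / 9) ≤ (1 / 4000) ^ 2 := h2.trans h3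
      by_contra h5
      push Not at h5
      have : (1 / 4000 : ℝ) ^ 2 < CC B σ ((η + i) / 9) * CC B σ ((η + j) / 9) := by
        rw [sq]
        exact mul_lt_mul'' hq h5 (by norm_num) (by norm_num)
      linarith
    have h6 := Finset.sum_le_card_nsmul _ _ _ h1
    have h7 : ((Finset.range 9).erase i).card = 8 := by
      rw [Finset.card_erase_of_mem hi, Finset.card_range]
    rw [h7] at h6
    have := hG i
    simp only [nsmul_eq_mul] at h6
    norm_num at h6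
    linarith
  · push Not at h
    have h1 : ∀ j ∈ (Finset.range 9),
        CC B σ ((η + j) / 9) * CC B (3 * σ) (3 * ((η + j) / 9)) ≤ 1 / 4000 :=
      fun j hj => (hle j).trans (h j hj)
    have h6 := Finset.sum_le_card_nsmul _ _ _ h1
    rw [Finset.card_range] at h6
    simp only [nsmul_eq_mul] at h6
    refine h6.trans ?_
    norm_num

end R398.DS
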