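import Pool.Agent.R398.DS.Transfer

namespace R398.DS

open Real

noncomputable def mm (x : ℝ) : ℝ := min x x⁻¹

lemma mm_tele {y q : ℝ} (hy : 0 < y) (hq : 3 ≤ q) :
    mm y ≤ 4 * (y * q) / (1 + y * q) - 4 * y / (1 + y) := by
  have h1 : 0 < 1 + y * q := by positivity
  have h2 : 0 < 1 + y := by positivity
  have e : 4 * (y * q) / (1 + y * q) - 4 * y / (1 + y) = 4 * y * (q - 1) / ((1 + y * q) * (1 + y)) := by
    field_simp; ring
  rw [e]
  rcases le_or_gt y 1 with h | h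
  · refine (min_le_left _ _).trans ?_
    rw [le_div_iff₀ (by positivity)]
    have : (1 + y * q) * (1 + y) ≤ 4 * (q - 1) := by nlinarith [mul_nonneg hy.le (sub_nonneg.2 h)]
    nlinarith
  · refine (min_le_right _ _).trans ?_
    rw [le_div_iff₀ (by positivity), inv_mul_eq_div, div_le_iff₀ hy]
    have h3 : y ≤ y * y := by nlinarith
    have h4 : 1 ≤ y * y := by nlinarith
    nlinarith [mul_le_mul_of_nonneg_left h3 (by linarith : 0 ≤ q), mul_nonneg (sub_nonneg.2 hq) (sub_nonneg.2 h4)]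

lemma sum_mm {x q : ℝ} (hx : 0 < x) (hq : 3 ≤ q) (A : ℕ) :
    ∑ a ∈ Finset.range A, mm (x * q ^ a) ≤ 4 / (1 + x) := by
  have h1 : ∀ a ∈ Finset.range A, mm (x * q ^ a) ≤
      4 * (x * q ^ (a + 1)) / (1 + x * q ^ (a + 1)) - 4 * (x * q ^ a) / (1 + x * q ^ a) := by
    intro a _
    have := mm_tele (y := x * q ^ a) (by positivity) hq
    rw [mul_assoc x, ← pow_succ] at this
    exact this
  refine (Finset.sum_le_sum h1).trans ?_
  rw [Finset.sum_range_sub (fun a => 4 * (x * q ^ a) / (1 + x * q ^ a))]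
  simp only [pow_zero, mul_one]
  have h2 : 4 * (x * q ^ A) / (1 + x * q ^ A) ≤ 4 := by
    have : 0 < x * q ^ A := by positivity
    rw [div_le_iff₀ (by positivity)]; linarith
  have h3 : 4 - 4 * x / (1 + x) = 4 / (1 + x) := by field_simp; ring
  linarith

lemma sum_geom_fifth (k : ℕ) : ∑ j ∈ Finset.range k, 4 * (1 / 5 : ℝ) ^ j ≤ 5 := by
  have : ∀ k : ℕ, ∑ j ∈ Finset.range k, 4 * (1 / 5 : ℝ) ^ j = 5 - 5 * (1 / 5) ^ k := by
    intro k
    induction k with
    | zero => simp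
    | succ k ih => rw [Finset.sum_range_succ, ih, pow_succ]; ring
  rw [this]
  have : (0:ℝ) ≤ 5 * (1 / 5) ^ k := by positivity
  linarith

lemma sum_inv {σ : ℝ} (hσ : 0 < σ) {l B : ℕ} (hl : 1 < 5 ^ (l + 1) * σ) (hB : l + 1 ≤ B) :
    ∑ b ∈ Finset.range B, 4 / (1 + σ * 5 ^ b) ≤ 4 * (l + 1) + 5 := by
  obtain ⟨k, rfl⟩ := Nat.exists_eq_add_of_le hB
  rw [Finset.sum_range_add]
  have h1 : ∑ b ∈ Finset.range (l + 1), 4 / (1 + σ * 5 ^ b) ≤ 4 * (l + 1) := by
    have := Finset.sum_le_card_nsmul (Finset.range (l + 1)) (fun b => 4 / (1 + σ * 5 ^ b)) 4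
      (fun b _ => by
        rw [div_le_iff₀ (by positivity)]
        have : 0 < σ * 5 ^ b := by positivity
        linarith)
    rw [Finset.card_range] at this
    simp only [nsmul_eq_mul] at this
    push_cast at this
    linarith
  have h2 : ∑ b ∈ Finset.range k, 4 / (1 + σ * 5 ^ (l + 1 + b)) ≤ ∑ j ∈ Finset.range k, 4 * (1 / 5 : ℝ) ^ j := by
    apply Finset.sum_le_sum
    intro j _
    rw [div_le_iff₀ (by positivity)]
    have e : σ * 5 ^ (l + 1 + j) = (5 ^ (l + 1) * σ) * 5 ^ j := by rw [pow_add]; ring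
    have h3 : (5:ℝ) ^ j ≤ 1 + σ * 5 ^ (l + 1 + j) := by
      rw [e]
      have : (0:ℝ) < 5 ^ j := by positivity
      nlinarith
    calc (4:ℝ) = 4 * (1 / 5) ^ j * 5 ^ j := by rw [mul_assoc, ← mul_pow]; norm_num
      _ ≤ _ := mul_le_mul_of_nonneg_left h3 (by positivity)
  have h3 := sum_geom_fifth k
  linarith

lemma pow_exp_le {x : ℝ} (hx : 0 < x) (k : ℕ) :
    x ^ (k + 1) * exp (-x) ≤ ((k + 2).factorial : ℝ) * mm x := by
  unfold mm
  rw [mul_min_of_nonneg _ _ (by positivity)]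
  apply le_min
  · have h1 := Real.pow_div_factorial_le_exp x hx.le k
    have h2 : x ^ k * exp (-x) ≤ (k.factorial : ℝ) := by
      rw [Real.exp_neg, ← div_eq_mul_inv, div_le_iff₀ (exp_pos _)]
      rw [div_le_iff₀ (by positivity)] at h1
      linarith
    have h3 : (k.factorial : ℝ) ≤ ((k + 2).factorial : ℝ) := by
      exact_mod_cast Nat.factorial_le (by omega)
    calc x ^ (k + 1) * exp (-x) = (x ^ k * exp (-x)) * x := by rw [pow_succ]; ring
      _ ≤ _ := mul_le_mul_of_nonneg_right (h2.trans h3) hx.le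
  · have h1 := Real.pow_div_factorial_le_exp x hx.le (k + 2)
    have h2 : x ^ (k + 2) * exp (-x) ≤ ((k + 2).factorial : ℝ) := by
      rw [Real.exp_neg, ← div_eq_mul_inv, div_le_iff₀ (exp_pos _)]
      rw [div_le_iff₀ (by positivity)] at h1
      linarith
    rw [← div_eq_mul_inv, le_div_iff₀ hx]
    calc x ^ (k + 1) * exp (-x) * x = x ^ (k + 2) * exp (-x) := by ring
      _ ≤ _ := h2

/-- two-dimensional sums -/
lemma sum2 {σ : ℝ} (hσ : 0 < σ) {l A B : ℕ} (hl : 1 < 5 ^ (l + 1) * σ) (hB : l + 1 ≤ B) (k : ℕ) :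
    ∑ a ∈ Finset.range A, ∑ b ∈ Finset.range B,
      (σ * 3 ^ a * 5 ^ b) ^ (k + 1) * exp (-(σ * 3 ^ a * 5 ^ b)) ≤
      ((k + 2).factorial : ℝ) * (4 * (l + 1) + 5) := by
  rw [Finset.sum_comm]
  have h1 : ∀ b ∈ Finset.range B, ∑ a ∈ Finset.range A,
      (σ * 3 ^ a * 5 ^ b) ^ (k + 1) * exp (-(σ * 3 ^ a * 5 ^ b)) ≤
      ((k + 2).factorial : ℝ) * (4 / (1 + σ * 5 ^ b)) := by
    intro b _
    have h2 : ∀ a ∈ Finset.range A, (σ * 3 ^ a * 5 ^ b) ^ (k + 1) * exp (-(σ * 3 ^ a * 5 ^ b)) ≤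
        ((k + 2).factorial : ℝ) * mm ((σ * 5 ^ b) * 3 ^ a) := by
      intro a _
      have := pow_exp_le (x := σ * 3 ^ a * 5 ^ b) (by positivity) k
      refine this.trans_eq ?_
      congr 2; ring
    refine (Finset.sum_le_sum h2).trans ?_
    rw [← Finset.mul_sum]
    exact mul_le_mul_of_nonneg_left (sum_mm (by positivity) le_rfl A) (by positivity)
  refine (Finset.sum_le_sum h1).trans ?_
  rw [← Finset.mul_sum]
  exact mul_le_mul_of_nonneg_left (sum_inv hσ hl hB) (by positivity)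

/-- one-dimensional sum -/
lemma sum1 {σ : ℝ} (hσ : 0 < σ) (B : ℕ) :
    ∑ b ∈ Finset.range B, (σ * 5 ^ b) * exp (-(σ * 5 ^ b)) ≤ 8 := by
  have h2 : ∀ b ∈ Finset.range B, (σ * 5 ^ b) * exp (-(σ * 5 ^ b)) ≤ 2 * mm (σ * 5 ^ b) := by
    intro b _
    have := pow_exp_le (x := σ * 5 ^ b) (by positivity) 0
    simpa using this
  refine (Finset.sum_le_sum h2).trans ?_
  rw [← Finset.mul_sum]
  have := sum_mm hσ (q := 5) (by norm_num) B
  have h3 : 4 / (1 + σ) ≤ 4 := by rw [div_le_iff₀ (by positivity)]; linarith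
  linarith

end R398.DS
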