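import Pool.Agent.R398.DS.Near

namespace R398.DS

open Real MeasureTheory

lemma intInt_of_bdd {f : ℝ → ℝ} (hf : Measurable f) (C : ℝ) (hC : ∀ x, |f x| ≤ C) (a b : ℝ) :
    IntervalIntegrable f volume a b := by
  refine (intervalIntegrable_const (c := C)).mono_fun hf.aestronglyMeasurable ?_
  refine Filter.Eventually.of_forall (fun x => ?_)
  simp only [Real.norm_eq_abs]
  exact (hC x).trans (le_abs_self C)

lemma integral_scale {N : ℕ} (hN : 0 < N) (g k : ℝ → ℝ) (hk : ∀ x, k (x + 1) = k x)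
    (hg : Measurable g) (hkm : Measurable k) (hgb : ∀ x, |g x| ≤ 1) (hkb : ∀ x, |k x| ≤ 1) :
    ∫ θ in (0:ℝ)..1, g θ * k (N * θ) =
      (1 / (N:ℝ)) * ∫ η in (0:ℝ)..1, (∑ i ∈ Finset.range N, g ((η + i) / N)) * k η := by
  have hN' : (N:ℝ) ≠ 0 := by exact_mod_cast hN.ne'
  have hFm : Measurable (fun η : ℝ => g (η / N) * k η) :=
    (hg.comp (measurable_id.div_const _)).mul hkm
  have hFb : ∀ η : ℝ, |g (η / N) * k η| ≤ 1 := by
    intro η; rw [abs_mul]; exact mul_le_one₀ (hgb _) (abs_nonneg _) (hkb _)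
  have hFi : ∀ a b, IntervalIntegrable (fun η : ℝ => g (η / N) * k η) volume a b :=
    fun a b => intInt_of_bdd hFm 1 hFb a b
  have h1 : ∫ θ in (0:ℝ)..1, g θ * k (N * θ) =
      ∫ θ in (0:ℝ)..1, (fun η : ℝ => g (η / N) * k η) (N * θ) := by
    congr 1; ext θ
    simp only
    rw [mul_div_assoc, mul_comm (N:ℝ) (θ / N), div_mul_cancel₀ θ hN', mul_comm (N:ℝ) θ]
  have hper : Function.Periodic k 1 := hk
  have h2 : ∫ η in (N:ℝ) * 0..(N:ℝ) * 1, g (η / N) * k η =
      ∑ i ∈ Finset.range N, ∫ η in (0:ℝ)..1, g ((η + i) / N) * k η := by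
    rw [mul_zero, mul_one]
    have := intervalIntegral.sum_integral_adjacent_intervals (f := fun η : ℝ => g (η / N) * k η)
      (μ := volume) (a := fun i : ℕ => (i:ℝ)) (n := N) (fun k _ => hFi _ _)
    simp only [Nat.cast_zero] at this
    rw [← this]
    apply Finset.sum_congr rfl
    intro i _
    have e := intervalIntegral.integral_comp_add_right (a := 0) (b := 1)
      (fun η : ℝ => g (η / N) * k η) (i:ℝ)
    rw [zero_add] at e
    push_cast
    rw [add_comm (i:ℝ) 1, ← e]
    congr 1; ext η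
    have := hper.nat_mul i η
    rw [mul_one] at this
    rw [this]
  rw [h1, intervalIntegral.integral_comp_mul_left (fun η : ℝ => g (η / N) * k η) hN', h2]
  rw [smul_eq_mul, ← one_div]
  congr 1
  rw [← intervalIntegral.integral_finset_sum]
  · congr 1; ext η; rw [Finset.sum_mul]
  · intro i _
    apply intInt_of_bdd _ 1
    · intro η; rw [abs_mul]; exact mul_le_one₀ (hgb _) (abs_nonneg _) (hkb _)
    · exact (hg.comp ((measurable_id.add_const _).div_const _)).mul hkm

/-- the weight restricted to the region away from `(1/3)ℤ` -/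
noncomputable def RR (B A : ℕ) (σ θ : ℝ) : ℝ := if 3 * KK * σ ≤ dZ (3 * θ) then WW B A σ θ else 0

noncomputable def JJ (B A : ℕ) (σ : ℝ) : ℝ := ∫ θ in (0:ℝ)..1, RR B A σ θ

lemma RR_nonneg (B A : ℕ) (σ θ : ℝ) : 0 ≤ RR B A σ θ := by
  unfold RR; split_ifs
  · exact WW_nonneg _ _ _ _
  · exact le_rfl

lemma RR_le_one (B A : ℕ) (σ θ : ℝ) : RR B A σ θ ≤ 1 := by
  unfold RR; split_ifs
  · exact WW_le_one _ _ _ _
  · norm_num

lemma RR_abs (B A : ℕ) (σ θ : ℝ) : |RR B A σ θ| ≤ 1 := by
  rw [abs_of_nonneg (RR_nonneg _ _ _ _)]; exact RR_le_one _ _ _ _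

lemma RR_per (B A : ℕ) (σ θ : ℝ) : RR B A σ (θ + 1) = RR B A σ θ := by
  unfold RR
  have h1 : dZ (3 * (θ + 1)) = dZ (3 * θ) := by
    have := dZ_add_int (3 * θ) 3
    rw [← this]; congr 1; push_cast; ring
  have h2 : WW B A σ (θ + 1) = WW B A σ θ := by
    have := WW_add_int B A σ θ 1
    rw [← this]; congr 1; push_cast; ring
  rw [h1, h2]

lemma measurable_RR (B A : ℕ) (σ : ℝ) : Measurable (RR B A σ) := by
  unfold RR
  exact Measurable.ite (measurableSet_le measurable_const (measurable_dZ.comp (measurable_const.mul measurable_id)))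
    (continuous_WW _ _ _).measurable measurable_const

lemma JJ_le_one (B A : ℕ) (σ : ℝ) : JJ B A σ ≤ 1 := by
  unfold JJ
  have h := intervalIntegral.integral_mono_on (a := 0) (b := 1) (by norm_num)
    (intInt_of_bdd (measurable_RR B A σ) 1 (RR_abs B A σ) 0 1)
    (intervalIntegrable_const (c := (1:ℝ))) (fun x _ => RR_le_one B A σ x)
  simpa using h

lemma JJ_nonneg (B A : ℕ) (σ : ℝ) : 0 ≤ JJ B A σ :=
  intervalIntegral.integral_nonneg (by norm_num) (fun x _ => RR_nonneg _ _ _ _)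

noncomputable def kk (r η : ℝ) : ℝ := if dZ η < r then 1 else 0

lemma kk_abs (r η : ℝ) : |kk r η| ≤ 1 := by unfold kk; split_ifs <;> simp
lemma kk_nonneg (r η : ℝ) : 0 ≤ kk r η := by unfold kk; split_ifs <;> simp
lemma kk_le (r η : ℝ) : kk r η ≤ 1 := (le_abs_self _).trans (kk_abs r η)
lemma kk_per (r η : ℝ) : kk r (η + 1) = kk r η := by
  unfold kk
  have := dZ_add_int η 1
  push_cast at this
  rw [this]
lemma measurable_kk (r : ℝ) : Measurable (kk r) := by
  unfold kk
  exact Measurable.ite (measurableSet_lt measurable_dZ measurable_const) measurable_const measurable_const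

lemma integral_kk {r : ℝ} (hr : 0 ≤ r) : ∫ η in (0:ℝ)..1, kk r η ≤ 2 * r := by
  have hi : ∀ a b, IntervalIntegrable (kk r) volume a b :=
    fun a b => intInt_of_bdd (measurable_kk r) 1 (kk_abs r) a b
  by_cases h : r ≤ 1 / 2
  · have h1 : ∫ η in (0:ℝ)..1, kk r η = (∫ η in (0:ℝ)..r, kk r η) + (∫ η in r..(1 - r), kk r η) +
        (∫ η in (1 - r)..1, kk r η) := by
      rw [intervalIntegral.integral_add_adjacent_intervals (hi _ _) (hi _ _),
        intervalIntegral.integral_add_adjacent_intervals (hi _ _) (hi _ _)]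
    have h2 : ∫ η in (0:ℝ)..r, kk r η ≤ r := by
      have := intervalIntegral.integral_mono_on (a := 0) (b := r) hr (hi 0 r)
        (intervalIntegrable_const (c := (1:ℝ))) (fun x _ => kk_le r x)
      simpa using this
    have h3 : ∫ η in (1 - r)..1, kk r η ≤ r := by
      have := intervalIntegral.integral_mono_on (a := 1 - r) (b := 1) (by linarith) (hi _ _)
        (intervalIntegrable_const (c := (1:ℝ))) (fun x _ => kk_le r x)
      simpa using this
    have h4 : ∫ η in r..(1 - r), kk r η ≤ 0 := by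
      have := intervalIntegral.integral_mono_on (a := r) (b := 1 - r) (by linarith) (hi _ _)
        (intervalIntegrable_const (c := (0:ℝ))) (fun x hx => by
          unfold kk
          rw [if_neg]
          push Not
          by_cases hx2 : x ≤ 1 / 2
          · rw [dZ_eq_abs (by rw [abs_of_nonneg (by linarith [hx.1])]; exact hx2),
              abs_of_nonneg (by linarith [hx.1])]
            exact hx.1
          · have e : dZ x = |x - (1:ℤ)| := dZ_eq_of_abs_sub_int (by
              push_cast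
              rw [abs_of_nonpos (by linarith [hx.2])]; linarith)
            rw [e]; push_cast
            rw [abs_of_nonpos (by linarith [hx.2])]
            linarith [hx.2])
      simpa using this
    linarith
  · have := intervalIntegral.integral_mono_on (a := 0) (b := 1) (by norm_num) (hi 0 1)
        (intervalIntegrable_const (c := (1:ℝ))) (fun x _ => kk_le r x)
    simp only [intervalIntegral.integral_const, sub_zero, smul_eq_mul, mul_one] at this
    linarith

lemma transfer {A B m : ℕ} {σ : ℝ} (hσ : 0 < σ) (hB : m + 1 ≤ B) (hm : 5 ^ m * σ ≤ dl)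
    (hm' : dl < 5 ^ (m + 1) * σ) (hm2 : 2000 ≤ m) :
    JJ B (A + 3) σ ≤ (38 / 900) * JJ B (A + 1) (9 * σ) +
      54 * KK * σ * exp 600000 * (499 / 1000) ^ (m + 1) := by
  set E := exp 600000 * (499 / 1000) ^ (m + 1) with hE
  have hE0 : 0 ≤ E := by positivity
  set G : ℝ → ℝ := fun θ => CC B σ θ * CC B (3 * σ) (3 * θ) with hG
  have hGm : Measurable G := ((continuous_CC _ _).mul ((continuous_CC _ _).comp (by fun_prop))).measurable
  have hG0 : ∀ θ, 0 ≤ G θ := fun θ => mul_nonneg (CC_nonneg _ _ _) (CC_nonneg _ _ _)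
  have hGb : ∀ θ, |G θ| ≤ 1 := fun θ => by
    rw [abs_of_nonneg (hG0 θ)]
    exact mul_le_one₀ (CC_le_one _ _ _) (CC_nonneg _ _ _) (CC_le_one _ _ _)
  have hpt : ∀ θ, RR B (A + 3) σ θ ≤ G θ * RR B (A + 1) (9 * σ) (9 * θ) + E * kk (27 * KK * σ) (27 * θ) := by
    intro θ
    by_cases h1 : 3 * KK * σ ≤ dZ (3 * θ)
    · by_cases h2 : 27 * KK * σ ≤ dZ (27 * θ)
      · have e1 : RR B (A + 3) σ θ = WW B (A + 3) σ θ := by unfold RR; rw [if_pos h1]
        have e2 : RR B (A + 1) (9 * σ) (9 * θ) = WW B (A + 1) (9 * σ) (9 * θ) := by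
          unfold RR
          rw [if_pos]
          rw [show 3 * (9 * θ) = 27 * θ by ring]; linarith
        rw [e1, e2, WW_succ, WW_succ, show 3 * (3 * σ) = 9 * σ by ring, show 3 * (3 * θ) = 9 * θ by ring]
        have : 0 ≤ E * kk (27 * KK * σ) (27 * θ) := mul_nonneg hE0 (kk_nonneg _ _)
        rw [hG]; simp only; nlinarith
      · push Not at h2
        have e1 : RR B (A + 3) σ θ = WW B (A + 3) σ θ := by unfold RR; rw [if_pos h1]
        have e3 : kk (27 * KK * σ) (27 * θ) = 1 := by unfold kk; rw [if_pos h2]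
        rw [e1, e3, mul_one]
        have := WW_bad (A := A) hσ hB hm h1 h2
        have h4 : 0 ≤ G θ * RR B (A + 1) (9 * σ) (9 * θ) := mul_nonneg (hG0 _) (RR_nonneg _ _ _ _)
        linarith
    · have e1 : RR B (A + 3) σ θ = 0 := by unfold RR; rw [if_neg h1]
      rw [e1]
      exact add_nonneg (mul_nonneg (hG0 _) (RR_nonneg _ _ _ _)) (mul_nonneg hE0 (kk_nonneg _ _))
  have i1 : IntervalIntegrable (fun θ => G θ * RR B (A + 1) (9 * σ) (9 * θ)) volume 0 1 := by
    apply intInt_of_bdd _ 1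
    · intro η; rw [abs_mul]; exact mul_le_one₀ (hGb _) (abs_nonneg _) (RR_abs _ _ _ _)
    · exact hGm.mul ((measurable_RR _ _ _).comp (measurable_const.mul measurable_id))
  have i2 : IntervalIntegrable (fun θ => kk (27 * KK * σ) (27 * θ)) volume 0 1 := by
    apply intInt_of_bdd _ 1
    · intro η; exact kk_abs _ _
    · exact (measurable_kk _).comp (measurable_const.mul measurable_id)
  have h1 : JJ B (A + 3) σ ≤ ∫ θ in (0:ℝ)..1, (G θ * RR B (A + 1) (9 * σ) (9 * θ) + E * kk (27 * KK * σ) (27 * θ)) :=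
    intervalIntegral.integral_mono_on (by norm_num)
      (intInt_of_bdd (measurable_RR _ _ _) 1 (RR_abs _ _ _) 0 1) (i1.add (i2.const_mul E)) (fun x _ => hpt x)
  rw [intervalIntegral.integral_add i1 (i2.const_mul E), intervalIntegral.integral_const_mul] at h1
  have h2 : ∫ θ in (0:ℝ)..1, G θ * RR B (A + 1) (9 * σ) (9 * θ) ≤ (38 / 900) * JJ B (A + 1) (9 * σ) := by
    have e := integral_scale (N := 9) (by norm_num) G (RR B (A + 1) (9 * σ)) (RR_per _ _ _) hGm
      (measurable_RR _ _ _) hGb (RR_abs _ _ _)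
    push_cast at e
    rw [e]
    have hsm : Measurable (fun η : ℝ => (∑ i ∈ Finset.range 9, G ((η + i) / 9)) * RR B (A + 1) (9 * σ) η) :=
      (Finset.measurable_fun_sum _ (fun i _ => hGm.comp ((measurable_id.add_const _).div_const _))).mul
        (measurable_RR _ _ _)
    have hle : ∀ η, (∑ i ∈ Finset.range 9, G ((η + i) / 9)) * RR B (A + 1) (9 * σ) η ≤
        (38 / 100) * RR B (A + 1) (9 * σ) η := by
      intro η
      by_cases h3 : 3 * KK * (9 * σ) ≤ dZ (3 * η)
      · have := sum_nine (η := η) hσ hB hm hm' hm2 (by linarith)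
        exact mul_le_mul_of_nonneg_right this (RR_nonneg _ _ _ _)
      · have e1 : RR B (A + 1) (9 * σ) η = 0 := by unfold RR; rw [if_neg h3]
        rw [e1]; simp
    have hb : ∀ η, |(∑ i ∈ Finset.range 9, G ((η + i) / 9)) * RR B (A + 1) (9 * σ) η| ≤ 9 := by
      intro η
      have hs0 : 0 ≤ ∑ i ∈ Finset.range 9, G ((η + i) / 9) := Finset.sum_nonneg (fun _ _ => hG0 _)
      have hs9 : ∑ i ∈ Finset.range 9, G ((η + i) / 9) ≤ 9 := by
        have := Finset.sum_le_card_nsmul (Finset.range 9) (fun i : ℕ => G ((η + i) / 9)) 1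
          (fun i _ => (le_abs_self _).trans (hGb _))
        rw [Finset.card_range] at this
        simpa using this
      rw [abs_of_nonneg (mul_nonneg hs0 (RR_nonneg _ _ _ _))]
      have := mul_le_mul hs9 (RR_le_one B (A + 1) (9 * σ) η) (RR_nonneg _ _ _ _) (by norm_num)
      linarith
    have h3 : ∫ η in (0:ℝ)..1, (∑ i ∈ Finset.range 9, G ((η + i) / 9)) * RR B (A + 1) (9 * σ) η ≤
        ∫ η in (0:ℝ)..1, (38 / 100) * RR B (A + 1) (9 * σ) η :=
      intervalIntegral.integral_mono_on (by norm_num) (intInt_of_bdd hsm 9 hb 0 1)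
        ((intInt_of_bdd (measurable_RR _ _ _) 1 (RR_abs _ _ _) 0 1).const_mul _) (fun x _ => hle x)
    rw [intervalIntegral.integral_const_mul] at h3
    unfold JJ
    linarith
  have h3 : ∫ θ in (0:ℝ)..1, kk (27 * KK * σ) (27 * θ) ≤ 54 * KK * σ := by
    have e := integral_scale (N := 27) (by norm_num) (fun _ => 1) (kk (27 * KK * σ)) (kk_per _) measurable_const
      (measurable_kk _) (fun _ => by norm_num) (kk_abs _)
    push_cast at e
    simp only [one_mul, Finset.sum_const, Finset.card_range, nsmul_eq_mul, mul_one] at e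
    rw [e, intervalIntegral.integral_const_mul]
    have hKK : 0 ≤ KK := by unfold KK; norm_num
    have := integral_kk (r := 27 * KK * σ) (by positivity)
    push_cast
    linarith
  have h4 : E * ∫ θ in (0:ℝ)..1, kk (27 * KK * σ) (27 * θ) ≤ E * (54 * KK * σ) :=
    mul_le_mul_of_nonneg_left h3 hE0
  have h5 : 54 * KK * σ * exp 600000 * (499 / 1000) ^ (m + 1) = E * (54 * KK * σ) := by rw [hE]; ring
  rw [h5]
  linarith

/-- exponent -/
noncomputable def gam : ℝ := Real.logb 5 (1000 / 499)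

lemma five_gam : (5:ℝ) ^ gam = 1000 / 499 := by
  unfold gam; exact Real.rpow_logb (by norm_num) (by norm_num) (by norm_num)

lemma gam_pos : 0 < gam := by
  unfold gam; exact Real.logb_pos (by norm_num) (by norm_num)

lemma nine_gam : (9:ℝ) ^ gam ≤ 26 / 10 := by
  have h1 : ((9:ℝ) ^ gam) ^ 100 ≤ (26 / 10) ^ 100 := by
    have e1 : ((9:ℝ) ^ gam) ^ 100 = ((9:ℝ) ^ 100) ^ gam := by
      rw [← Real.rpow_natCast, ← Real.rpow_natCast, ← Real.rpow_mul (by norm_num),
        ← Real.rpow_mul (by norm_num), mul_comm]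
    have e2 : ((5:ℝ) ^ 137) ^ gam = ((5:ℝ) ^ gam) ^ 137 := by
      rw [← Real.rpow_natCast, ← Real.rpow_natCast, ← Real.rpow_mul (by norm_num),
        ← Real.rpow_mul (by norm_num), mul_comm]
    have e3 : ((9:ℝ) ^ 100) ^ gam ≤ ((5:ℝ) ^ 137) ^ gam :=
      Real.rpow_le_rpow (by positivity) (by norm_num) gam_pos.le
    rw [e1]
    refine e3.trans ?_
    rw [e2, five_gam]
    norm_num
  exact (pow_le_pow_iff_left₀ (by positivity) (by norm_num) (by norm_num)).mp h1

lemma pow499_le {σ : ℝ} {m : ℕ} (hσ : 0 < σ) (hm' : dl < 5 ^ (m + 1) * σ) :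
    (499 / 1000 : ℝ) ^ (m + 1) ≤ (σ / dl) ^ gam := by
  have hdl : 0 < dl := by unfold dl; norm_num
  have h1 : (1 / 5 : ℝ) ^ (m + 1) ≤ σ / dl := by
    rw [le_div_iff₀ hdl]
    have : (1 / 5 : ℝ) ^ (m + 1) * dl ≤ (1 / 5 : ℝ) ^ (m + 1) * (5 ^ (m + 1) * σ) :=
      mul_le_mul_of_nonneg_left hm'.le (by positivity)
    refine this.trans_eq ?_
    rw [← mul_assoc, ← mul_pow]; norm_num
  have h2 : ((1 / 5 : ℝ) ^ (m + 1)) ^ gam ≤ (σ / dl) ^ gam :=
    Real.rpow_le_rpow (by positivity) h1 gam_pos.le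
  refine le_trans (le_of_eq ?_) h2
  have e2 : ((1 / 5 : ℝ) ^ (m + 1)) ^ gam = ((1 / 5 : ℝ) ^ gam) ^ (m + 1) := by
    rw [← Real.rpow_natCast, ← Real.rpow_natCast, ← Real.rpow_mul (by norm_num),
      ← Real.rpow_mul (by norm_num), mul_comm]
  rw [e2]
  congr 1
  rw [one_div, Real.inv_rpow (by norm_num), five_gam]; norm_num

noncomputable def sig0 : ℝ := dl / 5 ^ 2000

lemma sig0_pos : 0 < sig0 := by unfold sig0 dl; positivity

theorem JJ_bound : ∃ C : ℝ, 0 < C ∧ ∀ B j A : ℕ, ∀ σ : ℝ, 0 < σ → 2 * j + 1 ≤ A → sig0 ≤ 9 ^ j * σ →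
    dl < 5 ^ B * σ → JJ B A σ ≤ C * σ ^ (1 + gam) := by
  have hdl : 0 < dl := by unfold dl; norm_num
  have hKK : 0 < KK := by unfold KK; norm_num
  set D3 := 54 * KK * exp 600000 * (dl⁻¹) ^ gam with hD3
  have hD30 : 0 < D3 := by positivity
  set C := (sig0 ^ (1 + gam))⁻¹ + 100 * D3 with hC
  have hs0 := sig0_pos
  have hC1 : (sig0 ^ (1 + gam))⁻¹ ≤ C := by rw [hC]; linarith
  have hC0 : 0 < C := by positivity
  have hg : 0 < 1 + gam := by have := gam_pos; linarith
  have base : ∀ B A : ℕ, ∀ σ : ℝ, sig0 ≤ σ → JJ B A σ ≤ C * σ ^ (1 + gam) := by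
    intro B A σ hσ
    refine (JJ_le_one B A σ).trans ?_
    have h1 : sig0 ^ (1 + gam) ≤ σ ^ (1 + gam) := Real.rpow_le_rpow hs0.le hσ hg.le
    have h2 : 0 < sig0 ^ (1 + gam) := by positivity
    calc (1:ℝ) = (sig0 ^ (1 + gam))⁻¹ * sig0 ^ (1 + gam) := (inv_mul_cancel₀ h2.ne').symm
      _ ≤ C * σ ^ (1 + gam) := mul_le_mul hC1 h1 h2.le hC0.le
  refine ⟨C, hC0, ?_⟩
  intro B j
  induction j with
  | zero =>
    intro A σ _ _ h _
    exact base B A σ (by simpa using h)
  | succ j ih =>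
    intro A σ hσ hA h hB
    by_cases hb : sig0 ≤ σ
    · exact base B A σ hb
    · push Not at hb
      obtain ⟨A', rfl⟩ : ∃ A', A = A' + 3 := ⟨A - 3, by omega⟩
      have hdσ : (5:ℝ) ^ 2000 ≤ dl / σ := by
        unfold sig0 at hb
        rw [lt_div_iff₀ (by positivity)] at hb
        rw [le_div_iff₀ hσ]; linarith
      have h1 : 1 ≤ dl / σ := le_trans (one_le_pow₀ (by norm_num)) hdσ
      obtain ⟨m, hm1, hm2⟩ := exists_nat_pow_near h1 (by norm_num : (1:ℝ) < 5)
      have hm : 5 ^ m * σ ≤ dl := by rwa [le_div_iff₀ hσ] at hm1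
      have hm' : dl < 5 ^ (m + 1) * σ := by rwa [div_lt_iff₀ hσ] at hm2
      have hm2000 : 2000 ≤ m := by
        have := (pow_lt_pow_iff_right₀ (by norm_num : (1:ℝ) < 5)).mp (lt_of_le_of_lt hdσ hm2)
        omega
      have hmB : m + 1 ≤ B := by
        have h2 : (5:ℝ) ^ m * σ < 5 ^ B * σ := lt_of_le_of_lt hm hB
        have h3 : (5:ℝ) ^ m < 5 ^ B := lt_of_mul_lt_mul_right h2 hσ.le
        exact (pow_lt_pow_iff_right₀ (by norm_num : (1:ℝ) < 5)).mp h3
      have ht := transfer (A := A') hσ hmB hm hm' hm2000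
      have hI := ih (A' + 1) (9 * σ) (by positivity) (by omega) (by rw [pow_succ] at h; linarith)
        (by have : (0:ℝ) < 5 ^ B := by positivity
            nlinarith)
      have hp := pow499_le hσ hm'
      have e1 : (9 * σ) ^ (1 + gam) = 9 * 9 ^ gam * σ ^ (1 + gam) := by
        rw [Real.mul_rpow (by norm_num) hσ.le, Real.rpow_add (by norm_num), Real.rpow_one]
      have e2 : σ * (σ / dl) ^ gam = (dl⁻¹) ^ gam * σ ^ (1 + gam) := by
        rw [div_eq_mul_inv, Real.mul_rpow hσ.le (by positivity), Real.rpow_add hσ, Real.rpow_one]; ring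
      have hS : 0 < σ ^ (1 + gam) := by positivity
      have hn := nine_gam
      have t1 : (38 / 900) * JJ B (A' + 1) (9 * σ) ≤ (988 / 1000) * (C * σ ^ (1 + gam)) := by
        have : JJ B (A' + 1) (9 * σ) ≤ C * (9 * (26 / 10) * σ ^ (1 + gam)) := by
          refine hI.trans ?_
          rw [e1]; gcongr
        linarith
      have t2 : 54 * KK * σ * exp 600000 * (499 / 1000) ^ (m + 1) ≤ D3 * σ ^ (1 + gam) := by
        calc 54 * KK * σ * exp 600000 * (499 / 1000) ^ (m + 1)
            ≤ 54 * KK * σ * exp 600000 * (σ / dl) ^ gam :=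
              mul_le_mul_of_nonneg_left hp (by positivity)
          _ = 54 * KK * exp 600000 * (σ * (σ / dl) ^ gam) := by ring
          _ = D3 * σ ^ (1 + gam) := by rw [e2, hD3]; ring
      have t3 : D3 * σ ^ (1 + gam) ≤ (1 / 100) * (C * σ ^ (1 + gam)) := by
        have : D3 ≤ (1 / 100) * C := by
          rw [hC]
          have : 0 < (sig0 ^ (1 + gam))⁻¹ := by positivity
          linarith
        nlinarith
      have hCS : 0 < C * σ ^ (1 + gam) := by positivity
      linarith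

end R398.DS
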