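import Pool.Agent.R398.DS.Basic

namespace R398.DS

open Real

lemma T5_bound1 {u : ℝ} (h1 : (-18/25) ≤ u) (h2 : u ≤ (187/1000)) : 16*u^5 - 20*u^3 + 5*u ≤ 81/100 := by
  have hx : 0 ≤ u - (-18/25) := by linarith
  have hy : 0 ≤ (187/1000) - u := by linarith
  have key : 81/100 - (16*u^5 - 20*u^3 + 5*u) = (1/(907/1000)^5) * ((1597977/39062500)*(u - (-18/25))^0*((187/1000) - u)^5 + (342281183/78125000)*(u - (-18/25))^1*((187/1000) - u)^4 + (11994379957/390625000)*(u - (-18/25))^2*((187/1000) - u)^3 + (602297587699/31250000000)*(u - (-18/25))^3*((187/1000) - u)^2 + (426772247399/156250000000)*(u - (-18/25))^4*((187/1000) - u)^1 + (132834360293/62500000000000)*(u - (-18/25))^5*((187/1000) - u)^0) := by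
    ring
  have : 0 ≤ 81/100 - (16*u^5 - 20*u^3 + 5*u) := by
    rw [key]; positivity
  linarith

lemma T5_bound2 {u : ℝ} (h1 : (43/100) ≤ u) (h2 : u ≤ (81/100)) : 16*u^5 - 20*u^3 + 5*u ≤ 81/100 := by
  have hx : 0 ≤ u - (43/100) := by linarith
  have hy : 0 ≤ (81/100) - u := by linarith
  have key : 81/100 - (16*u^5 - 20*u^3 + 5*u) = (1/(19/50)^5) * ((9329057/625000000)*(u - (43/100))^0*((81/100) - u)^5 + (168879619/125000000)*(u - (43/100))^1*((81/100) - u)^4 + (446467073/62500000)*(u - (43/100))^2*((81/100) - u)^3 + (809223091/62500000)*(u - (43/100))^3*((81/100) - u)^2 + (1134618497/125000000)*(u - (43/100))^4*((81/100) - u)^1 + (1131228099/625000000)*(u - (43/100))^5*((81/100) - u)^0) := by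
    ring
  have : 0 ≤ 81/100 - (16*u^5 - 20*u^3 + 5*u) := by
    rw [key]; positivity
  linarith

lemma cos_five_mul' (x : ℝ) : cos (5 * x) = 16 * cos x ^ 5 - 20 * cos x ^ 3 + 5 * cos x := by
  have h1 : 5 * x = 3 * x + 2 * x := by ring
  rw [h1, cos_add, cos_three_mul, sin_three_mul, cos_two_mul, sin_two_mul]
  have h2 : sin x ^ 2 = 1 - cos x ^ 2 := by have := sin_sq_add_cos_sq x; linarith
  have h3 : (3 * sin x - 4 * sin x ^ 3) * (2 * sin x * cos x) = 2 * (sin x ^ 2) * cos x * (3 - 4 * sin x ^ 2) := by ring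
  rw [h3, h2]; ring

/-- `P(u) = (2u-1)(u+1)/2` -/
lemma P_bound {u : ℝ} (h1 : -1 ≤ u) (h2 : u ≤ 81/100) : |(2 * u - 1) * (u + 1) / 2| ≤ 5625/10000 := by
  rw [abs_le]; constructor
  · nlinarith [sq_nonneg (u + 1/4)]
  · nlinarith

lemma P_bound1 {u : ℝ} (h1 : -1 ≤ u) (h2 : u ≤ 1) : |(2 * u - 1) * (u + 1) / 2| ≤ 1 := by
  rw [abs_le]; constructor
  · nlinarith [sq_nonneg (u + 1/4)]
  · nlinarith

lemma P_bound2 {u : ℝ} (h1 : -1 ≤ u) (h2 : u ≤ -(72/100)) : |(2 * u - 1) * (u + 1) / 2| ≤ 372/1000 := by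
  rw [abs_le]; constructor
  · nlinarith
  · nlinarith

lemma P_bound3 {u : ℝ} (h1 : 187/1000 ≤ u) (h2 : u ≤ 43/100) : |(2 * u - 1) * (u + 1) / 2| ≤ 372/1000 := by
  rw [abs_le]; constructor
  · nlinarith
  · nlinarith

lemma PP_bound {u : ℝ} (h1 : -1 ≤ u) (h2 : u ≤ 81/100) {v : ℝ} (hv : v = 16*u^5 - 20*u^3 + 5*u)
    (hv1 : -1 ≤ v) (hv2 : v ≤ 1) :
    |(2 * u - 1) * (u + 1) / 2| * |(2 * v - 1) * (v + 1) / 2| ≤ 372/1000 := by
  by_cases h : v ≤ 81/100
  · have a := P_bound h1 h2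
    have b := P_bound hv1 h
    have := mul_le_mul a b (abs_nonneg _) (by norm_num)
    refine this.trans (by norm_num)
  · push Not at h
    have b := P_bound1 hv1 hv2
    have a : |(2 * u - 1) * (u + 1) / 2| ≤ 372/1000 := by
      by_cases c1 : u ≤ -(72/100)
      · exact P_bound2 h1 c1
      · by_cases c2 : u ≤ 187/1000
        · exfalso
          have := T5_bound1 (u := u) (by linarith) (by linarith)
          linarith
        · by_cases c3 : u ≤ 43/100
          · exact P_bound3 (by linarith) c3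
          · exfalso
            have := T5_bound2 (u := u) (by linarith) (by linarith)
            linarith
    have := mul_le_mul a b (abs_nonneg _) (by norm_num)
    refine this.trans (by norm_num)

lemma cos_two_pi_le {y : ℝ} (hy : 1/10 ≤ dZ y) : cos (2 * π * y) ≤ 81/100 := by
  set t := y - round y with ht
  have h1 : |t| = dZ y := rfl
  have h2 : cos (2 * π * y) = cos (2 * π * |t|) := by
    have e1 : 2 * π * y = 2 * π * t + (round y : ℤ) * (2 * π) := by rw [ht]; ring
    rw [e1, Real.cos_add_int_mul_two_pi]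
    rcases abs_cases t with h | h
    · rw [h.1]
    · rw [h.1]; rw [show 2 * π * -t = -(2 * π * t) by ring, cos_neg]
  rw [h2]
  have h3 : cos (2 * π * |t|) ≤ cos (π / 5) := by
    apply cos_le_cos_of_nonneg_of_le_pi
    · positivity
    · have := dZ_le_half y
      rw [h1]; nlinarith [pi_pos]
    · rw [h1]; nlinarith [pi_pos]
  rw [cos_pi_div_five] at h3
  have h5 : √5 ≤ 224/100 := by
    rw [Real.sqrt_le_left (by norm_num)]; norm_num
  linarith

/-- the four-fold cosine product bound -/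
lemma cos4_bound {y : ℝ} (hy : 1/10 ≤ dZ y) :
    (|cos (π * y)| * |cos (π * (5 * y))|) * (|cos (π * (3 * y))| * |cos (π * (15 * y))|) ≤ 372/1000 := by
  set u := cos (2 * π * y) with hu
  set v := cos (2 * π * (5 * y)) with hv
  have hvu : v = 16 * u^5 - 20 * u^3 + 5 * u := by
    rw [hv, hu, ← cos_five_mul']; congr 1; ring
  have h13 : ∀ x : ℝ, cos (π * x) * cos (π * (3 * x)) = (2 * cos (2 * π * x) - 1) * (cos (2 * π * x) + 1) / 2 := by
    intro x
    have e1 : π * (3 * x) = 3 * (π * x) := by ring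
    have e2 : 2 * π * x = 2 * (π * x) := by ring
    rw [e1, e2, cos_three_mul, cos_two_mul]; ring
  have key : (|cos (π * y)| * |cos (π * (5 * y))|) * (|cos (π * (3 * y))| * |cos (π * (15 * y))|) =
      |(2 * u - 1) * (u + 1) / 2| * |(2 * v - 1) * (v + 1) / 2| := by
    rw [hu, hv, ← h13 y, ← h13 (5 * y), abs_mul, abs_mul]
    rw [show (3:ℝ) * (5 * y) = 15 * y by ring]; ring
  rw [key]
  exact PP_bound (neg_one_le_cos _) (cos_two_pi_le hy) hvu (neg_one_le_cos _) (cos_le_one _)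

end R398.DS
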